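import Pool.Agent.X9.ES.Final

set_option autoImplicit false

/-!
# The number of summands in the theorem of Bourgain and Chang
-/

namespace Pool.Agent.X9.ES

open Finset

lemma div_log_mono {x y : ℝ} (hx : Real.exp 1 ≤ x) (hxy : x ≤ y) : x / Real.log x ≤ y / Real.log y := by
  have hx0 : 0 < x := (Real.exp_pos 1).trans_le hx
  have h1 : 1 ≤ Real.log x := by rw [Real.le_log_iff_exp_le hx0]; exact hx
  have h2 : 1 ≤ Real.log y := h1.trans (Real.log_le_log hx0 hxy)
  have h := Real.log_div_self_antitoneOn (Set.mem_ofPred.2 hx) (Set.mem_ofPred.2 (hx.trans hxy)) hxy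
  have h3 : 0 < Real.log y / y := div_pos (by linarith) (by linarith)
  have h4 := one_div_le_one_div_of_le h3 h
  rwa [one_div_div, one_div_div] at h4

lemma big_one {k : ℕ} {A : Finset ℤ} (hA : A.Nonempty) : 1 ≤ big k A := by
  unfold big
  refine le_max_of_le_left (Finset.card_pos.2 ?_)
  obtain ⟨a, ha⟩ := hA
  refine ⟨∑ _i : Fin k, a, Finset.mem_image.2 ⟨fun _ => a, ?_, rfl⟩⟩
  rw [Fintype.mem_piFinset]
  exact fun _ => ha

/-- the sufficient number -/
theorem bc_upper (b : ℝ) (hb : 2 ≤ b) (k : ℕ) (hk : b ^ (100 * b) ≤ k) (A : Finset ℤ)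
    (hA : A.Nonempty) : (A.card : ℝ) ^ b ≤ big k A := by
  have hb0 : 0 < b := by linarith
  have hlb : 0.69 ≤ Real.log b := by
    have := Real.log_le_log (by norm_num) hb
    have := Real.log_two_gt_d9
    linarith
  have hk16 : (16 : ℝ) ^ b ≤ k := by
    refine le_trans ?_ hk
    calc (16 : ℝ) ^ b = ((2 : ℝ) ^ (4 : ℝ)) ^ b := by norm_num
      _ = (2 : ℝ) ^ (4 * b) := by rw [← Real.rpow_mul (by norm_num)]
      _ ≤ b ^ (4 * b) := Real.rpow_le_rpow (by norm_num) hb (by linarith)
      _ ≤ b ^ (100 * b) := Real.rpow_le_rpow_of_exponent_le (by linarith) (by linarith)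
  have hk16' : (16 : ℝ) ≤ k := by
    refine le_trans ?_ hk16
    calc (16 : ℝ) = (16 : ℝ) ^ (1 : ℝ) := by norm_num
      _ ≤ _ := Real.rpow_le_rpow_of_exponent_le (by norm_num) (by linarith)
  have hkn : 16 ≤ k := by exact_mod_cast hk16'
  rcases Nat.lt_or_ge A.card 2 with h1 | h2
  · have h3 : A.card = 1 := by have := hA.card_pos; omega
    rw [h3]
    simp only [Nat.cast_one, Real.one_rpow]
    exact_mod_cast big_one hA
  rcases Nat.lt_or_ge A.card 16 with h3 | h3
  · have h4 : (A.card : ℝ) ^ b ≤ k := by
      refine le_trans ?_ hk16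
      exact Real.rpow_le_rpow (by positivity) (by exact_mod_cast h3.le) hb0.le
    refine h4.trans ?_
    have h5 := k_lt_sums (k := k) h2
    have h6 : k ≤ big k A := by
      unfold big
      exact le_max_of_le_left (by omega)
    exact_mod_cast h6
  · refine le_trans ?_ (low2 k A hkn h3)
    refine Real.rpow_le_rpow_of_exponent_le (by exact_mod_cast (show 1 ≤ A.card by omega)) ?_
    have hK : 100 * (b * Real.log b) ≤ Real.log k := by
      have := Real.log_le_log (by positivity) hk
      rw [Real.log_rpow hb0] at this
      linarith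
    set x := 100 * (b * Real.log b) with hx
    have hx1 : 100 ≤ x := by
      have : 1 ≤ b * Real.log b := by nlinarith
      linarith
    have he : Real.exp 1 ≤ x := by
      have := Real.exp_one_lt_d9
      linarith
    have h4 := div_log_mono he hK
    have h5 : 0 < Real.log x := Real.log_pos (by linarith)
    have h6 : 8 * b ≤ x / Real.log x := by
      rw [le_div_iff₀ h5]
      have h7 : Real.log x ≤ 9 * Real.log b := by
        rw [hx, Real.log_mul (by norm_num) (by positivity), Real.log_mul (by positivity) (by positivity)]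
        have h8 : Real.log (Real.log b) ≤ Real.log b := by
          have := Real.log_le_sub_one_of_pos (show 0 < Real.log b by linarith)
          linarith
        have h9 : Real.log 100 ≤ 7 * Real.log b := by
          have h10 : Real.log 100 ≤ Real.log ((2 : ℝ) ^ 7) := Real.log_le_log (by norm_num) (by norm_num)
          rw [Real.log_pow] at h10
          have h11 : Real.log 2 ≤ Real.log b := Real.log_le_log (by norm_num) hb
          push_cast at h10
          linarith
        linarith
      nlinarith
    have h7 : Real.log k / (8 * Real.log (Real.log k)) = Real.log k / Real.log (Real.log k) / 8 := by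
      rw [mul_comm, div_mul_eq_div_div]
    rw [h7]
    linarith

lemma big_le_pow (k : ℕ) (A : Finset ℤ) : big k A ≤ A.card ^ k := by
  unfold big
  refine max_le ?_ ?_
  · refine Finset.card_image_le.trans ?_
    rw [Fintype.card_piFinset]
    simp
  · refine Finset.card_image_le.trans ?_
    rw [Fintype.card_piFinset]
    simp

/-- the necessary number -/
theorem bc_lower : ∃ b₀ : ℝ, ∀ b : ℝ, b₀ ≤ b → ∀ k : ℕ, 1 ≤ k → (k : ℝ) ≤ b ^ (b / 2000) →
    ∃ A : Finset ℤ, A.Nonempty ∧ (∀ a ∈ A, 0 < a) ∧ (big k A : ℝ) < (A.card : ℝ) ^ b := by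
  -- `sqrt b ≤ (1/2000) b log b` etc. for large `b`
  refine ⟨max (Real.exp 17) (2000 ^ 2), fun b hb k hk1 hk => ?_⟩
  have hbe : Real.exp 17 ≤ b := (le_max_left _ _).trans hb
  have hb2 : (2000 : ℝ) ^ 2 ≤ b := (le_max_right _ _).trans hb
  have hb0 : 0 < b := (Real.exp_pos _).trans_le hbe
  have hlb : 17 ≤ Real.log b := by rw [Real.le_log_iff_exp_le hb0]; exact hbe
  have hk1' : (1 : ℝ) ≤ k := by exact_mod_cast hk1
  rcases lt_or_ge (Real.log k) 16 with hK | hK
  · -- trivial bound
    have h1 : (k : ℝ) < b := by
      have h2 : (k : ℝ) < Real.exp 16 := by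
        rw [← Real.log_lt_iff_lt_exp (by linarith)]
        exact hK
      have h3 : Real.exp 16 ≤ Real.exp 17 := Real.exp_le_exp.2 (by norm_num)
      linarith
    refine ⟨{1, 2}, by simp, by simp, ?_⟩
    have h2 : ((({1, 2} : Finset ℤ).card : ℕ) : ℝ) = 2 := by norm_num
    have h3 : (big k {1, 2} : ℝ) ≤ (2 : ℝ) ^ k := by
      have := big_le_pow k {1, 2}
      have h4 : ((big k {1, 2} : ℕ) : ℝ) ≤ ((({1, 2} : Finset ℤ).card ^ k : ℕ) : ℝ) := by exact_mod_cast this
      push_cast at h4
      rwa [h2] at h4
    rw [h2]
    refine h3.trans_lt ?_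
    rw [← Real.rpow_natCast]
    exact Real.rpow_lt_rpow_of_exponent_lt (by norm_num) h1
  · set K := Real.log k with hKd
    set n := ⌈K⌉₊ with hn
    have hn16 : 16 ≤ n := by
      have : (16 : ℝ) ≤ n := hK.trans (Nat.le_ceil _)
      exact_mod_cast this
    have hk2 : 2 ≤ k := by
      by_contra hcon
      have : k = 1 := by omega
      rw [hKd, this] at hK
      simp at hK
      linarith
    obtain ⟨A, hA0, hAc, hA⟩ := upper' hn16 hk2
    have hAne : A.Nonempty := Finset.card_pos.1 (by omega)
    refine ⟨A, hAne, hA0, ?_⟩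
    rw [← big_cast, ← hKd] at hA
    refine hA.trans_lt ?_
    rw [hAc]
    have hn' : (16 : ℝ) ≤ n := by exact_mod_cast hn16
    refine Real.rpow_lt_rpow_of_exponent_lt (by linarith) ?_
    have hKn : K ≤ n := Nat.le_ceil _
    have hnK : (n : ℝ) ≤ K + 1 := (Nat.ceil_lt_add_one (by linarith)).le
    have hl2 : 2.77 ≤ Real.log n := by
      have h1 : Real.log 16 ≤ Real.log n := Real.log_le_log (by norm_num) hn'
      have h2 : Real.log 16 = 4 * Real.log 2 := by
        rw [show (16 : ℝ) = 2 ^ 4 by norm_num, Real.log_pow]
        norm_num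
      have := Real.log_two_gt_d9
      linarith
    have hℓ1 : 1 ≤ Real.log (Real.log n) := by
      rw [Real.le_log_iff_exp_le (by linarith)]
      have := Real.exp_one_lt_d9
      linarith
    -- loglog n ≤ √K
    have hsK : 4 ≤ Real.sqrt K := Real.le_sqrt_of_sq_le (by norm_num; linarith)
    have hsq : Real.sqrt K * Real.sqrt K = K := Real.mul_self_sqrt (by linarith)
    have hll : Real.log (Real.log n) ≤ Real.sqrt K := by
      have h1 : Real.log n ≤ 2 * Real.sqrt K := by
        have h2 : (n : ℝ) ≤ Real.sqrt K ^ 3 := by nlinarith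
        have h3 := Real.log_le_log (by linarith) h2
        rw [Real.log_pow] at h3
        -- 3 log √K ≤ 2 √K
        have h4 := Real.log_le_sub_one_of_pos (show 0 < Real.sqrt K / 2 by linarith)
        rw [Real.log_div (by linarith) (by norm_num)] at h4
        have := Real.log_two_lt_d9
        push_cast at h3
        linarith
      have h2 := Real.log_le_sub_one_of_pos (show 0 < Real.log n / 2 by linarith)
      rw [Real.log_div (by linarith) (by norm_num)] at h2
      have := Real.log_two_lt_d9
      linarith
    have hmax : max K (Real.log (Real.log n)) = K := max_eq_left (by nlinarith)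
    have hmin : min K (n : ℝ) = K := min_eq_left hKn
    rw [hmax, hmin]
    have hlogK : 2.77 ≤ Real.log K := by
      have h1 : Real.log 16 ≤ Real.log K := Real.log_le_log (by norm_num) hK
      have h2 : Real.log 16 = 4 * Real.log 2 := by
        rw [show (16 : ℝ) = 2 ^ 4 by norm_num, Real.log_pow]
        norm_num
      have := Real.log_two_gt_d9
      linarith
    have hΛ : Real.log K / 2 ≤ Real.log (2 + K / Real.log (Real.log n)) := by
      have h1 : Real.sqrt K ≤ 2 + K / Real.log (Real.log n) := by
        have h2 : Real.sqrt K ≤ K / Real.log (Real.log n) := by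
          rw [le_div_iff₀ (by linarith)]
          calc Real.sqrt K * Real.log (Real.log n) ≤ Real.sqrt K * Real.sqrt K :=
                mul_le_mul_of_nonneg_left hll (by linarith)
            _ = K := hsq
        linarith
      have h2 := Real.log_le_log (by linarith) h1
      rwa [Real.log_sqrt (by linarith)] at h2
    have h1 : K / Real.log (2 + K / Real.log (Real.log n)) ≤ 2 * (K / Real.log K) := by
      calc K / Real.log (2 + K / Real.log (Real.log n)) ≤ K / (Real.log K / 2) :=
            div_le_div_of_nonneg_left (by linarith) (by linarith) hΛ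
        _ = 2 * (K / Real.log K) := by field_simp
    -- K ≤ b log b / 2000
    have hKb : K ≤ b * Real.log b / 2000 := by
      have h2 := Real.log_le_log (by linarith) hk
      rw [Real.log_rpow hb0] at h2
      linarith
    have he : Real.exp 1 ≤ K := by
      have := Real.exp_one_lt_d9
      linarith
    have h2 := div_log_mono he hKb
    have hsb : 2000 ≤ Real.sqrt b := Real.le_sqrt_of_sq_le (by linarith)
    have hsqb : Real.sqrt b * Real.sqrt b = b := Real.mul_self_sqrt hb0.le
    have h3 : Real.log b / 2 ≤ Real.log (b * Real.log b / 2000) := by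
      have h4 : Real.sqrt b ≤ b * Real.log b / 2000 := by
        rw [le_div_iff₀ (by norm_num)]
        have h5 : Real.sqrt b * 2000 ≤ Real.sqrt b * Real.sqrt b :=
          mul_le_mul_of_nonneg_left hsb (by linarith)
        have h6 : b * 1 ≤ b * Real.log b := mul_le_mul_of_nonneg_left (by linarith) hb0.le
        linarith
      have h5 := Real.log_le_log (by linarith) h4
      rwa [Real.log_sqrt hb0.le] at h5
    have h4 : b * Real.log b / 2000 / Real.log (b * Real.log b / 2000) ≤ b / 1000 := by
      calc b * Real.log b / 2000 / Real.log (b * Real.log b / 2000)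
          ≤ b * Real.log b / 2000 / (Real.log b / 2) :=
            div_le_div_of_nonneg_left (by positivity) (by linarith) h3
        _ = b / 1000 := by field_simp; norm_num
    linarith

end Pool.Agent.X9.ES
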