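import Pool.Agent.X9.ES.Up

set_option autoImplicit false

/-!
# Boxes of exponents
-/

namespace Pool.Agent.X9.ES

open Finset

/-- the integer with given exponents -/
noncomputable def val (P : Finset ℕ) {L : ℕ} (e : P → Fin L) : ℕ := ∏ p : P, (p : ℕ) ^ ((e p : Fin L) : ℕ)

lemma val_fact {P : Finset ℕ} (hP : ∀ p ∈ P, p.Prime) {L : ℕ} (e : P → Fin L) (q : P) :
    (val P e).factorization q = e q := by
  unfold val
  rw [Nat.factorization_prod (S := Finset.univ) (g := fun p : P => (p : ℕ) ^ ((e p : Fin L) : ℕ))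
    (fun p _ => pow_ne_zero _ (hP p p.2).ne_zero)]
  rw [Finsupp.coe_finsetSum, Finset.sum_apply]
  rw [Finset.sum_eq_single q]
  · rw [Nat.factorization_pow, (hP q q.2).factorization]
    simp
  · intro p _ hpq
    rw [Nat.factorization_pow, (hP p p.2).factorization]
    have : (p : ℕ) ≠ q := fun h => hpq (Subtype.ext h)
    simp [this]
  · simp

lemma val_inj {P : Finset ℕ} (hP : ∀ p ∈ P, p.Prime) {L : ℕ} :
    Function.Injective (val P (L := L)) := by
  intro e f h
  funext q
  apply Fin.ext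
  rw [← val_fact hP e q, ← val_fact hP f q, h]

lemma box (P : Finset ℕ) (hP : ∀ p ∈ P, p.Prime) (m : ℕ) (hm : ∀ p ∈ P, p ≤ m) (L : ℕ) (hL : 1 ≤ L) :
    ∃ D : Finset ℤ, D.card = L ^ P.card ∧ (∀ a ∈ D, 0 < a ∧ a ≤ 4 ^ (m * (L - 1))) ∧
      ∀ k, (prods k D).card ≤ (k * (L - 1) + 1) ^ P.card := by
  classical
  refine ⟨(Finset.univ : Finset (P → Fin L)).image fun e => (val P e : ℤ), ?_, ?_, ?_⟩
  · rw [Finset.card_image_of_injective _ (fun e f h => val_inj hP (by exact_mod_cast h)),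
      Finset.card_univ, Fintype.card_fun, Fintype.card_fin, Fintype.card_coe]
  · intro a ha
    obtain ⟨e, -, rfl⟩ := Finset.mem_image.1 ha
    constructor
    · have : 0 < val P e := Finset.prod_pos fun p _ => pow_pos (hP p p.2).pos _
      exact_mod_cast this
    · have h1 : ∏ p ∈ P, p ≤ primorial m := by
        unfold primorial
        refine Finset.prod_le_prod_of_subset_of_one_le' ?_ ?_
        · intro p hp
          rw [Finset.mem_filter, Finset.mem_range]
          exact ⟨by have := hm p hp; omega, hP p hp⟩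
        · intro p hp _
          exact (Finset.mem_filter.1 hp).2.one_lt.le
      have h2 : val P e ≤ (∏ p ∈ P, p) ^ (L - 1) := by
        unfold val
        rw [← Finset.prod_pow, ← Finset.prod_coe_sort P (fun p => p ^ (L - 1))]
        refine Finset.prod_le_prod' fun p _ => Nat.pow_le_pow_right (hP p p.2).pos ?_
        have := (e p).2
        omega
      have h3 : val P e ≤ 4 ^ (m * (L - 1)) := by
        rw [pow_mul]
        exact h2.trans (Nat.pow_le_pow_left (h1.trans (primorial_le_four_pow m)) _)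
      exact_mod_cast h3
  · intro k
    have h1 : prods k ((Finset.univ : Finset (P → Fin L)).image fun e => (val P e : ℤ)) ⊆
        (Finset.univ : Finset (P → Fin (k * (L - 1) + 1))).image fun e => (val P e : ℤ) := by
      intro u hu
      unfold prods at hu
      obtain ⟨f, hf, rfl⟩ := Finset.mem_image.1 hu
      rw [Fintype.mem_piFinset] at hf
      have hT : ∀ i, ∃ e : P → Fin L, (val P e : ℤ) = f i := by
        intro i
        obtain ⟨T, hT, h⟩ := Finset.mem_image.1 (hf i)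
        exact ⟨T, h⟩
      choose T hTf using hT
      refine Finset.mem_image.2 ⟨fun p => ⟨∑ i, ((T i p : Fin L) : ℕ), ?_⟩, Finset.mem_univ _, ?_⟩
      · have : ∑ i : Fin k, ((T i p : Fin L) : ℕ) ≤ ∑ _i : Fin k, (L - 1) := by
          refine Finset.sum_le_sum fun i _ => ?_
          have := (T i p).2
          omega
        simp at this
        omega
      · have h3 : (∏ i, f i) = ((∏ i, val P (T i) : ℕ) : ℤ) := by
          push_cast
          exact Finset.prod_congr rfl fun i _ => (hTf i).symm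
        rw [h3]
        congr 1
        unfold val
        rw [Finset.prod_comm]
        refine Finset.prod_congr rfl fun p _ => ?_
        rw [Finset.prod_pow_eq_pow_sum]
    refine (Finset.card_le_card h1).trans (Finset.card_image_le.trans ?_)
    rw [Finset.card_univ, Fintype.card_fun, Fintype.card_fin, Fintype.card_coe]

lemma aux1 {k L : ℕ} (hk : 1 ≤ k) (hL : 1 ≤ L) : k * (L - 1) + 1 ≤ k * L := by
  obtain ⟨j, hj⟩ : ∃ j, L = j + 1 := ⟨L - 1, by omega⟩
  subst hj
  rw [Nat.add_sub_cancel, mul_add, mul_one]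
  omega

lemma aux2 {t l : ℝ} (hl : 2.77 ≤ l) (h : t * 0.69 ≤ 0.69 + l) : t + 2 ≤ l ^ 3 := by
  nlinarith [sq_nonneg l, sq_nonneg (l - 2)]

lemma aux3 {y L : ℝ} (hL : 2 ≤ L) (h : y < L - 1) : 2 + y ≤ L ^ 2 := by nlinarith

lemma aux4 {m t ℓ L1 X c : ℝ} (hm : m ≤ 25 * (t * ℓ)) (hL : 0 ≤ L1) (ht : 0 ≤ t) (h : ℓ * L1 ≤ 2 * X)
    (hX : 0 ≤ X) (hc : c ≤ 1.4) (hc0 : 0 ≤ c) : m * L1 * c ≤ 50 * (t * X) * 1.4 := by
  have h7 : m * L1 ≤ 50 * (t * X) := by
    calc m * L1 ≤ 25 * (t * ℓ) * L1 := mul_le_mul_of_nonneg_right hm hL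
      _ = 25 * t * (ℓ * L1) := by ring
      _ ≤ 25 * t * (2 * X) := mul_le_mul_of_nonneg_left h (by linarith)
      _ = _ := by ring
  exact mul_le_mul h7 hc hc0 (by positivity)

/-- the construction -/
theorem upper' {n k : ℕ} (hn : 16 ≤ n) (hk : 2 ≤ k) :
    ∃ A : Finset ℤ, (∀ a ∈ A, 0 < a) ∧ A.card = n ∧
      max ((sums k A).card : ℝ) ((prods k A).card : ℝ) ≤
        (n : ℝ) ^ (400 * (max (Real.log k) (Real.log (Real.log n)) /
          Real.log (2 + min (Real.log k) n / Real.log (Real.log n)))) := by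
  have hn' : (16 : ℝ) ≤ n := by exact_mod_cast hn
  have hn0 : (0 : ℝ) < n := by linarith
  have hk' : (2 : ℝ) ≤ k := by exact_mod_cast hk
  set l := Real.log n with hl
  set K := Real.log k with hK
  have hlog2a := Real.log_two_gt_d9
  have hlog2b := Real.log_two_lt_d9
  have hl2 : 2.77 ≤ l := by
    have h1 : Real.log 16 ≤ l := Real.log_le_log (by norm_num) hn'
    have h2 : Real.log 16 = 4 * Real.log 2 := by
      rw [show (16 : ℝ) = 2 ^ 4 by norm_num, Real.log_pow]
      norm_num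
    linarith
  have hK0 : 0.69 ≤ K := by
    have := Real.log_le_log (by norm_num) hk'
    linarith
  set ℓ := Real.log l with hℓ
  have hℓ1 : 1 ≤ ℓ := by
    rw [hℓ, Real.le_log_iff_exp_le (by linarith)]
    have := Real.exp_one_lt_d9
    linarith
  set X := max K ℓ with hX
  have hX1 : 1 ≤ X := hℓ1.trans (le_max_right _ _)
  have hX0 : 0 ≤ X := by linarith
  have hKX : K ≤ X := le_max_left _ _
  have hℓX : ℓ ≤ X := le_max_right _ _
  set M := min K (n : ℝ) with hM
  have hM0 : 0 < M := lt_min (by linarith) hn0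
  have hMK : M ≤ K := min_le_left _ _
  have hMn : M ≤ n := min_le_right _ _
  set y := M / ℓ with hy
  have hy0 : 0 < y := div_pos hM0 (by linarith)
  have hyl : y * ℓ = M := div_mul_cancel₀ _ (by linarith)
  set Λ := Real.log (2 + y) with hΛ
  have hΛ0 : 0.69 ≤ Λ := by
    have := Real.log_le_log (by norm_num) (show (2 : ℝ) ≤ 2 + y by linarith)
    linarith
  set L := 2 + ⌊y⌋₊ with hL
  have hL2 : 2 ≤ L := by omega
  have hLy : (L : ℝ) ≤ 2 + y := by
    rw [hL]; push_cast
    have := Nat.floor_le hy0.le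
    linarith
  have hyL : y < (L : ℝ) - 1 := by
    rw [hL]; push_cast
    have := Nat.lt_floor_add_one y
    linarith
  have hL2' : (2 : ℝ) ≤ L := by exact_mod_cast hL2
  set lam := Real.log L with hlam
  have hlam0 : 0.69 ≤ lam := by
    have := Real.log_le_log (by norm_num) hL2'
    linarith
  have hlamΛ : lam ≤ Λ := Real.log_le_log (by linarith) hLy
  have hΛlam : Λ ≤ 2 * lam := by
    have h1 : 2 + y ≤ (L : ℝ) ^ 2 := aux3 hL2' hyL
    have h2 := Real.log_le_log (by linarith) h1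
    rw [Real.log_pow] at h2
    simpa using h2
  -- Λ ≤ 1.1 l and Λ ≤ 2 X
  have hyn : y ≤ n := by
    have : y * 1 ≤ y * ℓ := mul_le_mul_of_nonneg_left hℓ1 hy0.le
    linarith
  have hΛl : Λ ≤ 1.1 * l := by
    have h1 : 2 + y ≤ n * (1 + 1 / 8) := by linarith
    have h2 := Real.log_le_log (by linarith) h1
    rw [Real.log_mul (by linarith) (by norm_num)] at h2
    have h3 : Real.log (1 + 1 / 8) ≤ 1 / 8 := by
      have := Real.log_le_sub_one_of_pos (show (0 : ℝ) < 1 + 1 / 8 by norm_num)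
      linarith
    linarith
  have hyX : y * 1 ≤ X := by
    have : y * 1 ≤ y * ℓ := mul_le_mul_of_nonneg_left hℓ1 hy0.le
    linarith
  have hΛX : Λ ≤ 2 * X := by
    have h1 := Real.log_le_sub_one_of_pos (show (0 : ℝ) < 2 + y by linarith)
    linarith
  -- the number of primes
  set t := Nat.clog L n with ht
  have ht1 : 1 ≤ t := Nat.clog_pos (by omega) (by omega)
  have hnt : n ≤ L ^ t := Nat.le_pow_clog (by omega) n
  have htn : L ^ (t - 1) < n := Nat.pow_pred_clog_lt_self (by omega) (by omega)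
  have htl : (t : ℝ) * lam ≤ l + lam := by
    have h2 : ((L : ℝ) ^ (t - 1)) ≤ n := by exact_mod_cast htn.le
    have h3 := Real.log_le_log (by positivity) h2
    rw [Real.log_pow, Nat.cast_sub ht1] at h3
    push_cast at h3
    linarith
  have htl2 : (t : ℝ) * lam ≤ 2.1 * l := by linarith
  have ht1' : (1 : ℝ) ≤ t := by exact_mod_cast ht1
  obtain ⟨P, hP, hPc⟩ := primes_exist t ht1
  set m := ⌈8 * (t : ℝ) * Real.log (t + 2)⌉₊ with hm
  obtain ⟨D, hD, hD2, hD3⟩ := box P (fun p hp => (hP p hp).1) m (fun p hp => (hP p hp).2) L (by omega)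
  rw [hPc] at hD hD3
  obtain ⟨A, hAD, hAc⟩ := Finset.exists_subset_card_eq (show n ≤ D.card by rw [hD]; exact hnt)
  refine ⟨A, fun a ha => (hD2 a (hAD ha)).1, hAc, ?_⟩
  have hrpow : (n : ℝ) ^ (400 * (X / Λ)) = Real.exp (l * (400 * (X / Λ))) := by
    rw [Real.rpow_def_of_pos hn0]
  have hm2 : (m : ℝ) ≤ 8 * (t : ℝ) * Real.log (t + 2) + 1 := (Nat.ceil_lt_add_one (by
    have : 0 ≤ Real.log ((t : ℝ) + 2) := Real.log_nonneg (by linarith [(Nat.cast_nonneg t : (0 : ℝ) ≤ t)])
    positivity)).le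
  have htl3 : (t : ℝ) * 0.69 ≤ 0.69 + l := by
    have : (t - 1 : ℝ) * 0.69 ≤ (t - 1) * lam := mul_le_mul_of_nonneg_left hlam0 (by linarith)
    linarith
  have hlog2 : Real.log ((t : ℝ) + 2) ≤ 3 * ℓ := by
    have h1 : (t : ℝ) + 2 ≤ l ^ 3 := aux2 hl2 htl3
    have h2 := Real.log_le_log (by positivity) h1
    rw [Real.log_pow] at h2
    simpa using h2
  have hlog0 : 0 ≤ Real.log ((t : ℝ) + 2) := Real.log_nonneg (by linarith [(Nat.cast_nonneg t : (0 : ℝ) ≤ t)])
  have hmb : (m : ℝ) ≤ 25 * (t * ℓ) := by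
    have h1 : (t : ℝ) * Real.log (t + 2) ≤ t * (3 * ℓ) := mul_le_mul_of_nonneg_left hlog2 (by linarith)
    have h2 : 1 ≤ (t : ℝ) * ℓ := one_le_mul_of_one_le_of_one_le ht1' hℓ1
    linarith
  -- the two quotients
  have hq : X / Λ * Λ = X := div_mul_cancel₀ _ (by linarith)
  have hq0 : 0 < X / Λ := div_pos (by linarith) (by linarith)
  have hq1 : 1 / 2 ≤ X / Λ := by
    rw [le_div_iff₀ (by linarith)]; linarith
  have htX : (t : ℝ) * X ≤ 4.2 * (l * (X / Λ)) := by
    -- t ≤ 2.1 l / lam ≤ 4.2 l / Λ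
    have h11 : (t : ℝ) * Λ ≤ t * (2 * lam) := mul_le_mul_of_nonneg_left hΛlam (by linarith)
    have h1 : (t : ℝ) * Λ ≤ 4.2 * l := by linarith
    calc (t : ℝ) * X = t * Λ * (X / Λ) := by rw [mul_assoc, mul_comm Λ, hq]
      _ ≤ 4.2 * l * (X / Λ) := mul_le_mul_of_nonneg_right h1 hq0.le
      _ = _ := by ring
  have hKl : K ≤ 1.1 * (l * (X / Λ)) := by
    calc K ≤ X := hKX
      _ = Λ * (X / Λ) := by rw [mul_comm, hq]
      _ ≤ 1.1 * l * (X / Λ) := mul_le_mul_of_nonneg_right hΛl hq0.le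
      _ = _ := by ring
  rw [hrpow]
  refine max_le ?_ ?_
  · have h1 : (sums k A).card ≤ k * 4 ^ (m * (L - 1)) := card_sums_le (by omega) (fun a ha => by
      have := hD2 a (hAD ha)
      push_cast
      exact this)
    have h2 : ((sums k A).card : ℝ) ≤ k * 4 ^ (m * (L - 1)) := by exact_mod_cast h1
    refine h2.trans ?_
    have h3 : (k : ℝ) = Real.exp K := (Real.exp_log (by linarith)).symm
    have h4 : (4 : ℝ) ^ (m * (L - 1)) = Real.exp (((m : ℝ) * (L - 1)) * Real.log 4) := by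
      rw [← Real.rpow_natCast, Real.rpow_def_of_pos (by norm_num), mul_comm]
      push_cast [Nat.cast_sub (show 1 ≤ L by omega)]
      ring_nf
    rw [h4, h3, ← Real.exp_add, Real.exp_le_exp]
    have h5 : Real.log 4 ≤ 1.4 := by
      have : Real.log 4 = 2 * Real.log 2 := by
        rw [show (4 : ℝ) = 2 ^ 2 by norm_num, Real.log_pow]
        norm_num
      linarith
    have h5' : 0 ≤ Real.log 4 := Real.log_nonneg (by norm_num)
    have h6 : ℓ * ((L : ℝ) - 1) ≤ 2 * X := by
      have h61 : ℓ * ((L : ℝ) - 1) ≤ ℓ * (1 + y) := mul_le_mul_of_nonneg_left (by linarith) (by linarith)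
      have h62 : ℓ * (1 + y) = ℓ + y * ℓ := by ring
      linarith
    have h8 : (m : ℝ) * (L - 1) * Real.log 4 ≤ 50 * (t * X) * 1.4 :=
      aux4 hmb (by linarith) (by linarith) h6 (by linarith) h5 h5'
    have h9 : 0 ≤ l * (X / Λ) := mul_nonneg (by linarith) hq0.le
    linarith
  · have h1 : (prods k A).card ≤ (k * (L - 1) + 1) ^ t := (Finset.card_le_card (prods_mono hAD)).trans (hD3 k)
    have h1' : k * (L - 1) + 1 ≤ k * L := aux1 (by omega) (by omega)
    have h2 : ((prods k A).card : ℝ) ≤ ((k : ℝ) * L) ^ t := by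
      exact_mod_cast h1.trans (Nat.pow_le_pow_left h1' _)
    refine h2.trans ?_
    have h4 : ((k : ℝ) * L) ^ t = Real.exp (t * (K + lam)) := by
      rw [← Real.rpow_natCast, Real.rpow_def_of_pos (by positivity), Real.log_mul (by linarith) (by linarith), mul_comm]
    rw [h4, Real.exp_le_exp]
    have h6 : (t : ℝ) * K ≤ t * X := mul_le_mul_of_nonneg_left hKX (by linarith)
    have h7 : l * (1 / 2) ≤ l * (X / Λ) := mul_le_mul_of_nonneg_left hq1 (by linarith)
    have h8 : 0 ≤ l * (X / Λ) := mul_nonneg (by linarith) hq0.le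
    have h9 : (t : ℝ) * (K + lam) = t * K + t * lam := by ring
    linarith

end Pool.Agent.X9.ES
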