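import Mathlib

set_option autoImplicit false

/-!
# Sets with few k-fold sums and few k-fold products
-/

namespace Pool.Agent.X9.ES

open Finset

/-- the `k`-fold sumset -/
def sums (k : ℕ) (A : Finset ℤ) : Finset ℤ := (Fintype.piFinset fun _ : Fin k => A).image fun f => ∑ i, f i

/-- the `k`-fold product set -/
def prods (k : ℕ) (A : Finset ℤ) : Finset ℤ := (Fintype.piFinset fun _ : Fin k => A).image fun f => ∏ i, f i

lemma sums_mono {k : ℕ} {A B : Finset ℤ} (h : A ⊆ B) : sums k A ⊆ sums k B :=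
  Finset.image_subset_image (Fintype.piFinset_subset _ _ fun _ => h)

lemma prods_mono {k : ℕ} {A B : Finset ℤ} (h : A ⊆ B) : prods k A ⊆ prods k B :=
  Finset.image_subset_image (Fintype.piFinset_subset _ _ fun _ => h)

/-- many primes up to `8 t log (t + 2)` -/
lemma primes_exist (t : ℕ) (ht : 1 ≤ t) :
    ∃ P : Finset ℕ, (∀ p ∈ P, p.Prime ∧ p ≤ ⌈8 * (t : ℝ) * Real.log (t + 2)⌉₊) ∧ P.card = t := by
  set m : ℕ := ⌈8 * (t : ℝ) * Real.log (t + 2)⌉₊ with hm
  have ht' : (1 : ℝ) ≤ t := by exact_mod_cast ht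
  set L := Real.log ((t : ℝ) + 2) with hL
  have hL1 : 1 ≤ L := by
    rw [hL, Real.le_log_iff_exp_le (by linarith)]
    have := Real.exp_one_lt_d9
    linarith
  have hLt : L ≤ t + 1 := by
    have := Real.log_le_sub_one_of_pos (show (0 : ℝ) < (t : ℝ) + 2 by linarith)
    rw [← hL] at this
    linarith
  have hm1 : 8 * (t : ℝ) * L ≤ m := Nat.le_ceil _
  have hm2 : (m : ℝ) < 8 * (t : ℝ) * L + 1 := Nat.ceil_lt_add_one (by positivity)
  have hm8 : (8 : ℝ) ≤ m := by nlinarith
  have hcount : t ≤ (Nat.primesBelow (m + 1)).card := by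
    by_contra hcon
    push Not at hcon
    have h1 := Chebyshev.psi_ge m
    have h2 := Chebyshev.psi_le_primeCounting_mul_log m
    have h3 : (Nat.primeCounting m : ℝ) ≤ (t : ℝ) - 1 := by
      have h4 : Nat.primeCounting m = (Nat.primesBelow (m + 1)).card := by
        rw [Nat.primesBelow_card_eq_primeCounting', Nat.primeCounting]
      rw [h4]
      have : (Nat.primesBelow (m + 1)).card + 1 ≤ t := hcon
      have h5 : (((Nat.primesBelow (m + 1)).card + 1 : ℕ) : ℝ) ≤ t := by exact_mod_cast this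
      push_cast at h5
      linarith
    have hlogm : 0 ≤ Real.log m := Real.log_nonneg (by linarith)
    have h6 : (Nat.primeCounting m : ℝ) * Real.log m ≤ ((t : ℝ) - 1) * Real.log m :=
      mul_le_mul_of_nonneg_right h3 hlogm
    have h7 : Real.log (m + 1) ≤ Real.log m + 1 := by
      have h8 : (m : ℝ) + 1 ≤ m * Real.exp 1 := by
        have := Real.add_one_le_exp (1 : ℝ)
        nlinarith
      calc Real.log ((m : ℝ) + 1) ≤ Real.log (m * Real.exp 1) := Real.log_le_log (by linarith) h8
        _ = Real.log m + 1 := by rw [Real.log_mul (by linarith) (Real.exp_ne_zero _), Real.log_exp]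
    -- m log 2 ≤ t log m + 1
    have h9 : m * Real.log 2 ≤ t * Real.log m + 1 := by nlinarith
    -- log m ≤ 3 + 2 L
    have h10 : Real.log m ≤ 2.2 + 2 * L := by
      have h11 : (m : ℝ) ≤ 9 * ((t : ℝ) + 2) ^ 2 := by nlinarith
      have h12 : Real.log m ≤ Real.log (9 * ((t : ℝ) + 2) ^ 2) := Real.log_le_log (by linarith) h11
      rw [Real.log_mul (by norm_num) (by positivity), Real.log_pow] at h12
      have h13 : Real.log 9 ≤ 2.2 := by
        have : (9 : ℝ) = 3 ^ 2 := by norm_num
        rw [this, Real.log_pow]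
        have := Real.log_three_lt_d9
        push_cast
        linarith
      push_cast at h12
      linarith
    have h14 : (0.69 : ℝ) ≤ Real.log 2 := by
      have := Real.log_two_gt_d9
      linarith
    have h15 : (0 : ℝ) ≤ 8 * (t : ℝ) * L := by positivity
    have h16 : 8 * (t : ℝ) * L * 0.69 ≤ m * Real.log 2 := mul_le_mul hm1 h14 (by norm_num) (by linarith)
    have h17 : (t : ℝ) * Real.log m ≤ t * (2.2 + 2 * L) := mul_le_mul_of_nonneg_left h10 (by linarith)
    nlinarith
  obtain ⟨P, hP, hPc⟩ := Finset.exists_subset_card_eq hcount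
  refine ⟨P, fun p hp => ?_, hPc⟩
  have := hP hp
  rw [Nat.mem_primesBelow] at this
  exact ⟨this.2, by omega⟩

/-- the set of the squarefree products of a set of primes -/
lemma boolean (P : Finset ℕ) (hP : ∀ p ∈ P, p.Prime) (m : ℕ) (hm : ∀ p ∈ P, p ≤ m) :
    ∃ D : Finset ℤ, D.card = 2 ^ P.card ∧ (∀ a ∈ D, 0 < a ∧ a ≤ 4 ^ m) ∧
      ∀ k, (prods k D).card ≤ (k + 1) ^ P.card := by
  classical
  refine ⟨P.powerset.image fun T => ((∏ p ∈ T, p : ℕ) : ℤ), ?_, ?_, ?_⟩
  · rw [Finset.card_image_of_injOn, Finset.card_powerset]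
    intro T hT U hU h
    have h1 : ∏ p ∈ T, p = ∏ p ∈ U, p := by
      have h' : ((∏ p ∈ T, p : ℕ) : ℤ) = ((∏ p ∈ U, p : ℕ) : ℤ) := h
      exact_mod_cast h'
    have hpf : ∀ V ∈ P.powerset, (∏ p ∈ V, p).primeFactors = V := by
      intro V hV
      exact Nat.primeFactors_prod fun p hp => hP p (Finset.mem_powerset.1 hV hp)
    rw [← hpf T hT, ← hpf U hU, h1]
  · intro a ha
    obtain ⟨T, hT, rfl⟩ := Finset.mem_image.1 ha
    rw [Finset.mem_powerset] at hT
    constructor
    · exact_mod_cast Finset.prod_pos fun p hp => (hP p (hT hp)).pos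
    · have h1 : ∏ p ∈ T, p ≤ primorial m := by
        unfold primorial
        refine Finset.prod_le_prod_of_subset_of_one_le' ?_ ?_
        · intro p hp
          rw [Finset.mem_filter, Finset.mem_range]
          exact ⟨by have := hm p (hT hp); omega, hP p (hT hp)⟩
        · intro p hp _
          exact (Finset.mem_filter.1 hp).2.one_lt.le
      exact_mod_cast h1.trans (primorial_le_four_pow m)
  · intro k
    -- the exponent vector
    have h1 : prods k (P.powerset.image fun T => ((∏ p ∈ T, p : ℕ) : ℤ)) ⊆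
        (Finset.univ : Finset (P → Fin (k + 1))).image fun e => ((∏ p : P, (p : ℕ) ^ ((e p : Fin (k + 1)) : ℕ) : ℕ) : ℤ) := by
      intro u hu
      unfold prods at hu
      obtain ⟨f, hf, rfl⟩ := Finset.mem_image.1 hu
      rw [Fintype.mem_piFinset] at hf
      have hT : ∀ i, ∃ T ⊆ P, ((∏ p ∈ T, p : ℕ) : ℤ) = f i := by
        intro i
        obtain ⟨T, hT, h⟩ := Finset.mem_image.1 (hf i)
        exact ⟨T, Finset.mem_powerset.1 hT, h⟩
      choose T hTP hTf using hT
      refine Finset.mem_image.2 ⟨fun p => ⟨(Finset.univ.filter fun i => (p : ℕ) ∈ T i).card, ?_⟩, Finset.mem_univ _, ?_⟩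
      · have := Finset.card_filter_le (Finset.univ : Finset (Fin k)) (fun i => (p : ℕ) ∈ T i)
        rw [Finset.card_univ, Fintype.card_fin] at this
        omega
      · simp only
        have h2 : ∀ i, (∏ p ∈ T i, p : ℕ) = ∏ p : P, if (p : ℕ) ∈ T i then (p : ℕ) else 1 := by
          intro i
          rw [Finset.prod_coe_sort P (fun p => if p ∈ T i then p else 1), Finset.prod_ite_mem,
            Finset.inter_eq_right.2 (hTP i)]
        have h3 : (∏ i, f i) = ((∏ i, ∏ p : P, (if (p : ℕ) ∈ T i then (p : ℕ) else 1) : ℕ) : ℤ) := by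
          push_cast
          refine Finset.prod_congr rfl fun i _ => ?_
          rw [← hTf i, h2 i]
          push_cast
          rfl
        rw [h3, Finset.prod_comm]
        congr 1
        refine Finset.prod_congr rfl fun p _ => ?_
        rw [Finset.prod_ite, Finset.prod_const, Finset.prod_const_one, mul_one]
    refine (Finset.card_le_card h1).trans (Finset.card_image_le.trans ?_)
    rw [Finset.card_univ, Fintype.card_fun, Fintype.card_fin, Fintype.card_coe]

lemma card_sums_le {k : ℕ} {A : Finset ℤ} {N : ℕ} (hk : 1 ≤ k) (h : ∀ a ∈ A, 0 < a ∧ a ≤ (N : ℤ)) :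
    (sums k A).card ≤ k * N := by
  have h1 : sums k A ⊆ Finset.Icc 1 ((k : ℤ) * N) := by
    intro u hu
    obtain ⟨f, hf, rfl⟩ := Finset.mem_image.1 hu
    rw [Fintype.mem_piFinset] at hf
    rw [Finset.mem_Icc]
    constructor
    · have : ∑ _i : Fin k, (1 : ℤ) ≤ ∑ i, f i := Finset.sum_le_sum fun i _ => (h _ (hf i)).1
      simp at this
      have hk' : (1 : ℤ) ≤ k := by exact_mod_cast hk
      linarith
    · have : ∑ i, f i ≤ ∑ _i : Fin k, (N : ℤ) := Finset.sum_le_sum fun i _ => (h _ (hf i)).2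
      simpa using this
  refine (Finset.card_le_card h1).trans ?_
  rw [Int.card_Icc]
  have : ((k : ℤ) * N + 1 - 1).toNat = k * N := by
    rw [add_sub_cancel_right]
    exact_mod_cast Int.toNat_natCast (k * N)
  rw [this]

/-- the construction -/
theorem upper {n k : ℕ} (hn : 16 ≤ n) (hk : 2 ≤ k) :
    ∃ A : Finset ℤ, (∀ a ∈ A, 0 < a) ∧ A.card = n ∧
      max ((sums k A).card : ℝ) ((prods k A).card : ℝ) ≤
        (n : ℝ) ^ (70 * max (Real.log k) (Real.log (Real.log n))) := by
  have hn' : (16 : ℝ) ≤ n := by exact_mod_cast hn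
  have hn0 : (0 : ℝ) < n := by linarith
  set l := Real.log n with hl
  have hl2 : 2.77 ≤ l := by
    have h1 : Real.log 16 ≤ l := Real.log_le_log (by norm_num) hn'
    have h2 : Real.log 16 = 4 * Real.log 2 := by
      rw [show (16 : ℝ) = 2 ^ 4 by norm_num, Real.log_pow]
      norm_num
    have := Real.log_two_gt_d9
    linarith
  have hll : 1 ≤ Real.log l := by
    rw [Real.le_log_iff_exp_le (by linarith)]
    have := Real.exp_one_lt_d9
    linarith
  set t := Nat.clog 2 n with ht
  have ht1 : 1 ≤ t := Nat.clog_pos (by norm_num) (by omega)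
  have hnt : n ≤ 2 ^ t := Nat.le_pow_clog (by norm_num) n
  have htn : 2 ^ (t - 1) < n := Nat.pow_pred_clog_lt_self (by norm_num) (by omega)
  have htl : (t : ℝ) ≤ 2 * l := by
    have h1 : ((t : ℝ) - 1) * Real.log 2 ≤ l := by
      have h2 : ((2 : ℝ) ^ (t - 1)) ≤ n := by exact_mod_cast htn.le
      have h3 := Real.log_le_log (by positivity) h2
      rw [Real.log_pow, Nat.cast_sub ht1] at h3
      simpa using h3
    have := Real.log_two_gt_d9
    have ht1' : (1 : ℝ) ≤ t := by exact_mod_cast ht1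
    nlinarith
  obtain ⟨P, hP, hPc⟩ := primes_exist t ht1
  set m := ⌈8 * (t : ℝ) * Real.log (t + 2)⌉₊ with hm
  obtain ⟨D, hD, hD2, hD3⟩ := boolean P (fun p hp => (hP p hp).1) m (fun p hp => (hP p hp).2)
  rw [hPc] at hD hD3
  obtain ⟨A, hAD, hAc⟩ := Finset.exists_subset_card_eq (show n ≤ D.card by rw [hD]; exact hnt)
  refine ⟨A, fun a ha => (hD2 a (hAD ha)).1, hAc, ?_⟩
  set X := max (Real.log k) (Real.log l) with hX
  have hX1 : 1 ≤ X := hll.trans (le_max_right _ _)
  have hkX : Real.log k ≤ X := le_max_left _ _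
  have hlX : Real.log l ≤ X := le_max_right _ _
  have hk' : (2 : ℝ) ≤ k := by exact_mod_cast hk
  have hrpow : (n : ℝ) ^ (70 * X) = Real.exp (l * (70 * X)) := by
    rw [Real.rpow_def_of_pos hn0]
  have hm2 : (m : ℝ) ≤ 8 * (t : ℝ) * Real.log (t + 2) + 1 := (Nat.ceil_lt_add_one (by
    have : 0 ≤ Real.log ((t : ℝ) + 2) := Real.log_nonneg (by linarith [(Nat.cast_nonneg t : (0 : ℝ) ≤ t)])
    positivity)).le
  have hlog2 : Real.log ((t : ℝ) + 2) ≤ 3 * Real.log l := by
    have h1 : (t : ℝ) + 2 ≤ l ^ 3 := by nlinarith [sq_nonneg l, sq_nonneg (l - 2)]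
    have h2 := Real.log_le_log (by positivity) h1
    rw [Real.log_pow] at h2
    simpa using h2
  have hlog0 : 0 ≤ Real.log ((t : ℝ) + 2) := Real.log_nonneg (by linarith [(Nat.cast_nonneg t : (0 : ℝ) ≤ t)])
  have hmb : (m : ℝ) ≤ 49 * (l * Real.log l) := by
    have h1 : (t : ℝ) * Real.log (t + 2) ≤ (2 * l) * (3 * Real.log l) :=
      mul_le_mul htl hlog2 hlog0 (by linarith)
    nlinarith
  rw [hrpow]
  refine max_le ?_ ?_
  · have h1 : (sums k A).card ≤ k * 4 ^ m := card_sums_le (by omega) (fun a ha => by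
      have := hD2 a (hAD ha)
      push_cast
      exact this)
    have h2 : ((sums k A).card : ℝ) ≤ k * 4 ^ m := by exact_mod_cast h1
    refine h2.trans ?_
    have h3 : (k : ℝ) = Real.exp (Real.log k) := (Real.exp_log (by linarith)).symm
    have h4 : (4 : ℝ) ^ m = Real.exp (m * Real.log 4) := by
      rw [← Real.rpow_natCast, Real.rpow_def_of_pos (by norm_num), mul_comm]
    rw [h4, h3, ← Real.exp_add, Real.exp_le_exp]
    have h5 : Real.log 4 ≤ 1.4 := by
      have : Real.log 4 = 2 * Real.log 2 := by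
        rw [show (4 : ℝ) = 2 ^ 2 by norm_num, Real.log_pow]
        norm_num
      have := Real.log_two_lt_d9
      linarith
    have h6 : (m : ℝ) * Real.log 4 ≤ 49 * (l * Real.log l) * 1.4 :=
      mul_le_mul hmb h5 (Real.log_nonneg (by norm_num)) (by positivity)
    have h7 : l * Real.log l ≤ l * X := mul_le_mul_of_nonneg_left hlX (by linarith)
    have h8 : X ≤ l * X := by nlinarith
    nlinarith
  · have h1 : (prods k A).card ≤ (k + 1) ^ t := (Finset.card_le_card (prods_mono hAD)).trans (hD3 k)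
    have h2 : ((prods k A).card : ℝ) ≤ ((k : ℝ) + 1) ^ t := by exact_mod_cast h1
    refine h2.trans ?_
    have h4 : ((k : ℝ) + 1) ^ t = Real.exp (t * Real.log (k + 1)) := by
      rw [← Real.rpow_natCast, Real.rpow_def_of_pos (by linarith), mul_comm]
    rw [h4, Real.exp_le_exp]
    have h5 : Real.log ((k : ℝ) + 1) ≤ 2 * Real.log k := by
      have h6 : (k : ℝ) + 1 ≤ k ^ 2 := by nlinarith
      have h7 := Real.log_le_log (by linarith) h6
      rw [Real.log_pow] at h7
      simpa using h7
    have h6 : 0 ≤ Real.log ((k : ℝ) + 1) := Real.log_nonneg (by linarith)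
    have h7 : (t : ℝ) * Real.log (k + 1) ≤ (2 * l) * (2 * X) :=
      mul_le_mul htl (h5.trans (by linarith)) h6 (by linarith)
    have h8 : 0 ≤ l * X := by positivity
    nlinarith

/-! ## monotonicity -/

lemma sums_succ {k : ℕ} {A : Finset ℤ} (hA : A.Nonempty) : (sums k A).card ≤ (sums (k + 1) A).card := by
  obtain ⟨a, ha⟩ := hA
  refine Finset.card_le_card_of_injOn (fun u => a + u) ?_ (fun u _ v _ h => by simpa using h)
  intro u hu
  obtain ⟨f, hf, rfl⟩ := Finset.mem_image.1 (Finset.mem_coe.1 hu)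
  rw [Fintype.mem_piFinset] at hf
  refine Finset.mem_coe.2 (Finset.mem_image.2 ⟨Fin.cons a f, ?_, ?_⟩)
  · rw [Fintype.mem_piFinset]
    intro i
    refine Fin.cases ?_ (fun j => ?_) i
    · simpa using ha
    · simpa using hf j
  · simp [Fin.sum_univ_succ]

lemma sums_le {k m : ℕ} (h : m ≤ k) {A : Finset ℤ} (hA : A.Nonempty) : (sums m A).card ≤ (sums k A).card := by
  induction k, h using Nat.le_induction with
  | base => exact le_rfl
  | succ k _ ih => exact ih.trans (sums_succ hA)

end Pool.Agent.X9.ES
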