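import Pool.Agent.X9.ES.Rankin
import Pool.Agent.X9.ES.Up

set_option autoImplicit false

/-!
# Lower bound for the product set of a set of polynomially bounded integers
-/

namespace Pool.Agent.X9.ES

open Finset Filter

lemma fibre_le {k z M X : ℕ} (hk : 1 ≤ k) (A : Finset ℤ)
    (hA : ∀ a ∈ A, a ≠ 0 ∧ a.natAbs ≤ X ∧ Om z a.natAbs ≤ M) (u : ℤ)
    (hu : u ∈ prods k A) :
    ((Fintype.piFinset fun _ : Fin k => A).filter fun f => ∏ i, f i = u).card ≤
      2 ^ k * (k ^ (k * M) * (Nat.log 2 (X ^ k) + 1) ^ (z * k)) := by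
  classical
  obtain ⟨g, hg, hgu⟩ := Finset.mem_image.1 hu
  rw [Fintype.mem_piFinset] at hg
  have hu0 : u.natAbs ≠ 0 := by
    rw [Int.natAbs_ne_zero, ← hgu]
    exact Finset.prod_ne_zero_iff.2 fun i _ => (hA _ (hg i)).1
  have hna : ∀ f : Fin k → ℤ, (∏ i, f i).natAbs = ∏ i, (f i).natAbs := fun f => by
    rw [← Int.natAbsHom_apply, map_prod]; rfl
  have huX : u.natAbs ≤ X ^ k := by
    rw [← hgu, hna]
    calc ∏ i, (g i).natAbs ≤ ∏ _i : Fin k, X := Finset.prod_le_prod' fun i _ => (hA _ (hg i)).2.1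
      _ = X ^ k := by simp
  have hOm : Om z u.natAbs ≤ k * M := by
    rw [← hgu, hna, Om_prod _ fun i => Int.natAbs_ne_zero.2 (hA _ (hg i)).1]
    calc ∑ i, Om z (g i).natAbs ≤ ∑ _i : Fin k, M := Finset.sum_le_sum fun i _ => (hA _ (hg i)).2.2
      _ = k * M := by simp
  have h1 : ((Fintype.piFinset fun _ : Fin k => A).filter fun f => ∏ i, f i = u).card ≤
      ((Finset.univ : Finset (Fin k → Bool)) ×ˢ Nat.finMulAntidiag k u.natAbs).card := by
    refine Finset.card_le_card_of_injOn (fun f => (fun i => decide (0 < f i), fun i => (f i).natAbs)) ?_ ?_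
    · intro f hf
      rw [Finset.mem_coe, Finset.mem_filter] at hf
      refine Finset.mem_coe.2 (Finset.mem_product.2 ⟨Finset.mem_univ _, ?_⟩)
      rw [Nat.mem_finMulAntidiag]
      refine ⟨?_, hu0⟩
      rw [← hna, hf.2]
    · intro f hf f' hf' h
      rw [Finset.mem_coe, Finset.mem_filter, Fintype.mem_piFinset] at hf hf'
      have h2 := congrArg Prod.fst h
      have h3 := congrArg Prod.snd h
      funext i
      have h4 : decide (0 < f i) = decide (0 < f' i) := congrFun h2 i
      have h5 : (f i).natAbs = (f' i).natAbs := congrFun h3 i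
      have h6 : (0 < f i) ↔ (0 < f' i) := by simpa using h4
      have h7 := (hA _ (hf.1 i)).1
      have h8 := (hA _ (hf'.1 i)).1
      omega
  refine h1.trans ?_
  rw [Finset.card_product]
  refine Nat.mul_le_mul ?_ ?_
  · simp
  · refine (fma_le (k := k) (z := z) _ u.natAbs hu0 rfl).trans ?_
    refine Nat.mul_le_mul (Nat.pow_le_pow_right hk hOm) (Nat.pow_le_pow_left ?_ _)
    have := Nat.log_mono_right (b := 2) huX
    omega

lemma lower_count {k z M X : ℕ} (hk : 1 ≤ k) (A : Finset ℤ)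
    (hA : ∀ a ∈ A, a ≠ 0 ∧ a.natAbs ≤ X ∧ Om z a.natAbs ≤ M) :
    A.card ^ k ≤ 2 ^ k * (k ^ (k * M) * (Nat.log 2 (X ^ k) + 1) ^ (z * k)) * (prods k A).card := by
  classical
  have h := Finset.card_le_mul_card_image (f := fun f : Fin k → ℤ => ∏ i, f i)
    (Fintype.piFinset fun _ : Fin k => A) _ (fun u hu => fibre_le hk A hA u hu)
  rw [Fintype.card_piFinset] at h
  simpa [prods] using h

lemma ev_log (a ε : ℝ) (ha : 0 < a) (hε : 0 < ε) : ∀ᶠ L : ℝ in atTop, Real.log L ≤ ε * L ^ a := by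
  have h := (isLittleO_log_rpow_atTop ha).bound hε
  filter_upwards [h, eventually_ge_atTop 1] with L hL h1
  rw [Real.norm_of_nonneg (Real.log_nonneg h1), Real.norm_of_nonneg (by positivity)] at hL
  exact hL

lemma ev_rpow (a b ε : ℝ) (hab : a < b) (hε : 0 < ε) : ∀ᶠ L : ℝ in atTop, L ^ a ≤ ε * L ^ b := by
  have h := (tendsto_rpow_neg_atTop (show 0 < b - a by linarith)).eventually (ge_mem_nhds (show (0:ℝ) < ε from hε))
  filter_upwards [h, eventually_gt_atTop 0] with L hL h0
  have h1 : L ^ a = L ^ (-(b - a)) * L ^ b := by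
    rw [← Real.rpow_add h0]; ring_nf
  rw [h1]
  exact mul_le_mul_of_nonneg_right hL (by positivity)

lemma ev_loglog : Tendsto (fun L : ℝ => Real.log L) atTop atTop := Real.tendsto_log_atTop

/-- the asymptotic inequality for the exceptional elements -/
lemma asym1 (κ δ₁ θ σ Zs : ℝ) (hθ0 : 0 < θ) (hθ : θ < 1) (hκ : 1 ≤ κ) (hδ : 0 < δ₁)
    (hc : 0 < 1 + (κ - 1 + δ₁) * θ - σ * κ) (hZ : 0 ≤ Zs) :
    ∀ᶠ L : ℝ in atTop, 3 + σ * κ * L + L ^ θ * Zs ≤
      L + (κ - 1 + δ₁) * (L / Real.log L) * (θ * Real.log L - 2) := by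
  set c := 1 + (κ - 1 + δ₁) * θ - σ * κ with hcd
  have h1 := ev_rpow θ 1 (c / (4 * (Zs + 1))) hθ (by positivity)
  have h2 := ev_loglog.eventually (eventually_ge_atTop (8 * (κ - 1 + δ₁) / c))
  filter_upwards [h1, h2, eventually_ge_atTop (12 / c), eventually_ge_atTop 3] with L h1 h2 h3 h4
  have hL0 : 0 < L := by linarith
  have hl1 : 1 ≤ Real.log L := by
    rw [Real.le_log_iff_exp_le hL0]
    have := Real.exp_one_lt_d9
    linarith
  have e1 : (κ - 1 + δ₁) * (L / Real.log L) * (θ * Real.log L - 2) =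
      (κ - 1 + δ₁) * θ * L - 2 * (κ - 1 + δ₁) * (L / Real.log L) := by
    field_simp
  rw [e1]
  rw [Real.rpow_one] at h1
  have h5 : L ^ θ * Zs ≤ c / 4 * L := by
    calc L ^ θ * Zs ≤ c / (4 * (Zs + 1)) * L * Zs := mul_le_mul_of_nonneg_right h1 hZ
      _ = c / 4 * L * (Zs / (Zs + 1)) := by field_simp
      _ ≤ c / 4 * L * 1 := by
        refine mul_le_mul_of_nonneg_left ?_ (by positivity)
        rw [div_le_one (by linarith)]; linarith
      _ = _ := mul_one _
  have h6 : 3 ≤ c / 4 * L := by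
    rw [div_le_iff₀ hc] at h3; linarith
  have h7 : 2 * (κ - 1 + δ₁) * (L / Real.log L) ≤ c / 4 * L := by
    rw [div_le_iff₀ hc] at h2
    have h8 : 0 < L / Real.log L := by positivity
    have h9 : L = Real.log L * (L / Real.log L) := by field_simp
    calc 2 * (κ - 1 + δ₁) * (L / Real.log L) ≤ Real.log L * c / 4 * (L / Real.log L) :=
          mul_le_mul_of_nonneg_right (by linarith) h8.le
      _ = c / 4 * (Real.log L * (L / Real.log L)) := by ring
      _ = c / 4 * L := by rw [← h9]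
  have h8 : 0 ≤ c / 4 * L := by positivity
  have h9 : c * L = L + (κ - 1 + δ₁) * θ * L - σ * κ * L := by rw [hcd]; ring
  linarith

/-- the asymptotic inequality for the number of factorisations -/
lemma asym2 (k κ θ δ : ℝ) (hk : 1 ≤ k) (hκ : 1 ≤ κ) (hθ : θ < 1) (hδ : 0 < δ) :
    ∀ᶠ L : ℝ in atTop, 2 * k + k * Real.log k + k * L ^ θ * Real.log (2 * k * κ * L + 1) ≤
      δ * (L / Real.log L) := by
  set a := (1 - θ) / 2 with ha
  have ha0 : 0 < a := by rw [ha]; linarith
  set ε := δ / (4 * k) with hε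
  have hε0 : 0 < ε := by positivity
  have h1 := ev_log a (Real.sqrt ε) ha0 (Real.sqrt_pos.2 hε0)
  have h2 := ev_log 1 (δ / (2 * (2 * k + k * Real.log k + 1))) one_pos (by
    have := Real.log_nonneg hk
    positivity)
  filter_upwards [h1, h2, eventually_ge_atTop (2 * k * κ + 1), eventually_ge_atTop 3] with L h1 h2 h3 h4
  have hL0 : 0 < L := by linarith
  have hlk := Real.log_nonneg hk
  have hl1 : 1 ≤ Real.log L := by
    rw [Real.le_log_iff_exp_le hL0]
    have := Real.exp_one_lt_d9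
    linarith
  have h5 : Real.log (2 * k * κ * L + 1) ≤ 2 * Real.log L := by
    have h6 : 2 * k * κ * L + 1 ≤ L ^ 2 := by nlinarith
    have h7 := Real.log_le_log (by positivity) h6
    rw [Real.log_pow] at h7
    simpa using h7
  rw [Real.rpow_one] at h2
  rw [mul_div_assoc', le_div_iff₀ (by linarith)]
  have h6 : (2 * k + k * Real.log k) * Real.log L ≤ δ / 2 * L := by
    have h7 : (2 * k + k * Real.log k + 1) * Real.log L ≤ δ / 2 * L := by
      calc (2 * k + k * Real.log k + 1) * Real.log L ≤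
            (2 * k + k * Real.log k + 1) * (δ / (2 * (2 * k + k * Real.log k + 1)) * L) :=
            mul_le_mul_of_nonneg_left h2 (by positivity)
        _ = δ / 2 * L := by
            have : 2 * k + k * Real.log k + 1 ≠ 0 := by positivity
            field_simp
    linarith
  have h7 : Real.log L ^ 2 ≤ ε * L ^ (1 - θ) := by
    calc Real.log L ^ 2 ≤ (Real.sqrt ε * L ^ a) ^ 2 := pow_le_pow_left₀ (by linarith) h1 2
      _ = ε * (L ^ a) ^ 2 := by rw [mul_pow, Real.sq_sqrt hε0.le]
      _ = ε * L ^ (1 - θ) := by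
          rw [← Real.rpow_natCast, ← Real.rpow_mul hL0.le, ha]
          norm_num
  have h8 : k * L ^ θ * Real.log (2 * k * κ * L + 1) * Real.log L ≤ δ / 2 * L := by
    calc k * L ^ θ * Real.log (2 * k * κ * L + 1) * Real.log L ≤ k * L ^ θ * (2 * Real.log L) * Real.log L := by
          refine mul_le_mul_of_nonneg_right (mul_le_mul_of_nonneg_left h5 (by positivity)) (by linarith)
      _ = 2 * k * L ^ θ * Real.log L ^ 2 := by ring
      _ ≤ 2 * k * L ^ θ * (ε * L ^ (1 - θ)) := mul_le_mul_of_nonneg_left h7 (by positivity)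
      _ = 2 * k * ε * (L ^ θ * L ^ (1 - θ)) := by ring
      _ = 2 * k * ε * L := by
          rw [← Real.rpow_add hL0]
          simp
      _ = δ / 2 * L := by
          rw [hε]; field_simp; norm_num
  linarith

end Pool.Agent.X9.ES
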