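import Pool.Agent.X9.ES.Dense

set_option autoImplicit false

namespace Pool.Agent.X9.ES

open Finset Filter

lemma Z_nonneg (σ : ℝ) : 0 ≤ Z σ := tsum_nonneg fun n => by positivity

lemma bad_card {A : Finset ℤ} {X M z : ℕ} (hA : ∀ a ∈ A, a.natAbs ≤ X) :
    (A.filter fun a => a = 0 ∨ M ≤ Om z a.natAbs).card ≤
      1 + 2 * ((Finset.Icc 1 X).filter fun n => M ≤ Om z n).card := by
  classical
  set B := (Finset.Icc 1 X).filter fun n => M ≤ Om z n with hB
  have h1 : (A.filter fun a => a = 0 ∨ M ≤ Om z a.natAbs) ⊆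
      {0} ∪ (B.image (fun n : ℕ => (n : ℤ)) ∪ B.image (fun n : ℕ => -(n : ℤ))) := by
    intro a ha
    obtain ⟨haA, ha2⟩ := Finset.mem_filter.1 ha
    rw [Finset.mem_union, Finset.mem_union, Finset.mem_singleton, Finset.mem_image, Finset.mem_image]
    rcases eq_or_ne a 0 with h0 | h0
    · exact Or.inl h0
    · right
      have h2 : M ≤ Om z a.natAbs := ha2.resolve_left h0
      have h3 : a.natAbs ∈ B := by
        rw [hB, Finset.mem_filter, Finset.mem_Icc]
        exact ⟨⟨Int.natAbs_pos.2 h0, hA a haA⟩, h2⟩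
      rcases le_total 0 a with h4 | h4
      · exact Or.inl ⟨_, h3, by omega⟩
      · exact Or.inr ⟨_, h3, by omega⟩
  refine (Finset.card_le_card h1).trans ((Finset.card_union_le _ _).trans ?_)
  have h2 := Finset.card_union_le (B.image (fun n : ℕ => (n : ℤ))) (B.image (fun n : ℕ => -(n : ℤ)))
  have h3 : (B.image (fun n : ℕ => (n : ℤ))).card ≤ B.card := Finset.card_image_le
  have h4 : (B.image (fun n : ℕ => -(n : ℤ))).card ≤ B.card := Finset.card_image_le
  rw [Finset.card_singleton]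
  omega

theorem dense_lower (k : ℕ) (hk : 1 ≤ k) (κ : ℝ) (hκ : 1 ≤ κ) (δ : ℝ) (hδ : 0 < δ) :
    ∃ n₀ : ℕ, ∀ A : Finset ℤ, n₀ ≤ A.card → (∀ a ∈ A, |(a : ℝ)| ≤ (A.card : ℝ) ^ κ) →
      (A.card : ℝ) ^ ((k : ℝ) - (k * (κ - 1) * Real.log k + δ) / Real.log (Real.log A.card)) ≤
        (prods k A).card := by
  classical
  have hk' : (1 : ℝ) ≤ k := by exact_mod_cast hk
  have hlk : 0 ≤ Real.log k := Real.log_nonneg hk'
  set δ₁ := δ / (2 * (k * Real.log k + 1)) with hδ₁
  have hδ₁0 : 0 < δ₁ := by positivity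
  have hδ₁k : k * Real.log k * δ₁ ≤ δ / 2 := by
    have e1 : δ / 2 = (k * Real.log k + 1) * δ₁ := by rw [hδ₁]; field_simp
    rw [e1]
    nlinarith
  set η := min (1 / 2) (δ₁ / (2 * (2 * κ + δ₁))) with hη
  have hη0 : 0 < η := by
    refine lt_min (by norm_num) ?_
    have : 0 < 2 * κ + δ₁ := by linarith
    positivity
  have hη2 : η ≤ 1 / 2 := min_le_left _ _
  have hη3 : η * (2 * κ + δ₁) ≤ δ₁ / 2 := by
    have h1 : η ≤ δ₁ / (2 * (2 * κ + δ₁)) := min_le_right _ _
    have h2 : 0 < 2 * κ + δ₁ := by linarith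
    rw [le_div_iff₀ (by linarith)] at h1
    linarith
  set θ := 1 - η with hθ
  set σ := 1 + η with hσ
  have hσ1 : 1 < σ := by linarith
  have hc : 0 < 1 + (κ - 1 + δ₁) * θ - σ * κ := by
    rw [hθ, hσ]
    nlinarith
  have hasym1 := asym1 κ δ₁ θ σ (Z σ) (by linarith) (by linarith) hκ hδ₁0 hc (Z_nonneg σ)
  have hasym2 := asym2 k κ θ (δ / 2) hk' hκ (by linarith) (by positivity)
  have hasym3 : ∀ᶠ L : ℝ in atTop, 4 ≤ L ^ θ :=
    (tendsto_rpow_atTop (show 0 < θ by linarith)).eventually (eventually_ge_atTop 4)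
  have hasym4 : ∀ᶠ L : ℝ in atTop, 4 ≤ Real.log L := ev_loglog.eventually (eventually_ge_atTop 4)
  have hall := (((hasym1.and hasym2).and hasym3).and hasym4).and (eventually_ge_atTop (3 : ℝ))
  have hn := (Real.tendsto_log_atTop.comp tendsto_natCast_atTop_atTop).eventually hall
  obtain ⟨n₀, hn₀⟩ := eventually_atTop.1 (hn.and (eventually_ge_atTop (16 : ℕ)))
  refine ⟨n₀, fun A hA hAκ => ?_⟩
  obtain ⟨⟨⟨⟨⟨h1, h2⟩, h3⟩, h4⟩, h5⟩, h16⟩ := hn₀ A.card hA
  simp only [Function.comp_apply] at h1 h2 h3 h4 h5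
  set n := A.card with hnd
  have hn' : (16 : ℝ) ≤ n := by exact_mod_cast h16
  have hn0 : (0 : ℝ) < n := by linarith
  set L := Real.log n with hL
  have hL0 : 0 < L := by linarith
  have hnL : (n : ℝ) = Real.exp L := (Real.exp_log hn0).symm
  set z := ⌊L ^ θ⌋₊ with hz
  have hz1 : (z : ℝ) ≤ L ^ θ := Nat.floor_le (by positivity)
  have hz2 : L ^ θ < z + 1 := Nat.lt_floor_add_one _
  set s : ℝ := z / 2 with hs
  have hs1 : 1 ≤ s := by rw [hs]; linarith
  have hlogs : θ * Real.log L - 2 ≤ Real.log s := by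
    have h6 : L ^ θ / 4 ≤ s := by rw [hs]; linarith
    have h7 := Real.log_le_log (by positivity) h6
    rw [Real.log_div (by positivity) (by norm_num), Real.log_rpow hL0] at h7
    have h8 : Real.log 4 ≤ 2 := by
      have : Real.log 4 = 2 * Real.log 2 := by
        rw [show (4 : ℝ) = 2 ^ 2 by norm_num, Real.log_pow]; norm_num
      have := Real.log_two_lt_d9
      linarith
    linarith
  have hℓ0 : 0 < Real.log L := by linarith
  have hθℓ : 0 ≤ θ * Real.log L - 2 := by
    have : 1 / 2 ≤ θ := by rw [hθ]; linarith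
    nlinarith
  set q := (κ - 1 + δ₁) * (L / Real.log L) with hq
  have hq0 : 0 ≤ q := by
    have : 0 ≤ κ - 1 + δ₁ := by linarith
    positivity
  set M := ⌈q⌉₊ with hM
  have hM1 : q ≤ M := Nat.le_ceil _
  have hM2 : (M : ℝ) ≤ q + 1 := (Nat.ceil_lt_add_one hq0).le
  set X := ⌊(n : ℝ) ^ κ⌋₊ with hX
  have hXκ : (X : ℝ) ≤ (n : ℝ) ^ κ := Nat.floor_le (Real.rpow_nonneg hn0.le _)
  have hX1 : 1 ≤ X := by
    refine Nat.le_floor ?_
    push_cast
    exact Real.one_le_rpow (by linarith) (by linarith)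
  have hX1' : (1 : ℝ) ≤ X := by exact_mod_cast hX1
  have hAX : ∀ a ∈ A, a.natAbs ≤ X := by
    intro a ha
    refine Nat.le_floor ?_
    have := hAκ a ha
    rwa [← Int.cast_abs, Int.abs_eq_natAbs, Int.cast_natCast] at this
  have hlogX : Real.log X ≤ κ * L := by
    have := Real.log_le_log (by linarith) hXκ
    rwa [Real.log_rpow hn0] at this
  -- the exceptional elements
  have hbad := bad_card (M := M) (z := z) hAX
  have hr := rankin (z := z) (s := s) hs1 (by rw [hs]; linarith) hσ1 X M hX1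
  have hr2 : (X : ℝ) ^ σ * Real.exp (2 * s * Z σ) / s ^ M ≤ n / 16 := by
    have e1 : (X : ℝ) ^ σ ≤ Real.exp (σ * κ * L) := by
      rw [Real.rpow_def_of_pos (by linarith), Real.exp_le_exp]
      nlinarith
    have e2 : Real.exp (2 * s * Z σ) ≤ Real.exp (L ^ θ * Z σ) := by
      rw [Real.exp_le_exp]
      refine mul_le_mul_of_nonneg_right ?_ (Z_nonneg σ)
      rw [hs]; linarith
    have e3 : Real.exp (q * (θ * Real.log L - 2)) ≤ s ^ M := by
      rw [← Real.rpow_natCast, Real.rpow_def_of_pos (by linarith), Real.exp_le_exp]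
      calc q * (θ * Real.log L - 2) ≤ M * Real.log s :=
            mul_le_mul hM1 hlogs hθℓ (by positivity)
        _ = _ := by ring
    rw [div_le_iff₀ (by positivity)]
    have e4 : (X : ℝ) ^ σ * Real.exp (2 * s * Z σ) ≤ Real.exp (σ * κ * L + L ^ θ * Z σ) := by
      rw [Real.exp_add]
      exact mul_le_mul e1 e2 (Real.exp_pos _).le (Real.exp_pos _).le
    have e5 : Real.exp (σ * κ * L + L ^ θ * Z σ) ≤ Real.exp (L - 3) * Real.exp (q * (θ * Real.log L - 2)) := by
      rw [← Real.exp_add, Real.exp_le_exp, hq]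
      linarith
    have e6 : Real.exp (L - 3) ≤ n / 16 := by
      rw [Real.exp_sub, ← hnL]
      have h9 : (16 : ℝ) ≤ Real.exp 3 := by
        have h10 : Real.exp 3 = Real.exp 1 ^ 3 := by rw [← Real.exp_nat_mul]; norm_num
        rw [h10]
        have h11 : (2.7 : ℝ) ≤ Real.exp 1 := by linarith [Real.exp_one_gt_d9]
        calc (16 : ℝ) ≤ 2.7 ^ 3 := by norm_num
          _ ≤ Real.exp 1 ^ 3 := pow_le_pow_left₀ (by norm_num) h11 3
      exact div_le_div_of_nonneg_left hn0.le (by norm_num) h9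
    calc (X : ℝ) ^ σ * Real.exp (2 * s * Z σ) ≤ _ := e4
      _ ≤ _ := e5
      _ ≤ n / 16 * s ^ M := mul_le_mul e6 e3 (Real.exp_pos _).le (by linarith)
  set B := A.filter fun a => ¬ (a = 0 ∨ M ≤ Om z a.natAbs) with hB
  have hBcard : (n : ℝ) / 2 ≤ B.card := by
    have h6 := Finset.card_filter_add_card_filter_not (s := A) (fun a => a = 0 ∨ M ≤ Om z a.natAbs)
    have h7 : ((A.filter fun a => a = 0 ∨ M ≤ Om z a.natAbs).card : ℝ) ≤
        1 + 2 * (((Finset.Icc 1 X).filter fun n => M ≤ Om z n).card : ℝ) := by exact_mod_cast hbad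
    have h8 : ((A.filter fun a => a = 0 ∨ M ≤ Om z a.natAbs).card : ℝ) + B.card = n := by
      exact_mod_cast h6
    have h9 := hr.trans hr2
    linarith
  have hBA : B ⊆ A := Finset.filter_subset _ _
  have hlc := lower_count (z := z) (M := M) (X := X) hk B (by
    intro a ha
    obtain ⟨h6, h7⟩ := Finset.mem_filter.1 ha
    push Not at h7
    exact ⟨h7.1, hAX a h6, h7.2.le⟩)
  have hlc' : ((B.card : ℝ)) ^ k ≤
      2 ^ k * ((k : ℝ) ^ (k * M) * ((Nat.log 2 (X ^ k) : ℝ) + 1) ^ (z * k)) * ((prods k B).card : ℝ) := by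
    exact_mod_cast hlc
  have hPB : ((prods k B).card : ℝ) ≤ (prods k A).card := by
    exact_mod_cast Finset.card_le_card (prods_mono hBA)
  have hPB0 : (0 : ℝ) ≤ (prods k B).card := Nat.cast_nonneg _
  -- logarithms
  have hlog2X : (Nat.log 2 (X ^ k) : ℝ) + 1 ≤ 2 * k * κ * L + 1 := by
    have h6 : (2 : ℝ) ^ (Nat.log 2 (X ^ k)) ≤ (X : ℝ) ^ k := by
      exact_mod_cast Nat.pow_log_le_self 2 (pow_ne_zero k (by omega))
    have h7 := Real.log_le_log (by positivity) h6
    rw [Real.log_pow, Real.log_pow] at h7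
    have h8 := Real.log_two_gt_d9
    have h9 : (0 : ℝ) ≤ Nat.log 2 (X ^ k) := by positivity
    have h10 : (k : ℝ) * Real.log X ≤ k * (κ * L) := mul_le_mul_of_nonneg_left hlogX (by linarith)
    nlinarith
  have hF : 2 ^ k * ((k : ℝ) ^ (k * M) * ((Nat.log 2 (X ^ k) : ℝ) + 1) ^ (z * k)) ≤
      Real.exp (k * Real.log 2 + (k * (q + 1) * Real.log k + k * L ^ θ * Real.log (2 * k * κ * L + 1))) := by
    rw [Real.exp_add, Real.exp_add]
    have g1 : (2 : ℝ) ^ k = Real.exp (k * Real.log 2) := by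
      rw [← Real.rpow_natCast, Real.rpow_def_of_pos (by norm_num), mul_comm]
    have g2 : (k : ℝ) ^ (k * M) ≤ Real.exp (k * (q + 1) * Real.log k) := by
      rw [← Real.rpow_natCast, Real.rpow_def_of_pos (by linarith), Real.exp_le_exp]
      push_cast
      have : (k : ℝ) * M ≤ k * (q + 1) := mul_le_mul_of_nonneg_left hM2 (by linarith)
      nlinarith
    have hpos : 0 ≤ Real.log (2 * k * κ * L + 1) := Real.log_nonneg (by
      have : 0 ≤ 2 * (k : ℝ) * κ * L := by positivity
      linarith)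
    have g3 : ((Nat.log 2 (X ^ k) : ℝ) + 1) ^ (z * k) ≤ Real.exp (k * L ^ θ * Real.log (2 * k * κ * L + 1)) := by
      calc ((Nat.log 2 (X ^ k) : ℝ) + 1) ^ (z * k) ≤ (2 * k * κ * L + 1) ^ (z * k) :=
            pow_le_pow_left₀ (by positivity) hlog2X _
        _ = Real.exp (((z * k : ℕ) : ℝ) * Real.log (2 * k * κ * L + 1)) := by
            rw [← Real.rpow_natCast, Real.rpow_def_of_pos (by positivity), mul_comm]
        _ ≤ _ := by
            rw [Real.exp_le_exp]
            push_cast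
            refine mul_le_mul_of_nonneg_right ?_ hpos
            nlinarith
    refine mul_le_mul g1.le (mul_le_mul g2 g3 (by positivity) (Real.exp_pos _).le) (by positivity) (Real.exp_pos _).le
  have hnk : Real.exp (k * L - k * Real.log 2) ≤ (B.card : ℝ) ^ k := by
    have h6 : ((n : ℝ) / 2) ^ k ≤ (B.card : ℝ) ^ k := pow_le_pow_left₀ (by linarith) hBcard k
    refine le_trans (le_of_eq ?_) h6
    rw [← Real.rpow_natCast, Real.rpow_def_of_pos (by linarith), Real.log_div (by linarith) (by norm_num)]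
    congr 1
    ring
  have hfin : Real.exp (k * L - k * Real.log 2) ≤
      Real.exp (k * Real.log 2 + (k * (q + 1) * Real.log k + k * L ^ θ * Real.log (2 * k * κ * L + 1))) *
        (prods k A).card := by
    refine hnk.trans (hlc'.trans ?_)
    exact mul_le_mul hF hPB hPB0 (Real.exp_pos _).le
  have hgoal : (n : ℝ) ^ ((k : ℝ) - (k * (κ - 1) * Real.log k + δ) / Real.log L) =
      Real.exp (k * L - (k * (κ - 1) * Real.log k + δ) * (L / Real.log L)) := by
    rw [Real.rpow_def_of_pos hn0, ← hL]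
    congr 1
    field_simp
  rw [hgoal]
  have h7 : Real.exp (k * L - (k * (κ - 1) * Real.log k + δ) * (L / Real.log L)) *
      Real.exp (k * Real.log 2 + (k * (q + 1) * Real.log k + k * L ^ θ * Real.log (2 * k * κ * L + 1))) ≤
      Real.exp (k * L - k * Real.log 2) := by
    rw [← Real.exp_add, Real.exp_le_exp]
    have hl2 := Real.log_two_lt_d9
    have g1 : (k : ℝ) * (q + 1) * Real.log k =
        k * (κ - 1) * Real.log k * (L / Real.log L) + k * Real.log k * δ₁ * (L / Real.log L) + k * Real.log k := by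
      rw [hq]; ring
    have g2 : k * Real.log k * δ₁ * (L / Real.log L) ≤ δ / 2 * (L / Real.log L) :=
      mul_le_mul_of_nonneg_right hδ₁k (by positivity)
    have g3 : (k : ℝ) * Real.log 2 ≤ k * 1 := mul_le_mul_of_nonneg_left (by linarith) (by linarith)
    linarith
  have h8 := h7.trans hfin
  rw [mul_comm] at h8
  exact le_of_mul_le_mul_left h8 (Real.exp_pos _)

end Pool.Agent.X9.ES
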