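import Pool.Agent.X9.ES.DenseUp
import Pool.Agent.X9.ES.DenseLow

set_option autoImplicit false

namespace Pool.Agent.X9.ES

open Finset Filter

/-- few sums and few products -/
theorem both_upper (k : ℕ) (hk : 2 ≤ k) (δ : ℝ) (hδ : 0 < δ) :
    ∃ n₀ : ℕ, ∀ n : ℕ, n₀ ≤ n → ∃ A : Finset ℤ, A.card = n ∧
      (∀ a ∈ A, 0 < a ∧ (a : ℝ) ≤ (n : ℝ) ^ (k : ℝ)) ∧
      max ((sums k A).card : ℝ) ((prods k A).card : ℝ) ≤
        (n : ℝ) ^ ((k : ℝ) - (k * (k - 1) * Real.log k - δ) / Real.log (Real.log n)) := by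
  have hk' : (2 : ℝ) ≤ k := by exact_mod_cast hk
  have hlk : 0 < Real.log k := Real.log_pos (by linarith)
  set δ₃ := min (1 / 2) (δ / (2 * (k * Real.log k))) with hδ₃
  have hδ₃0 : 0 < δ₃ := lt_min (by norm_num) (by positivity)
  have hδ₃1 : δ₃ ≤ 1 / 2 := min_le_left _ _
  have hδ₃2 : k * Real.log k * δ₃ ≤ δ / 2 := by
    have h1 : δ₃ ≤ δ / (2 * (k * Real.log k)) := min_le_right _ _
    calc k * Real.log k * δ₃ ≤ k * Real.log k * (δ / (2 * (k * Real.log k))) :=
          mul_le_mul_of_nonneg_left h1 (by positivity)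
      _ = δ / 2 := by field_simp
  obtain ⟨n₁, h1⟩ := dense_upper k (by omega) (k - δ₃) (by linarith) (δ / 2) (by positivity)
  -- the sums
  have A1 : ∀ᶠ L : ℝ in atTop, 2 * Real.log k ≤ δ₃ * L := by
    filter_upwards [eventually_ge_atTop (2 * Real.log k / δ₃)] with L hL
    rw [div_le_iff₀ hδ₃0] at hL
    linarith
  have A20 : ∀ᶠ x : ℝ in atTop, 2 * (k * (k - 1) * Real.log k) ≤ δ₃ * x := by
    filter_upwards [eventually_ge_atTop (2 * (k * (k - 1) * Real.log k) / δ₃)] with L hL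
    rw [div_le_iff₀ hδ₃0] at hL
    linarith
  have A2 : ∀ᶠ L : ℝ in atTop, 2 * (k * (k - 1) * Real.log k) ≤ δ₃ * Real.log L :=
    ev_loglog.eventually A20
  have hn := (Real.tendsto_log_atTop.comp tendsto_natCast_atTop_atTop).eventually
    ((A1.and A2).and (eventually_ge_atTop (3 : ℝ)))
  obtain ⟨n₂, hn₂⟩ := eventually_atTop.1 (hn.and (eventually_ge_atTop (16 : ℕ)))
  refine ⟨max n₁ n₂, fun n hnn => ?_⟩
  obtain ⟨A, hA1, hA2, hA3⟩ := h1 n ((le_max_left _ _).trans hnn)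
  obtain ⟨⟨⟨g1, g2⟩, g3⟩, h16⟩ := hn₂ n ((le_max_right _ _).trans hnn)
  simp only [Function.comp_apply] at g1 g2 g3
  have hn' : (16 : ℝ) ≤ n := by exact_mod_cast h16
  have hn0 : (0 : ℝ) < n := by linarith
  set L := Real.log n with hL
  have hL0 : 0 < L := by linarith
  have hℓ1 : 1 ≤ Real.log L := by
    rw [Real.le_log_iff_exp_le hL0]
    have := Real.exp_one_lt_d9
    linarith
  refine ⟨A, hA1, fun a ha => ⟨(hA2 a ha).1, (hA2 a ha).2.trans ?_⟩, max_le ?_ ?_⟩
  · exact Real.rpow_le_rpow_of_exponent_le (by linarith) (by linarith)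
  · set N := ⌊(n : ℝ) ^ ((k : ℝ) - δ₃)⌋₊ with hN
    have hN1 : (N : ℝ) ≤ (n : ℝ) ^ ((k : ℝ) - δ₃) := Nat.floor_le (Real.rpow_nonneg hn0.le _)
    have h2 : (sums k A).card ≤ k * N := card_sums_le (by omega) (fun a ha => by
      refine ⟨(hA2 a ha).1, ?_⟩
      have h3 := (hA2 a ha).2
      have h4 : (a.toNat : ℝ) = a := by
        have : ((a.toNat : ℤ) : ℝ) = (a : ℝ) := by rw [Int.toNat_of_nonneg (hA2 a ha).1.le]
        exact_mod_cast this
      rw [← h4] at h3
      have h5 : a.toNat ≤ N := Nat.le_floor h3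
      have := Int.self_le_toNat a
      omega)
    have h3 : ((sums k A).card : ℝ) ≤ k * (n : ℝ) ^ ((k : ℝ) - δ₃) := by
      have h4 : ((sums k A).card : ℝ) ≤ k * N := by exact_mod_cast h2
      exact h4.trans (mul_le_mul_of_nonneg_left hN1 (by linarith))
    refine h3.trans ?_
    have e1 : (k : ℝ) * (n : ℝ) ^ ((k : ℝ) - δ₃) = Real.exp (Real.log k + ((k : ℝ) - δ₃) * L) := by
      rw [Real.exp_add, Real.exp_log (by linarith), Real.rpow_def_of_pos hn0, ← hL, mul_comm L]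
    have e2 : (n : ℝ) ^ ((k : ℝ) - (k * (k - 1) * Real.log k - δ) / Real.log L) =
        Real.exp (((k : ℝ) - (k * (k - 1) * Real.log k - δ) / Real.log L) * L) := by
      rw [Real.rpow_def_of_pos hn0, ← hL, mul_comm L]
    rw [e1, e2, Real.exp_le_exp]
    have h5 : (k * (k - 1) * Real.log k - δ) / Real.log L ≤ δ₃ / 2 := by
      rw [div_le_iff₀ (by linarith)]
      linarith
    have h6 : (k * (k - 1) * Real.log k - δ) / Real.log L * L ≤ δ₃ / 2 * L :=
      mul_le_mul_of_nonneg_right h5 hL0.le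
    nlinarith
  · refine hA3.trans (Real.rpow_le_rpow_of_exponent_le (by linarith) ?_)
    have h2 : k * (k - 1) * Real.log k - δ ≤ k * ((k : ℝ) - δ₃ - 1) * Real.log k - δ / 2 := by
      have e1 : (k : ℝ) * ((k : ℝ) - δ₃ - 1) * Real.log k = k * (k - 1) * Real.log k - k * Real.log k * δ₃ := by ring
      rw [e1]
      linarith
    have h3 := div_le_div_of_nonneg_right h2 (show 0 ≤ Real.log L by linarith)
    linarith

end Pool.Agent.X9.ES
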