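import Pool.Agent.X9.ES.Slice
import Pool.Agent.X9.ES.Dense

set_option autoImplicit false

namespace Pool.Agent.X9.ES

open Finset Filter

/-- the size of the primes -/
lemma asymY (τ ε : ℝ) (hτ : 0 < τ) (hε : 0 < ε) :
    ∀ᶠ L : ℝ in atTop, 8 * (L ^ τ + 1) * Real.log (L ^ τ + 1 + 2) + 2 ≤ L ^ (τ + ε) := by
  have h1 := ev_log ε (1 / (32 * (τ + 1))) hε (by positivity)
  have h2 := (tendsto_rpow_atTop hτ).eventually (eventually_ge_atTop (4 : ℝ))
  have h3 := (tendsto_rpow_atTop (show 0 < τ + ε by linarith)).eventually (eventually_ge_atTop (4 : ℝ))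
  filter_upwards [h1, h2, h3, ev_loglog.eventually (eventually_ge_atTop (2 : ℝ)), eventually_ge_atTop (3 : ℝ)]
    with L h1 h2 h3 h4 h5
  have hL0 : 0 < L := by linarith
  have h6 : Real.log (L ^ τ + 1 + 2) ≤ (τ + 1) * Real.log L := by
    have h7 : Real.log (L ^ τ + 1 + 2) ≤ Real.log (2 * L ^ τ) := Real.log_le_log (by positivity) (by linarith)
    rw [Real.log_mul (by norm_num) (by positivity), Real.log_rpow hL0] at h7
    have := Real.log_two_lt_d9
    linarith
  have h7 : 8 * (L ^ τ + 1) * Real.log (L ^ τ + 1 + 2) ≤ 8 * (2 * L ^ τ) * ((τ + 1) * Real.log L) := by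
    refine mul_le_mul (by linarith) h6 (Real.log_nonneg (by linarith)) (by positivity)
  have h8 : 8 * (2 * L ^ τ) * ((τ + 1) * Real.log L) ≤ L ^ (τ + ε) / 2 := by
    rw [Real.rpow_add hL0]
    have h9 : (τ + 1) * Real.log L ≤ L ^ ε / 32 := by
      calc (τ + 1) * Real.log L ≤ (τ + 1) * (1 / (32 * (τ + 1)) * L ^ ε) :=
            mul_le_mul_of_nonneg_left h1 (by linarith)
        _ = L ^ ε / 32 := by field_simp
    calc 8 * (2 * L ^ τ) * ((τ + 1) * Real.log L) ≤ 8 * (2 * L ^ τ) * (L ^ ε / 32) :=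
          mul_le_mul_of_nonneg_left h9 (by positivity)
      _ = _ := by ring
  linarith

/-- the size of the elements -/
lemma asym3 (σ τ' κ : ℝ) (hσ : 0 < σ) (hτ : 0 < τ') (hκ : τ' / σ < κ) :
    ∀ᶠ L : ℝ in atTop, 0 < σ * Real.log L - 1 ∧ (1 + L / (σ * Real.log L - 1)) * (τ' * Real.log L) ≤ κ * L := by
  set c := κ - τ' / σ with hc
  have hc0 : 0 < c := by linarith
  have h1 := ev_log 1 (c / (2 * τ')) one_pos (by positivity)
  have h2 := ev_loglog.eventually (eventually_ge_atTop (2 / σ + 4 * τ' / (σ ^ 2 * c)))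
  filter_upwards [h1, h2, eventually_ge_atTop (3 : ℝ)] with L h1 h2 h3
  have hL0 : 0 < L := by linarith
  have hl0 : 0 < Real.log L := Real.log_pos (by linarith)
  have h4 : 2 + 4 * τ' / (σ * c) ≤ σ * Real.log L := by
    calc 2 + 4 * τ' / (σ * c) = σ * (2 / σ + 4 * τ' / (σ ^ 2 * c)) := by field_simp
      _ ≤ _ := mul_le_mul_of_nonneg_left h2 hσ.le
  have h5 : 0 < 4 * τ' / (σ * c) := by positivity
  have h6 : 0 < σ * Real.log L - 1 := by linarith
  refine ⟨h6, ?_⟩
  rw [Real.rpow_one] at h1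
  -- τ' log L ≤ c/2 L
  have h7 : τ' * Real.log L ≤ c / 2 * L := by
    calc τ' * Real.log L ≤ τ' * (c / (2 * τ') * L) := mul_le_mul_of_nonneg_left h1 hτ.le
      _ = c / 2 * L := by field_simp
  -- L/(σ ℓ - 1) τ' ℓ ≤ (τ'/σ + c/2) L
  have h8 : L / (σ * Real.log L - 1) * (τ' * Real.log L) ≤ (τ' / σ + c / 2) * L := by
    rw [div_mul_eq_mul_div, div_le_iff₀ h6]
    have h9 : τ' * Real.log L ≤ (τ' / σ + c / 2) * (σ * Real.log L - 1) := by
      have e1 : (τ' / σ + c / 2) * (σ * Real.log L - 1) =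
          τ' * Real.log L + (c / 2 * (σ * Real.log L - 1) - τ' / σ) := by field_simp; ring
      rw [e1]
      have h10 : τ' / σ ≤ c / 2 * (σ * Real.log L - 1) := by
        have h11 : 4 * τ' / (σ * c) ≤ σ * Real.log L - 1 := by linarith
        calc τ' / σ ≤ c / 2 * (4 * τ' / (σ * c)) := by
              have : c / 2 * (4 * τ' / (σ * c)) = 2 * (τ' / σ) := by field_simp; norm_num
              rw [this]
              have : 0 < τ' / σ := by positivity
              linarith
          _ ≤ _ := mul_le_mul_of_nonneg_left h11 (by positivity)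
      linarith
    calc L * (τ' * Real.log L) ≤ L * ((τ' / σ + c / 2) * (σ * Real.log L - 1)) :=
          mul_le_mul_of_nonneg_left h9 hL0.le
      _ = _ := by ring
  have e2 : κ * L = c / 2 * L + (τ' / σ + c / 2) * L := by rw [hc]; ring
  rw [e2, add_mul, one_mul]
  linarith

/-- the final inequality -/
lemma asym4 (k κ δ δ₂ σ τ : ℝ) (hk : 1 ≤ k) (hδ : 0 < δ) (hδ₂ : 0 < δ₂) (hσ : 0 < σ)
    (hσκ : 1 / σ = κ - 1 - δ₂) (hδσ : δ₂ < 1 / σ) (hw : k * Real.log k * δ₂ ≤ δ / 4) (hτ : 1 < τ) :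
    ∀ᶠ L : ℝ in atTop, (k * (κ - 1) * Real.log k - δ) * (L / Real.log L) + k * (Real.log L + 2) +
        k * (τ * Real.log L + 1) + 8 * k * (k + 1) * L ^ (2 - τ) ≤
      k * Real.log k * (L / (σ * Real.log L + 2 + Real.log (τ * Real.log L + 1))) := by
  have hw0 : 0 ≤ k * Real.log k := mul_nonneg (by linarith) (Real.log_nonneg hk)
  set w := k * Real.log k with hwd
  -- (i) log ℓ small
  have g1 : ∀ᶠ x : ℝ in atTop, (1 / σ - δ₂) * (2 + Real.log (τ * x + 1)) ≤ δ₂ * σ * x := by
    have hb : 0 < 1 / σ - δ₂ := by linarith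
    have g2 := ev_log 1 (δ₂ * σ / (4 * (1 / σ - δ₂))) one_pos (by positivity)
    filter_upwards [g2, eventually_ge_atTop (τ + 1),
      eventually_ge_atTop (4 * (1 / σ - δ₂) / (δ₂ * σ))] with x h1 h2 h3
    rw [Real.rpow_one] at h1
    have hx : 0 < x := by linarith
    have h4 : Real.log (τ * x + 1) ≤ 2 * Real.log x := by
      have h5 : τ * x + 1 ≤ x ^ 2 := by nlinarith
      have h6 := Real.log_le_log (by positivity) h5
      rw [Real.log_pow] at h6
      simpa using h6
    rw [div_le_iff₀ (by positivity)] at h3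
    have h5 : (1 / σ - δ₂) * (2 * Real.log x) ≤ δ₂ * σ * x / 2 := by
      calc (1 / σ - δ₂) * (2 * Real.log x) ≤ (1 / σ - δ₂) * (2 * (δ₂ * σ / (4 * (1 / σ - δ₂)) * x)) :=
            mul_le_mul_of_nonneg_left (by linarith) hb.le
        _ = δ₂ * σ * x / 2 := by
            generalize 1 / σ - δ₂ = b at hb
            field_simp
            norm_num
    have h6 : (1 / σ - δ₂) * (2 + Real.log (τ * x + 1)) ≤ (1 / σ - δ₂) * (2 + 2 * Real.log x) :=
      mul_le_mul_of_nonneg_left (by linarith) hb.le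
    linarith
  have h1 := ev_loglog.eventually g1
  have h2 := ev_log (1 / 2) (Real.sqrt (δ / (8 * (k * (τ + 5))))) (by norm_num) (by positivity)
  have h3 := ev_log (τ - 1) (δ / (64 * k * (k + 1))) (by linarith) (by positivity)
  filter_upwards [h1, h2, h3, eventually_ge_atTop (3 : ℝ)] with L h1 h2 h3 h4
  have hL0 : 0 < L := by linarith
  have hl1 : 1 ≤ Real.log L := by
    rw [Real.le_log_iff_exp_le hL0]
    have := Real.exp_one_lt_d9
    linarith
  have hl0 : 0 < Real.log L := by linarith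
  have hD : 0 < σ * Real.log L + 2 + Real.log (τ * Real.log L + 1) := by
    have : 0 ≤ Real.log (τ * Real.log L + 1) := Real.log_nonneg (by nlinarith)
    have : 0 < σ * Real.log L := by positivity
    linarith
  have h5 : (1 / σ - δ₂) * (L / Real.log L) ≤ L / (σ * Real.log L + 2 + Real.log (τ * Real.log L + 1)) := by
    rw [le_div_iff₀ hD, mul_assoc, div_mul_eq_mul_div, mul_div_assoc', div_le_iff₀ hl0]
    have e1 : (1 / σ - δ₂) * (L * (σ * Real.log L + 2 + Real.log (τ * Real.log L + 1))) =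
        L * (Real.log L + ((1 / σ - δ₂) * (2 + Real.log (τ * Real.log L + 1)) - δ₂ * σ * Real.log L)) := by
      field_simp
      ring
    rw [e1]
    refine mul_le_mul_of_nonneg_left ?_ hL0.le
    linarith
  have h6 := mul_le_mul_of_nonneg_left h5 hw0
  refine le_trans ?_ h6
  have hLl : 0 < L / Real.log L := by positivity
  -- the remainder
  have h7 : Real.log L ^ 2 ≤ δ / (8 * (k * (τ + 5))) * L := by
    calc Real.log L ^ 2 ≤ (Real.sqrt (δ / (8 * (k * (τ + 5)))) * L ^ ((1 : ℝ) / 2)) ^ 2 :=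
          pow_le_pow_left₀ (by linarith) h2 2
      _ = δ / (8 * (k * (τ + 5))) * L := by
          rw [mul_pow, Real.sq_sqrt (by positivity), ← Real.rpow_natCast, ← Real.rpow_mul hL0.le]
          norm_num
  have h8 : k * (Real.log L + 2) + k * (τ * Real.log L + 1) ≤ δ / 8 * (L / Real.log L) := by
    rw [mul_div_assoc', le_div_iff₀ hl0]
    have h9 : k * (τ + 5) * Real.log L ^ 2 ≤ δ / 8 * L := by
      calc k * (τ + 5) * Real.log L ^ 2 ≤ k * (τ + 5) * (δ / (8 * (k * (τ + 5))) * L) :=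
            mul_le_mul_of_nonneg_left h7 (by positivity)
        _ = δ / 8 * L := by field_simp
    have h10 : (k * (Real.log L + 2) + k * (τ * Real.log L + 1)) ≤ k * (τ + 5) * Real.log L := by
      nlinarith
    have h11 := mul_le_mul_of_nonneg_right h10 hl0.le
    nlinarith
  have h9 : 8 * k * (k + 1) * L ^ (2 - τ) ≤ δ / 8 * (L / Real.log L) := by
    rw [mul_div_assoc', le_div_iff₀ hl0]
    calc 8 * k * (k + 1) * L ^ (2 - τ) * Real.log L ≤
          8 * k * (k + 1) * L ^ (2 - τ) * (δ / (64 * k * (k + 1)) * L ^ (τ - 1)) :=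
          mul_le_mul_of_nonneg_left h3 (by positivity)
      _ = 8 * k * (k + 1) * (δ / (64 * k * (k + 1))) * (L ^ (2 - τ) * L ^ (τ - 1)) := by ring
      _ = δ / 8 * L := by
          rw [← Real.rpow_add hL0]
          have : 2 - τ + (τ - 1) = 1 := by ring
          rw [this, Real.rpow_one]
          field_simp
          norm_num
  have e2 : w * ((1 / σ - δ₂) * (L / Real.log L)) = (w * (κ - 1) - 2 * (w * δ₂)) * (L / Real.log L) := by
    rw [hσκ]; ring
  have e3 : (k * (κ - 1) * Real.log k - δ) * (L / Real.log L) = (w * (κ - 1) - δ) * (L / Real.log L) := by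
    rw [hwd]; ring
  rw [e2, e3]
  have h10 : (w * δ₂) * (L / Real.log L) ≤ δ / 4 * (L / Real.log L) :=
    mul_le_mul_of_nonneg_right hw hLl.le
  nlinarith

/-- few products -/
theorem dense_upper (k : ℕ) (hk : 1 ≤ k) (κ : ℝ) (hκ : 1 < κ) (δ : ℝ) (hδ : 0 < δ) :
    ∃ n₀ : ℕ, ∀ n : ℕ, n₀ ≤ n → ∃ A : Finset ℤ, A.card = n ∧
      (∀ a ∈ A, 0 < a ∧ (a : ℝ) ≤ (n : ℝ) ^ κ) ∧
      ((prods k A).card : ℝ) ≤
        (n : ℝ) ^ ((k : ℝ) - (k * (κ - 1) * Real.log k - δ) / Real.log (Real.log n)) := by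
  have hk' : (1 : ℝ) ≤ k := by exact_mod_cast hk
  have hlk : 0 ≤ Real.log k := Real.log_nonneg hk'
  set δ₂ := min ((κ - 1) / 4) (δ / (4 * (k * Real.log k + 1))) with hδ₂
  have hδ₂0 : 0 < δ₂ := lt_min (by linarith) (by positivity)
  have hδ₂κ : δ₂ ≤ (κ - 1) / 4 := min_le_left _ _
  have hw : k * Real.log k * δ₂ ≤ δ / 4 := by
    have h1 : δ₂ ≤ δ / (4 * (k * Real.log k + 1)) := min_le_right _ _
    have h2 : 0 ≤ k * Real.log k := by positivity
    calc k * Real.log k * δ₂ ≤ k * Real.log k * (δ / (4 * (k * Real.log k + 1))) :=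
          mul_le_mul_of_nonneg_left h1 h2
      _ = δ / 4 * (k * Real.log k / (k * Real.log k + 1)) := by field_simp
      _ ≤ δ / 4 * 1 := by
        refine mul_le_mul_of_nonneg_left ?_ (by linarith)
        rw [div_le_one (by linarith)]; linarith
      _ = _ := mul_one _
  obtain ⟨σ, hσd⟩ : ∃ σ : ℝ, σ = 1 / (κ - 1 - δ₂) := ⟨_, rfl⟩
  have hκδ : 0 < κ - 1 - δ₂ := by linarith
  have hσ : 0 < σ := by rw [hσd]; positivity
  have hσκ : 1 / σ = κ - 1 - δ₂ := by rw [hσd, one_div_one_div]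
  obtain ⟨τ, hτd⟩ : ∃ τ : ℝ, τ = σ + 1 := ⟨_, rfl⟩
  have hτ : 1 < τ := by linarith
  obtain ⟨ε, hεd⟩ : ∃ ε : ℝ, ε = σ * δ₂ / 2 := ⟨_, rfl⟩
  have hε : 0 < ε := by rw [hεd]; positivity
  have hτσ : (τ + ε) / σ < κ := by
    have e1 : (τ + ε) / σ = 1 + 1 / σ + δ₂ / 2 := by rw [hτd, hεd]; field_simp
    rw [e1, hσκ]
    linarith
  have A1 := asymY τ ε (by linarith) hε
  have A2 := asym3 σ (τ + ε) κ hσ (by linarith) hτσ
  have A3 := asym4 k κ δ δ₂ σ τ hk' hδ hδ₂0 hσ hσκ (by rw [hσκ]; linarith) hw hτ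
  have A4 := ev_rpow 1 τ (1 / 16) hτ (by norm_num)
  have A5 : ∀ᶠ L : ℝ in atTop, 2 ≤ L ^ σ := (tendsto_rpow_atTop hσ).eventually (eventually_ge_atTop 2)
  have hall := (((A1.and A2).and (A3.and A4)).and A5).and (eventually_ge_atTop (3 : ℝ))
  have hn := (Real.tendsto_log_atTop.comp tendsto_natCast_atTop_atTop).eventually hall
  obtain ⟨n₀, hn₀⟩ := eventually_atTop.1 (hn.and (eventually_ge_atTop (16 : ℕ)))
  refine ⟨n₀, fun n hnn => ?_⟩
  obtain ⟨⟨⟨⟨⟨h1, h2, h2'⟩, h3, h4⟩, h5⟩, h6⟩, h16⟩ := hn₀ n hnn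
  simp only [Function.comp_apply] at h1 h2 h2' h3 h4 h5 h6
  have hn' : (16 : ℝ) ≤ n := by exact_mod_cast h16
  have hn0 : (0 : ℝ) < n := by linarith
  set L := Real.log n with hL
  have hL0 : 0 < L := by linarith
  have hnL : (n : ℝ) = Real.exp L := (Real.exp_log hn0).symm
  have hℓ1 : 1 ≤ Real.log L := by
    rw [Real.le_log_iff_exp_le hL0]
    have := Real.exp_one_lt_d9
    linarith
  rw [Real.rpow_one] at h4
  -- t and m
  set t := ⌈L ^ τ⌉₊ with ht
  have ht1 : L ^ τ ≤ t := Nat.le_ceil _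
  have ht2 : (t : ℝ) ≤ L ^ τ + 1 := (Nat.ceil_lt_add_one (by positivity)).le
  have htL : 16 * L ≤ t := by linarith
  set m₀ := ⌈L⌉₊ with hm₀
  have hm₀1 : L ≤ m₀ := Nat.le_ceil _
  have hm₀2 : (m₀ : ℝ) ≤ L + 1 := (Nat.ceil_lt_add_one hL0.le).le
  have hm₀pos : (0 : ℝ) < m₀ := by linarith
  have hm₀t : m₀ ≤ t := by
    have : (m₀ : ℝ) ≤ t := by linarith
    exact_mod_cast this
  have hex : n ≤ t.choose m₀ := by
    have g1 := Nat.pow_le_choose (α := ℝ) m₀ t
    have g2 : ((t + 1 - m₀ : ℕ) : ℝ) = (t : ℝ) + 1 - m₀ := by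
      rw [Nat.cast_sub (by omega)]; push_cast; ring
    rw [g2] at g1
    have g3 : Real.exp L ≤ ((t : ℝ) + 1 - m₀) ^ m₀ / (m₀.factorial : ℝ) := by
      rw [le_div_iff₀ (by positivity)]
      have g4 : (m₀.factorial : ℝ) ≤ (m₀ : ℝ) ^ m₀ := by exact_mod_cast Nat.factorial_le_pow m₀
      have g5 : Real.exp L ≤ Real.exp 1 ^ m₀ := by
        rw [← Real.exp_nat_mul, mul_one]
        exact Real.exp_le_exp.2 hm₀1
      calc Real.exp L * (m₀.factorial : ℝ) ≤ Real.exp 1 ^ m₀ * (m₀ : ℝ) ^ m₀ :=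
            mul_le_mul g5 g4 (by positivity) (by positivity)
        _ = (Real.exp 1 * m₀) ^ m₀ := (mul_pow _ _ _).symm
        _ ≤ ((t : ℝ) + 1 - m₀) ^ m₀ := by
            refine pow_le_pow_left₀ (by positivity) ?_ _
            have := Real.exp_one_lt_d9
            nlinarith
    have g4 : (n : ℝ) ≤ t.choose m₀ := by rw [hnL]; exact g3.trans g1
    exact_mod_cast g4
  have hexm : ∃ m, n ≤ t.choose m := ⟨m₀, hex⟩
  classical
  set m := Nat.find hexm with hm
  have hm1 : n ≤ t.choose m := Nat.find_spec hexm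
  have hm0 : m ≤ m₀ := Nat.find_min' hexm hex
  have hmpos : 1 ≤ m := by
    by_contra hcon
    have h0 : m = 0 := by omega
    rw [h0, Nat.choose_zero_right] at hm1
    omega
  have hmlt : t.choose (m - 1) < n := by
    have := Nat.find_min hexm (show m - 1 < m by omega)
    omega
  have hm' : (1 : ℝ) ≤ m := by exact_mod_cast hmpos
  have hmL : (m : ℝ) ≤ L + 1 := by
    have : (m : ℝ) ≤ m₀ := by exact_mod_cast hm0
    linarith
  have h2mt : 2 * m ≤ t := by
    have : (2 * m : ℝ) ≤ t := by linarith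
    exact_mod_cast this
  -- (a) the upper bound for m
  have hmup : (m : ℝ) ≤ 1 + L / (σ * Real.log L - 1) := by
    rcases Nat.lt_or_ge 1 m with hm2 | hm2
    · set r := m - 1 with hr
      have hr1 : 1 ≤ r := by omega
      have hr1' : (1 : ℝ) ≤ r := by exact_mod_cast hr1
      have hrm : (m : ℝ) = r + 1 := by
        rw [hr, Nat.cast_sub hmpos]; push_cast; ring
      have hrL : (r : ℝ) ≤ L := by linarith
      have g1 := Nat.pow_le_choose (α := ℝ) r t
      have g2 : ((t + 1 - r : ℕ) : ℝ) = (t : ℝ) + 1 - r := by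
        rw [Nat.cast_sub (by omega)]; push_cast; ring
      rw [g2] at g1
      have g3 : (r.factorial : ℝ) ≤ (r : ℝ) ^ r := by exact_mod_cast Nat.factorial_le_pow r
      have g4 : (((t : ℝ) + 1 - r) / r) ^ r ≤ n := by
        rw [div_pow]
        have hpos : 0 ≤ (t : ℝ) + 1 - r := by linarith
        calc ((t : ℝ) + 1 - r) ^ r / (r : ℝ) ^ r ≤ ((t : ℝ) + 1 - r) ^ r / (r.factorial : ℝ) :=
              div_le_div_of_nonneg_left (by positivity) (by positivity) g3
          _ ≤ t.choose r := g1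
          _ ≤ n := by exact_mod_cast hmlt.le
      have g5 : L ^ σ / 2 ≤ ((t : ℝ) + 1 - r) / r := by
        rw [le_div_iff₀ (by linarith)]
        have e1 : L ^ τ = L ^ σ * L := by
          rw [hτd, Real.rpow_add hL0, Real.rpow_one]
        have g6 : L ^ σ / 2 * r ≤ L ^ σ / 2 * L := mul_le_mul_of_nonneg_left hrL (by positivity)
        nlinarith
      have g6 : (r : ℝ) * Real.log (L ^ σ / 2) ≤ L := by
        have g7 := Real.log_le_log (by positivity) ((pow_le_pow_left₀ (by positivity) g5 r).trans g4)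
        rwa [Real.log_pow] at g7
      rw [Real.log_div (by positivity) (by norm_num), Real.log_rpow hL0] at g6
      have g7 : (r : ℝ) * (σ * Real.log L - 1) ≤ L := by
        have := Real.log_two_lt_d9
        have g8 : (r : ℝ) * (σ * Real.log L - 1) ≤ r * (σ * Real.log L - Real.log 2) :=
          mul_le_mul_of_nonneg_left (by linarith) (by linarith)
        linarith
      rw [hrm]
      have g8 : (r : ℝ) ≤ L / (σ * Real.log L - 1) := by
        rw [le_div_iff₀ h2]; exact g7
      linarith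
    · have : m = 1 := by omega
      rw [this]
      have : 0 ≤ L / (σ * Real.log L - 1) := by positivity
      push_cast
      linarith
  -- (b) the lower bound for m
  have hlt : Real.log t ≤ τ * Real.log L + 1 := by
    have g1 : (t : ℝ) ≤ L ^ τ * 2 := by linarith
    have g2 := Real.log_le_log (by linarith) g1
    rw [Real.log_mul (by positivity) (by norm_num), Real.log_rpow hL0] at g2
    have := Real.log_two_lt_d9
    linarith
  have hτℓ : 0 < τ * Real.log L + 1 := by positivity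
  have hmlow1 : L ≤ m * (τ * Real.log L + 1) := by
    have g1 : n ≤ t ^ m := hm1.trans (Nat.choose_le_pow t m)
    have g2 : (n : ℝ) ≤ (t : ℝ) ^ m := by exact_mod_cast g1
    have g3 := Real.log_le_log hn0 g2
    rw [Real.log_pow] at g3
    exact g3.trans (mul_le_mul_of_nonneg_left hlt (by linarith))
  have hlogm : Real.log L - Real.log (τ * Real.log L + 1) ≤ Real.log m := by
    have g1 := Real.log_le_log hL0 hmlow1
    rw [Real.log_mul (by positivity) hτℓ.ne'] at g1
    linarith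
  have hD : 0 < σ * Real.log L + 2 + Real.log (τ * Real.log L + 1) := by
    have : 0 ≤ Real.log (τ * Real.log L + 1) := Real.log_nonneg (by nlinarith)
    have : 0 < σ * Real.log L := by positivity
    linarith
  have hmlow : L / (σ * Real.log L + 2 + Real.log (τ * Real.log L + 1)) ≤ m := by
    rw [div_le_iff₀ hD]
    have g1 := Nat.choose_le_pow_div (α := ℝ) m t
    have g2 : (n : ℝ) ≤ (t : ℝ) ^ m / (m.factorial : ℝ) := by
      refine le_trans ?_ g1
      exact_mod_cast hm1
    have ht0 : (0 : ℝ) < t := by linarith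
    have g3 := Real.log_le_log hn0 g2
    rw [Real.log_div (by positivity) (by positivity), Real.log_pow] at g3
    have g4 := log_fact_ge m hmpos
    have g5 : (m : ℝ) * Real.log t ≤ m * (τ * Real.log L + 1) := mul_le_mul_of_nonneg_left hlt (by linarith)
    have g6 : (m : ℝ) * (Real.log L - Real.log (τ * Real.log L + 1)) ≤ m * Real.log m :=
      mul_le_mul_of_nonneg_left hlogm (by linarith)
    have e1 : (m : ℝ) * (σ * Real.log L + 2 + Real.log (τ * Real.log L + 1)) =
        m * (τ * Real.log L + 1) - m * (Real.log L - Real.log (τ * Real.log L + 1)) + m := by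
      rw [hτd]; ring
    rw [e1]
    linarith
  -- the set
  have ht1n : 1 ≤ t := by omega
  obtain ⟨P, hP, hPc⟩ := primes_exist t ht1n
  set y := ⌈8 * (t : ℝ) * Real.log (t + 2)⌉₊ with hy
  obtain ⟨D, hD1, hD2, hD3⟩ := slice P (fun p hp => (hP p hp).1) y (fun p hp => (hP p hp).2) m
  rw [hPc] at hD1 hD3
  obtain ⟨A, hAD, hAc⟩ := Finset.exists_subset_card_eq (show n ≤ D.card by rw [hD1]; exact hm1)
  refine ⟨A, hAc, fun a ha => ⟨(hD2 a (hAD ha)).1, ?_⟩, ?_⟩
  · have g1 : (a : ℝ) ≤ (y : ℝ) ^ m := by exact_mod_cast (hD2 a (hAD ha)).2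
    refine g1.trans ?_
    have ht0 : (0 : ℝ) < t := by linarith
    have hlog0 : 0 < Real.log ((t : ℝ) + 2) := Real.log_pos (by linarith)
    have g2 : (y : ℝ) ≤ 8 * (t : ℝ) * Real.log (t + 2) + 1 := (Nat.ceil_lt_add_one (by positivity)).le
    have g3 : (y : ℝ) ≤ L ^ (τ + ε) := by
      refine le_trans ?_ h1
      have g4 : Real.log ((t : ℝ) + 2) ≤ Real.log (L ^ τ + 1 + 2) := Real.log_le_log (by linarith) (by linarith)
      have g5 : 8 * (t : ℝ) * Real.log (t + 2) ≤ 8 * (L ^ τ + 1) * Real.log (L ^ τ + 1 + 2) :=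
        mul_le_mul (by linarith) g4 hlog0.le (by positivity)
      linarith
    calc (y : ℝ) ^ m ≤ (L ^ (τ + ε)) ^ m := pow_le_pow_left₀ (by positivity) g3 m
      _ = Real.exp (m * ((τ + ε) * Real.log L)) := by
          rw [← Real.rpow_natCast, ← Real.rpow_mul hL0.le, Real.rpow_def_of_pos hL0]
          congr 1; ring
      _ ≤ Real.exp (κ * L) := by
          rw [Real.exp_le_exp]
          refine le_trans ?_ h2'
          exact mul_le_mul_of_nonneg_right hmup (by positivity)
      _ = (n : ℝ) ^ κ := by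
          rw [Real.rpow_def_of_pos hn0, ← hL, mul_comm]
  · have g1 : (prods k A).card ≤ (t + k * m - 1).choose (k * m) :=
      (Finset.card_le_card (prods_mono hAD)).trans (hD3 k)
    have g2 : ((prods k A).card : ℝ) ≤ (((t + k * m - 1).choose (k * m) : ℕ) : ℝ) := by exact_mod_cast g1
    refine g2.trans ?_
    have g3 := slice_bound (n := n) (t := t) (m := m) hk hmpos h2mt hmlt
    have g4 : (0 : ℝ) < (((t + k * m - 1).choose (k * m) : ℕ) : ℝ) := by
      exact_mod_cast Nat.choose_pos (by omega)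
    rw [← Real.log_le_log_iff g4 (Real.rpow_pos_of_pos hn0 _), Real.log_rpow hn0, ← hL]
    refine g3.trans ?_
    rw [← hL]
    have g5 : Real.log m ≤ Real.log L + 1 := by
      have g6 : (m : ℝ) ≤ L * 2 := by linarith
      have g7 := Real.log_le_log (by linarith) g6
      rw [Real.log_mul (by positivity) (by norm_num)] at g7
      have := Real.log_two_lt_d9
      linarith
    have g6 : 2 * (k : ℝ) * (k + 1) * m ^ 2 / t ≤ 8 * k * (k + 1) * L ^ (2 - τ) := by
      have ht0 : (0 : ℝ) < t := by linarith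
      have e1 : L ^ (2 - τ) = L ^ 2 / L ^ τ := by
        rw [Real.rpow_sub hL0, Real.rpow_two]
      have g7 : (m : ℝ) ^ 2 ≤ 4 * L ^ 2 := by nlinarith
      have g8 : (m : ℝ) ^ 2 / t ≤ 4 * (L ^ 2 / L ^ τ) := by
        calc (m : ℝ) ^ 2 / t ≤ 4 * L ^ 2 / t := div_le_div_of_nonneg_right g7 ht0.le
          _ ≤ 4 * L ^ 2 / L ^ τ := div_le_div_of_nonneg_left (by positivity) (by positivity) ht1
          _ = _ := by ring
      rw [e1]
      calc 2 * (k : ℝ) * (k + 1) * m ^ 2 / t = 2 * (k : ℝ) * (k + 1) * (m ^ 2 / t) := by ring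
        _ ≤ 2 * (k : ℝ) * (k + 1) * (4 * (L ^ 2 / L ^ τ)) := mul_le_mul_of_nonneg_left g8 (by positivity)
        _ = _ := by ring
    have g7 : k * Real.log k * (L / (σ * Real.log L + 2 + Real.log (τ * Real.log L + 1))) ≤
        k * m * Real.log k := by
      have : 0 ≤ (k : ℝ) * Real.log k := by positivity
      calc k * Real.log k * (L / (σ * Real.log L + 2 + Real.log (τ * Real.log L + 1))) ≤
            k * Real.log k * m := mul_le_mul_of_nonneg_left hmlow this
        _ = _ := by ring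
    have g8 : (k : ℝ) * Real.log m ≤ k * (Real.log L + 1) := mul_le_mul_of_nonneg_left g5 (by linarith)
    have g9 : (k : ℝ) * Real.log t ≤ k * (τ * Real.log L + 1) := mul_le_mul_of_nonneg_left hlt (by linarith)
    have e2 : ((k : ℝ) - (k * (κ - 1) * Real.log k - δ) / Real.log L) * L =
        k * L - (k * (κ - 1) * Real.log k - δ) * (L / Real.log L) := by ring
    rw [e2]
    linarith

end Pool.Agent.X9.ES
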