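import Pool.Agent.X9.ES.Low

set_option autoImplicit false

/-!
# The order of the exponent
-/

namespace Pool.Agent.X9.ES

open Finset

/-- the smallest possible value of `max(|kA|, |A^k|)` for sets of `n` integers -/
noncomputable def g (n k : ℕ) : ℕ := sInf {M | ∃ A : Finset ℤ, A.card = n ∧ M = big k A}

lemma g_le {n k : ℕ} {A : Finset ℤ} (h : A.card = n) : g n k ≤ big k A := Nat.sInf_le ⟨A, h, rfl⟩

lemma g_attained (n k : ℕ) : ∃ A : Finset ℤ, A.card = n ∧ g n k = big k A := by
  have hne : {M | ∃ A : Finset ℤ, A.card = n ∧ M = big k A}.Nonempty := by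
    obtain ⟨A, hA⟩ := Infinite.exists_subset_card_eq ℤ n
    exact ⟨_, A, hA, rfl⟩
  exact Nat.sInf_mem hne

/-- the general bounds -/
theorem general : ∃ c C : ℝ, 0 < c ∧ 0 < C ∧ ∀ n k : ℕ, 16 ≤ n → 2 ≤ k →
    (n : ℝ) ^ (c * min (Real.log k) (Real.log (Real.log n))) ≤ g n k ∧
    (16 ≤ k → (n : ℝ) ^ (c * (Real.log k / Real.log (Real.log k))) ≤ g n k) ∧
    (g n k : ℝ) ≤ (n : ℝ) ^ (C * (max (Real.log k) (Real.log (Real.log n)) /
      Real.log (2 + min (Real.log k) n / Real.log (Real.log n)))) := by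
  obtain ⟨c, hc, hc1, h⟩ := low1
  refine ⟨min c (1 / 8), 400, by positivity, by norm_num, fun n k hn hk => ?_⟩
  have hn' : (16 : ℝ) ≤ n := by exact_mod_cast hn
  have hk' : (2 : ℝ) ≤ k := by exact_mod_cast hk
  have hlog2a := Real.log_two_gt_d9
  have hl2 : 2.77 ≤ Real.log n := by
    have h1 : Real.log 16 ≤ Real.log n := Real.log_le_log (by norm_num) hn'
    have h2 : Real.log 16 = 4 * Real.log 2 := by
      rw [show (16 : ℝ) = 2 ^ 4 by norm_num, Real.log_pow]
      norm_num
    linarith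
  have hℓ0 : 0 ≤ Real.log (Real.log n) := Real.log_nonneg (by linarith)
  have hK0 : 0 ≤ Real.log k := Real.log_nonneg (by linarith)
  obtain ⟨A, hA, hg⟩ := g_attained n k
  refine ⟨?_, ?_, ?_⟩
  · have h1 := h k A hk (by omega)
    rw [hg]
    rw [hA] at h1
    refine le_trans (Real.rpow_le_rpow_of_exponent_le (by linarith) ?_) h1
    exact mul_le_mul_of_nonneg_right (min_le_left _ _) (le_min hK0 hℓ0)
  · intro hk16
    have hk16' : (16 : ℝ) ≤ k := by exact_mod_cast hk16
    have h1 := low2 k A hk16 (by omega)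
    rw [hg]
    rw [hA] at h1
    refine le_trans (Real.rpow_le_rpow_of_exponent_le (by linarith) ?_) h1
    have hK2 : 2.77 ≤ Real.log k := by
      have h1 : Real.log 16 ≤ Real.log k := Real.log_le_log (by norm_num) hk16'
      have h2 : Real.log 16 = 4 * Real.log 2 := by
        rw [show (16 : ℝ) = 2 ^ 4 by norm_num, Real.log_pow]
        norm_num
      linarith
    have hlK : 0 < Real.log (Real.log k) := Real.log_pos (by linarith)
    have e1 : Real.log k / (8 * Real.log (Real.log k)) = 1 / 8 * (Real.log k / Real.log (Real.log k)) := by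
      field_simp
    rw [e1]
    exact mul_le_mul_of_nonneg_right (min_le_right _ _) (by positivity)
  · obtain ⟨B, -, hB, h2⟩ := upper' hn hk
    rw [← big_cast] at h2
    refine le_trans ?_ h2
    exact_mod_cast g_le hB

/-- the order of the exponent -/
theorem order (δ : ℝ) (hδ : 0 < δ) (hδ1 : δ ≤ 1) : ∃ c C : ℝ, 0 < c ∧ 0 < C ∧
    ∀ n k : ℕ, 16 ≤ n → 2 ≤ k →
      ((Real.log n) ^ δ ≤ k → (k : ℝ) ≤ (Real.log n) ^ (1 / δ) →
        (n : ℝ) ^ (c * Real.log (Real.log n)) ≤ g n k ∧
        (g n k : ℝ) ≤ (n : ℝ) ^ (C * Real.log (Real.log n))) ∧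
      (16 ≤ k → Real.exp ((Real.log (Real.log n)) ^ (1 + δ)) ≤ k → (k : ℝ) ≤ Real.exp n →
        (n : ℝ) ^ (c * (Real.log k / Real.log (Real.log k))) ≤ g n k ∧
        (g n k : ℝ) ≤ (n : ℝ) ^ (C * (Real.log k / Real.log (Real.log k)))) ∧
      (Real.exp n ≤ k → (k : ℝ) ≤ g n k ∧ (g n k : ℝ) ≤ (k : ℝ) ^ 2) := by
  obtain ⟨c, C, hc, hC, h⟩ := general
  refine ⟨c * δ, C * (2 / δ), by positivity, by positivity, fun n k hn hk => ?_⟩
  obtain ⟨h1, h2, h3⟩ := h n k hn hk
  have hn' : (16 : ℝ) ≤ n := by exact_mod_cast hn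
  have hk' : (2 : ℝ) ≤ k := by exact_mod_cast hk
  have hlog2a := Real.log_two_gt_d9
  have hl2 : 2.77 ≤ Real.log n := by
    have h1 : Real.log 16 ≤ Real.log n := Real.log_le_log (by norm_num) hn'
    have h2 : Real.log 16 = 4 * Real.log 2 := by
      rw [show (16 : ℝ) = 2 ^ 4 by norm_num, Real.log_pow]
      norm_num
    linarith
  set l := Real.log n with hl
  set K := Real.log k with hK
  have hK0 : 0.69 ≤ K := by
    have := Real.log_le_log (by norm_num) hk'
    linarith
  set ℓ := Real.log l with hℓ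
  have hℓ1 : 1 ≤ ℓ := by
    rw [hℓ, Real.le_log_iff_exp_le (by linarith)]
    have := Real.exp_one_lt_d9
    linarith
  have hn1 : (1 : ℝ) ≤ n := by linarith
  refine ⟨fun ha hb => ⟨?_, ?_⟩, fun h16 ha hb => ⟨?_, ?_⟩, fun ha => ⟨?_, ?_⟩⟩
  · refine le_trans (Real.rpow_le_rpow_of_exponent_le hn1 ?_) h1
    rw [mul_assoc]
    refine mul_le_mul_of_nonneg_left (le_min ?_ ?_) hc.le
    · have h4 := Real.log_le_log (by positivity) ha
      rw [Real.log_rpow (by linarith)] at h4
      exact h4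
    · nlinarith
  · refine h3.trans (Real.rpow_le_rpow_of_exponent_le hn1 ?_)
    rw [mul_assoc]
    refine mul_le_mul_of_nonneg_left ?_ hC.le
    have h4 : K ≤ 1 / δ * ℓ := by
      have h4 := Real.log_le_log (by linarith) hb
      rwa [Real.log_rpow (by linarith)] at h4
    have h5 : ℓ ≤ 1 / δ * ℓ := by
      have : 1 ≤ 1 / δ := by rw [le_div_iff₀ hδ]; linarith
      nlinarith
    have h6 : (0.69 : ℝ) ≤ Real.log (2 + min K n / ℓ) := by
      have h7 : 0 ≤ min K n / ℓ := div_nonneg (le_min (by linarith) (by linarith)) (by linarith)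
      have := Real.log_le_log (by norm_num) (show (2 : ℝ) ≤ 2 + min K n / ℓ by linarith)
      linarith
    rw [div_le_iff₀ (by linarith)]
    have h8 : max K ℓ ≤ 1 / δ * ℓ := max_le h4 h5
    have h9 : 0 ≤ 1 / δ * ℓ := by positivity
    have e1 : 2 / δ * ℓ = 2 * (1 / δ * ℓ) := by ring
    rw [e1]
    nlinarith
  · refine le_trans (Real.rpow_le_rpow_of_exponent_le hn1 ?_) (h2 h16)
    have h16' : (16 : ℝ) ≤ k := by exact_mod_cast h16
    have hK2 : 2.77 ≤ K := by
      have h1 : Real.log 16 ≤ K := Real.log_le_log (by norm_num) h16'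
      have h2 : Real.log 16 = 4 * Real.log 2 := by
        rw [show (16 : ℝ) = 2 ^ 4 by norm_num, Real.log_pow]
        norm_num
      linarith
    have hlK : 0 < Real.log K := Real.log_pos (by linarith)
    refine mul_le_mul_of_nonneg_right ?_ (by positivity)
    nlinarith
  · have h16' : (16 : ℝ) ≤ k := by exact_mod_cast h16
    have hK2 : 2.77 ≤ K := by
      have h1 : Real.log 16 ≤ K := Real.log_le_log (by norm_num) h16'
      have h2 : Real.log 16 = 4 * Real.log 2 := by
        rw [show (16 : ℝ) = 2 ^ 4 by norm_num, Real.log_pow]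
        norm_num
      linarith
    have hlK : 1 ≤ Real.log K := by
      rw [Real.le_log_iff_exp_le (by linarith)]
      have := Real.exp_one_lt_d9
      linarith
    have hlK0 : 0 < Real.log K := by linarith
    refine h3.trans (Real.rpow_le_rpow_of_exponent_le hn1 ?_)
    rw [mul_assoc]
    refine mul_le_mul_of_nonneg_left ?_ hC.le
    have h4 : ℓ ^ (1 + δ) ≤ K := by
      rw [hK, Real.le_log_iff_exp_le (by linarith)]
      exact ha
    have h5 : ℓ ≤ K := by
      refine le_trans ?_ h4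
      calc ℓ = ℓ ^ (1 : ℝ) := (Real.rpow_one _).symm
        _ ≤ _ := Real.rpow_le_rpow_of_exponent_le hℓ1 (by linarith)
    have h6 : K ≤ n := by
      rw [hK, Real.log_le_iff_le_exp (by linarith)]
      exact hb
    rw [max_eq_left h5, min_eq_left h6]
    -- log ℓ ≤ log K / (1 + δ)
    have h7 : (1 + δ) * Real.log ℓ ≤ Real.log K := by
      have := Real.log_le_log (by positivity) h4
      rwa [Real.log_rpow (by linarith)] at this
    have h8 : Real.log K - Real.log ℓ ≤ Real.log (2 + K / ℓ) := by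
      rw [← Real.log_div (by linarith) (by linarith)]
      exact Real.log_le_log (by positivity) (by linarith)
    have h9 : δ / 2 * Real.log K ≤ Real.log (2 + K / ℓ) := by
      refine le_trans ?_ h8
      have h10 : 0 ≤ Real.log ℓ := Real.log_nonneg hℓ1
      -- log ℓ ≤ (1 - δ/2) log K since (1 - δ/2)(1+δ) ≥ 1
      have h11 : Real.log ℓ ≤ (1 - δ / 2) * Real.log K := by
        have h12 : (1 : ℝ) ≤ (1 - δ / 2) * (1 + δ) := by nlinarith
        calc Real.log ℓ = 1 * Real.log ℓ := (one_mul _).symm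
          _ ≤ (1 - δ / 2) * (1 + δ) * Real.log ℓ := mul_le_mul_of_nonneg_right h12 h10
          _ = (1 - δ / 2) * ((1 + δ) * Real.log ℓ) := by ring
          _ ≤ _ := mul_le_mul_of_nonneg_left h7 (by linarith)
      linarith
    have h9' : 0 < δ / 2 * Real.log K := by positivity
    calc K / Real.log (2 + K / ℓ) ≤ K / (δ / 2 * Real.log K) :=
          div_le_div_of_nonneg_left (by linarith) h9' h9
      _ = 2 / δ * (K / Real.log K) := by field_simp
  · obtain ⟨A, hA, hg⟩ := g_attained n k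
    rw [hg]
    have h4 := k_lt_sums (k := k) (A := A) (by omega)
    have h5 : k ≤ big k A := by
      unfold big
      exact le_max_of_le_left (by omega)
    exact_mod_cast h5
  · obtain ⟨A, hA, hg⟩ := gp n k (by omega) (by omega) ha
    exact_mod_cast (g_le hA).trans hg

/-- the constants of the conjecture -/
theorem constants (δ : ℝ) (hδ : 0 < δ) : ∃ η : ℝ, 0 < η ∧ ∃ k₀ : ℕ, ∀ k : ℕ, k₀ ≤ k →
    ∀ c : ℝ, (∀ A : Finset ℤ, A.Nonempty → c * (A.card : ℝ) ^ (δ * k) ≤ big k A) →
      c ≤ Real.exp (-Real.exp (η * k)) := by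
  obtain ⟨c₀, C, hc₀, hC, h⟩ := general
  set η : ℝ := δ / (6 * C) with hη
  have hη0 : 0 < η := by positivity
  -- `log k ≤ 2 η k` eventually
  have hev : ∀ᶠ k : ℕ in Filter.atTop, Real.log k ≤ 2 * η * k := by
    have h1 : (fun x : ℝ => Real.log x) =o[Filter.atTop] fun x : ℝ => x := Real.isLittleO_log_id_atTop
    have h3 := tendsto_natCast_atTop_atTop.eventually (h1.bound (show 0 < 2 * η by positivity))
    filter_upwards [h3, Filter.eventually_ge_atTop 1] with k hk hk1
    have hk1' : (1 : ℝ) ≤ k := by exact_mod_cast hk1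
    rw [Real.norm_of_nonneg (Real.log_nonneg hk1'), Real.norm_of_nonneg (by linarith)] at hk
    exact hk
  obtain ⟨k₁, hk₁⟩ := Filter.eventually_atTop.1 hev
  refine ⟨η, hη0, max (max k₁ 2) (max ⌈4 / η⌉₊ ⌈2 / δ⌉₊), fun k hk c hcA => ?_⟩
  have hkk1 : k₁ ≤ k := ((le_max_left _ _).trans (le_max_left _ _)).trans hk
  have hkk2 : 2 ≤ k := ((le_max_right _ _).trans (le_max_left _ _)).trans hk
  have hk4 : 4 / η ≤ k := (Nat.le_ceil _).trans (by exact_mod_cast ((le_max_left _ _).trans (le_max_right _ _)).trans hk)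
  have hkδ : 2 / δ ≤ k := (Nat.le_ceil _).trans (by exact_mod_cast ((le_max_right _ _).trans (le_max_right _ _)).trans hk)
  have hηk : 4 ≤ η * k := by rw [div_le_iff₀ hη0] at hk4; linarith
  have hδk : 2 ≤ δ * k := by rw [div_le_iff₀ hδ] at hkδ; linarith
  have hlogk := hk₁ k hkk1
  have hk' : (2 : ℝ) ≤ k := by exact_mod_cast hkk2
  set E := Real.exp (η * k) with hE
  have hE5 : 5 ≤ E := by
    have := Real.add_one_le_exp (η * k)
    linarith
  set n := ⌈Real.exp E⌉₊ with hn
  have hn1 : Real.exp E ≤ n := Nat.le_ceil _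
  have hn2 : (n : ℝ) < Real.exp E + 1 := Nat.ceil_lt_add_one (Real.exp_pos _).le
  have hexp16 : (16 : ℝ) ≤ Real.exp E := by
    have h1 : Real.exp 4 ≤ Real.exp E := Real.exp_le_exp.2 (by linarith)
    have h2 : Real.exp 4 = Real.exp 1 ^ 4 := by
      rw [← Real.exp_nat_mul]; norm_num
    have h3 : (2 : ℝ) ^ 4 ≤ Real.exp 1 ^ 4 :=
      pow_le_pow_left₀ (by norm_num) (by have := Real.exp_one_gt_d9; linarith) _
    rw [h2] at h1
    linarith
  have hn16' : (16 : ℝ) ≤ n := hexp16.trans hn1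
  have hn16 : 16 ≤ n := by exact_mod_cast hn16'
  have hn0 : (0 : ℝ) < n := by linarith
  have hlE : E ≤ Real.log n := by
    rw [Real.le_log_iff_exp_le hn0]
    exact hn1
  have hlE2 : Real.log n ≤ 2 * E := by
    rw [Real.log_le_iff_le_exp hn0]
    have h1 : Real.exp (2 * E) = Real.exp E * Real.exp E := by rw [← Real.exp_add]; ring_nf
    rw [h1]
    nlinarith
  have hll : Real.log (Real.log n) ≤ 2 * (η * k) := by
    have h1 : Real.log (Real.log n) ≤ Real.log (2 * E) := Real.log_le_log (by linarith) hlE2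
    rw [Real.log_mul (by norm_num) (by linarith), hE, Real.log_exp] at h1
    have := Real.log_two_lt_d9
    linarith
  have hll1 : 1 ≤ Real.log (Real.log n) := by
    rw [Real.le_log_iff_exp_le (by linarith)]
    have := Real.exp_one_lt_d9
    linarith
  obtain ⟨-, -, h3⟩ := h n k hn16 hkk2
  obtain ⟨A, hA, hg⟩ := g_attained n k
  have hAne : A.Nonempty := Finset.card_pos.1 (by omega)
  have h4 := hcA A hAne
  rw [hA, ← hg] at h4
  have h5 : (n : ℝ) ^ (C * (max (Real.log k) (Real.log (Real.log n)) /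
      Real.log (2 + min (Real.log k) n / Real.log (Real.log n)))) ≤ (n : ℝ) ^ (δ * k / 2) := by
    refine Real.rpow_le_rpow_of_exponent_le (by linarith) ?_
    have h6 : (0.69 : ℝ) ≤ Real.log (2 + min (Real.log k) n / Real.log (Real.log n)) := by
      have h7 : 0 ≤ min (Real.log k) n / Real.log (Real.log n) :=
        div_nonneg (le_min (Real.log_nonneg (by linarith)) (by linarith)) (by linarith)
      have := Real.log_le_log (by norm_num) (show (2 : ℝ) ≤ 2 + min (Real.log k) n / Real.log (Real.log n) by linarith)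
      have := Real.log_two_gt_d9
      linarith
    have h7 : max (Real.log k) (Real.log (Real.log n)) ≤ 2 * (η * k) := max_le (by linarith) hll
    have h8 : max (Real.log k) (Real.log (Real.log n)) /
        Real.log (2 + min (Real.log k) n / Real.log (Real.log n)) ≤ 3 * (η * k) := by
      rw [div_le_iff₀ (by linarith)]
      nlinarith
    have h9 := mul_le_mul_of_nonneg_left h8 hC.le
    have e1 : C * (3 * (η * k)) = δ * k / 2 := by
      rw [hη]; field_simp; ring
    rw [e1] at h9
    exact h9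
  have h6 : c * (n : ℝ) ^ (δ * k) ≤ (n : ℝ) ^ (δ * k / 2) := h4.trans (h3.trans h5)
  have h7 : (n : ℝ) ^ (δ * k) = (n : ℝ) ^ (δ * k / 2) * (n : ℝ) ^ (δ * k / 2) := by
    rw [← Real.rpow_add hn0]; ring_nf
  have h8 : 0 < (n : ℝ) ^ (δ * k / 2) := by positivity
  have h9 : c * (n : ℝ) ^ (δ * k / 2) ≤ 1 := by
    rw [h7, ← mul_assoc] at h6
    exact le_of_mul_le_mul_right (by linarith) h8
  have h10 : Real.exp E ≤ (n : ℝ) ^ (δ * k / 2) := by
    calc Real.exp E ≤ n := hn1
      _ = (n : ℝ) ^ (1 : ℝ) := (Real.rpow_one _).symm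
      _ ≤ _ := Real.rpow_le_rpow_of_exponent_le (by linarith) (by linarith)
  rcases le_or_gt c 0 with hc | hc
  · exact hc.trans (Real.exp_pos _).le
  · rw [Real.exp_neg, ← one_div, le_div_iff₀ (Real.exp_pos _)]
    exact (mul_le_mul_of_nonneg_left h10 hc.le).trans h9

end Pool.Agent.X9.ES
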