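import Pool.Agent.X9.ES.Box
import Pool.Agent.H384R3.SPk.Mix
import Pool.Agent.H201R3.SPk.G
import Pool.Agent.H449R3.SPkH
import Pool.Agent.H633R5.FS.LogExp

set_option autoImplicit false

/-!
# Lower bounds for the number of k-fold sums or products
-/

namespace Pool.Agent.X9.ES

open Finset

/-- `max(|kA|, |A^k|)` -/
def big (k : ℕ) (A : Finset ℤ) : ℕ := max (sums k A).card (prods k A).card

lemma big_cast (k : ℕ) (A : Finset ℤ) : (big k A : ℝ) = max ((sums k A).card : ℝ) ((prods k A).card : ℝ) := by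
  unfold big; push_cast; rfl

lemma card_le_sums {k : ℕ} (hk : 1 ≤ k) {A : Finset ℤ} (hA : A.Nonempty) : A.card ≤ (sums k A).card := by
  refine le_trans ?_ (sums_le hk hA)
  refine Finset.card_le_card fun a ha => ?_
  refine Finset.mem_image.2 ⟨fun _ => a, ?_, by simp⟩
  rw [Fintype.mem_piFinset]
  exact fun _ => ha

lemma k_lt_sums {k : ℕ} {A : Finset ℤ} (hA : 2 ≤ A.card) : k + 1 ≤ (sums k A).card := by
  obtain ⟨a, ha, b, hb, hab⟩ := Finset.one_lt_card.1 (show 1 < A.card by omega)
  have h := Finset.card_le_card_of_injOn (s := Finset.range (k + 1)) (t := sums k A)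
    (fun i => (i : ℤ) * a + ((k : ℤ) - i) * b) ?_ ?_
  · simpa using h
  · intro i hi
    have hi : i < k + 1 := by simpa using hi
    refine Finset.mem_coe.2 (Finset.mem_image.2 ⟨fun j => if (j : ℕ) < i then a else b, ?_, ?_⟩)
    · rw [Fintype.mem_piFinset]
      intro j
      split_ifs
      · exact ha
      · exact hb
    · rw [Fin.sum_univ_eq_sum_range (fun j => if j < i then a else b) k, Finset.sum_ite,
        Finset.sum_const, Finset.sum_const]
      have h1 : ((Finset.range k).filter fun j => j < i).card = i := by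
        have : ((Finset.range k).filter fun j => j < i) = Finset.range i := by
          ext j
          simp only [Finset.mem_filter, Finset.mem_range]
          omega
        rw [this, Finset.card_range]
      have h2 : ((Finset.range k).filter fun j => ¬ j < i).card = k - i := by
        have := Finset.card_filter_add_card_filter_not (s := Finset.range k) (fun j => j < i)
        rw [h1, Finset.card_range] at this
        omega
      rw [h1, h2, nsmul_eq_mul, nsmul_eq_mul, Nat.cast_sub (by omega)]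
  · intro i _ j _ h
    have h' : (i : ℤ) * a + ((k : ℤ) - i) * b = (j : ℤ) * a + ((k : ℤ) - j) * b := h
    have h1 : ((i : ℤ) - j) * (a - b) = 0 := by linear_combination h'
    rcases mul_eq_zero.1 h1 with h2 | h2
    · exact_mod_cast sub_eq_zero.1 h2
    · exact absurd (sub_eq_zero.1 h2) hab

theorem low1 : ∃ c : ℝ, 0 < c ∧ c ≤ 1 ∧ ∀ (k : ℕ) (A : Finset ℤ), 2 ≤ k → 16 ≤ A.card →
    (A.card : ℝ) ^ (c * min (Real.log k) (Real.log (Real.log A.card))) ≤ big k A := by
  obtain ⟨c, hc, h⟩ := H633R5.FS.log_exponent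
  refine ⟨min (c / 2) 1, by positivity, min_le_right _ _, fun k A hk hA => ?_⟩
  have hAne : A.Nonempty := Finset.card_pos.1 (by omega)
  have hA' : (16 : ℝ) ≤ A.card := by exact_mod_cast hA
  have hk' : (2 : ℝ) ≤ k := by exact_mod_cast hk
  set l := Real.log A.card with hl
  have hlog2a := Real.log_two_gt_d9
  have hl2 : 2.77 ≤ l := by
    have h1 : Real.log 16 ≤ l := Real.log_le_log (by norm_num) hA'
    have h2 : Real.log 16 = 4 * Real.log 2 := by
      rw [show (16 : ℝ) = 2 ^ 4 by norm_num, Real.log_pow]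
      norm_num
    linarith
  set ℓ := Real.log l with hℓ
  have hℓ1 : 1 ≤ ℓ := by
    rw [hℓ, Real.le_log_iff_exp_le (by linarith)]
    have := Real.exp_one_lt_d9
    linarith
  have hK0 : 0 ≤ Real.log k := Real.log_nonneg (by linarith)
  set m := min k ⌊l⌋₊ with hm
  have hfl : 2 ≤ ⌊l⌋₊ := Nat.le_floor (by push_cast; linarith)
  have hm2 : 2 ≤ m := le_min hk hfl
  have hml : (m : ℝ) ≤ l := by
    have h1 : (m : ℝ) ≤ ⌊l⌋₊ := by exact_mod_cast min_le_right _ _
    exact h1.trans (Nat.floor_le (by linarith))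
  have hlogm : min (Real.log k) ℓ / 2 ≤ Real.log m := by
    rcases le_total k ⌊l⌋₊ with h1 | h1
    · have : m = k := min_eq_left h1
      rw [this]
      have := min_le_left (Real.log k) ℓ
      linarith
    · have h2 : m = ⌊l⌋₊ := min_eq_right h1
      rw [h2]
      have h3 : ℓ / 2 ≤ Real.log ⌊l⌋₊ := by
        have h4 : l ≤ (⌊l⌋₊ : ℝ) ^ 2 := by
          have h5 := Nat.lt_floor_add_one l
          have h6 : (2 : ℝ) ≤ ⌊l⌋₊ := by exact_mod_cast hfl
          nlinarith
        have h5 := Real.log_le_log (by linarith) h4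
        rw [Real.log_pow] at h5
        push_cast at h5
        linarith
      have := min_le_right (Real.log k) ℓ
      linarith
  have hmin0 : 0 ≤ min (Real.log k) ℓ := le_min hK0 (by linarith)
  have hc1 : min (c / 2) 1 ≤ c / 2 := min_le_left _ _
  have hcc : min (c / 2) 1 * min (Real.log k) ℓ ≤ c * (min (Real.log k) ℓ / 2) := by
    have := mul_le_mul_of_nonneg_right hc1 hmin0
    linarith
  rw [big_cast]
  rcases h A hAne m hm2 hml k hk with h1 | h1
  · refine le_trans ?_ (h1.trans (le_max_right _ _))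
    refine Real.rpow_le_rpow_of_exponent_le (by linarith) (hcc.trans ?_)
    have := min_le_left (Real.log k) ℓ
    exact mul_le_mul_of_nonneg_left (by linarith) hc.le
  · have h2 : ((sums m A).card : ℝ) ≤ (sums k A).card := by
      exact_mod_cast sums_le (min_le_left _ _) hAne
    refine le_trans ?_ ((h1.trans h2).trans (le_max_left _ _))
    refine Real.rpow_le_rpow_of_exponent_le (by linarith) (hcc.trans ?_)
    have := mul_le_mul_of_nonneg_left hlogm hc.le
    linarith

open Pool.Agent.H384R3.SPk in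
theorem half_log (k N : ℕ) (hk : 2 ≤ k) (hN : (2 * k) ^ k ≤ N) (A : Finset ℤ) (hA : A.Nonempty) :
    ((A.card : ℝ) / 3) ^ (((k : ℝ) + 1) / 2) ≤
      max ((sumset N A).card : ℝ) ((prodset fun _ : Fin N => A).card : ℝ) := by
  have hk2 : (2:ℝ) ≤ k := by exact_mod_cast hk
  have hk0 : (0:ℝ) < k := by linarith
  have hc0 : (0:ℝ) < 2 * k - 1 := by linarith
  have hkN : k ≤ N := by
    have h1 : k ≤ (2 * k) ^ 1 := by rw [pow_one]; omega
    have h2 : (2 * k) ^ 1 ≤ (2 * k) ^ k := Nat.pow_le_pow_right (by omega) (by omega)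
    omega
  have hN2 : 2 ≤ N := by omega
  have hNr : (2 * (k:ℝ)) ^ k ≤ N := by exact_mod_cast hN
  have hN1 : (2:ℝ) ≤ N := by exact_mod_cast hN2
  -- `(2k)^k ≥ (3/2) (2k-1)^k`
  have h3 : 3 / 2 * (2 * (k:ℝ) - 1) ^ k ≤ N := by
    refine le_trans ?_ hNr
    have h4 := one_add_mul_le_pow (a := 1 / (2 * (k:ℝ) - 1)) (by
      have : (0:ℝ) ≤ 1 / (2 * k - 1) := by positivity
      linarith) k
    have h5 : (3:ℝ) / 2 ≤ 1 + k * (1 / (2 * (k:ℝ) - 1)) := by
      have : (1:ℝ) / 2 ≤ k * (1 / (2 * (k:ℝ) - 1)) := by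
        rw [mul_one_div, div_le_div_iff₀ (by norm_num) hc0]; linarith
      linarith
    have h6 : (2 * (k:ℝ)) ^ k = (1 + 1 / (2 * (k:ℝ) - 1)) ^ k * (2 * (k:ℝ) - 1) ^ k := by
      rw [← mul_pow]; congr 1; field_simp; ring
    rw [h6]
    exact mul_le_mul_of_nonneg_right (h5.trans h4) (by positivity)
  have h7 : (2 * (k:ℝ) - 1) ^ k ≤ (N : ℝ) - (N - 1) / (2 * k - 1) := by
    have : ((N:ℝ) - 1) / (2 * k - 1) ≤ N / 3 := by
      rw [div_le_div_iff₀ hc0 (by norm_num)]
      nlinarith
    linarith
  have hcond : (2 * k - 1 : ℝ) ≤ ((N : ℝ) - (N - 1) / (2 * k - 1)) ^ ((1:ℝ) / k) := by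
    have h8 := Real.rpow_le_rpow (by positivity) h7 (show (0:ℝ) ≤ 1 / k by positivity)
    rw [← Real.rpow_natCast, ← Real.rpow_mul hc0.le] at h8
    have : (k:ℝ) * (1 / k) = 1 := by field_simp
    rwa [this, Real.rpow_one] at h8
  have hm := max_all Pool.Agent.H201R3.SPk.taskG Pool.Agent.H449R3.SPkH.taskH hk hN2 hkN
    (by positivity) hcond A hA
  set X : ℝ := max ((sumset N A).card : ℝ) ((prodset fun _ : Fin N => A).card : ℝ) with hX
  have hX0 : 0 ≤ X := le_max_of_le_left (by positivity)
  have e1 : (k:ℝ) * (1 + 1 / k) = k + 1 := by field_simp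
  have e2 : 1 + (k:ℝ) * (1 / k) = 2 := by field_simp; norm_num
  rw [e1, e2] at hm
  have h9 : ((A.card : ℝ) / 3) ^ ((k:ℝ) + 1) ≤ X ^ (2:ℝ) := by
    rw [Real.div_rpow (by positivity) (by norm_num), div_le_iff₀ (by positivity), mul_comm]
    exact hm
  have h10 := Real.rpow_le_rpow (by positivity) h9 (show (0:ℝ) ≤ 1 / 2 by norm_num)
  rw [← Real.rpow_mul (by positivity), ← Real.rpow_mul hX0] at h10
  have e3 : ((k:ℝ) + 1) * (1 / 2) = (k + 1) / 2 := by ring
  have e4 : (2:ℝ) * (1 / 2) = 1 := by norm_num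
  rwa [e3, e4, Real.rpow_one] at h10

theorem low2 (k : ℕ) (A : Finset ℤ) (hk : 16 ≤ k) (hA : 16 ≤ A.card) :
    (A.card : ℝ) ^ (Real.log k / (8 * Real.log (Real.log k))) ≤ big k A := by
  have hAne : A.Nonempty := Finset.card_pos.1 (by omega)
  have hA' : (16 : ℝ) ≤ A.card := by exact_mod_cast hA
  have hk' : (16 : ℝ) ≤ k := by exact_mod_cast hk
  have hlog2a := Real.log_two_gt_d9
  set K := Real.log k with hK
  have hK2 : 2.77 ≤ K := by
    have h1 : Real.log 16 ≤ K := Real.log_le_log (by norm_num) hk'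
    have h2 : Real.log 16 = 4 * Real.log 2 := by
      rw [show (16 : ℝ) = 2 ^ 4 by norm_num, Real.log_pow]
      norm_num
    linarith
  have hlK1 : 1 ≤ Real.log K := by
    rw [Real.le_log_iff_exp_le (by linarith)]
    have := Real.exp_one_lt_d9
    linarith
  rcases lt_or_ge K 8 with h8 | h8
  · have h1 : K / (8 * Real.log K) ≤ 1 := by
      rw [div_le_one (by linarith)]
      linarith
    have h2 : (A.card : ℝ) ^ (K / (8 * Real.log K)) ≤ A.card := by
      calc (A.card : ℝ) ^ (K / (8 * Real.log K)) ≤ (A.card : ℝ) ^ (1 : ℝ) :=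
            Real.rpow_le_rpow_of_exponent_le (by linarith) h1
        _ = A.card := Real.rpow_one _
    refine h2.trans ?_
    rw [big_cast]
    refine le_trans ?_ (le_max_left _ _)
    exact_mod_cast card_le_sums (by omega) hAne
  · set j := ⌊K / Real.log K⌋₊ with hj
    have hlK2 : 2 ≤ Real.log K := by
      have h1 : Real.log 8 ≤ Real.log K := Real.log_le_log (by norm_num) h8
      have h2 : Real.log 8 = 3 * Real.log 2 := by
        rw [show (8 : ℝ) = 2 ^ 3 by norm_num, Real.log_pow]
        norm_num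
      linarith
    have hlKK : 2 * Real.log K ≤ K := by
      have h1 := Real.log_le_sub_one_of_pos (show (0 : ℝ) < K / 2 by linarith)
      rw [Real.log_div (by linarith) (by norm_num)] at h1
      -- log K ≤ K/2 - 1 + log 2
      have := Real.log_two_lt_d9
      linarith
    have hj0 : (j : ℝ) ≤ K / Real.log K := Nat.floor_le (by positivity)
    have hj1 : K / Real.log K < j + 1 := Nat.lt_floor_add_one _
    have hj2 : 2 ≤ j := Nat.le_floor (by
      push_cast
      rw [le_div_iff₀ (by linarith)]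
      exact hlKK)
    have hjk : (2 * j) ^ j ≤ k := by
      have h1 : (2 * (j : ℝ)) ≤ K := by
        have : K / Real.log K ≤ K / 2 := div_le_div_of_nonneg_left (by linarith) (by norm_num) hlK2
        linarith
      have h2 : (2 * (j : ℝ)) ^ j ≤ K ^ j := pow_le_pow_left₀ (by positivity) h1 _
      have h3 : K ^ j ≤ k := by
        have h4 : K ^ j = Real.exp (j * Real.log K) := by
          rw [mul_comm, Real.exp_mul, Real.exp_log (by linarith), Real.rpow_natCast]
        rw [h4, ← Real.exp_log (show (0 : ℝ) < k by linarith), Real.exp_le_exp]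
        rw [le_div_iff₀ (by linarith)] at hj0
        exact hj0
      exact_mod_cast h2.trans h3
    have h1 := half_log j k hj2 hjk A hAne
    rw [big_cast]
    refine le_trans ?_ h1
    -- n/3 ≥ n^(1/2)
    have h2 : (A.card : ℝ) ^ ((1 : ℝ) / 2) ≤ A.card / 3 := by
      rw [← Real.sqrt_eq_rpow, le_div_iff₀ (by norm_num)]
      have h3 : 3 ≤ Real.sqrt A.card := Real.le_sqrt_of_sq_le (by linarith)
      nlinarith [Real.mul_self_sqrt (show (0 : ℝ) ≤ A.card by linarith), Real.sqrt_nonneg (A.card : ℝ)]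
    calc (A.card : ℝ) ^ (K / (8 * Real.log K)) ≤ ((A.card : ℝ) ^ ((1 : ℝ) / 2)) ^ (((j : ℝ) + 1) / 2) := by
          rw [← Real.rpow_mul (by linarith)]
          refine Real.rpow_le_rpow_of_exponent_le (by linarith) ?_
          have e1 : K / (8 * Real.log K) = (K / Real.log K) / 8 := by
            rw [mul_comm, div_mul_eq_div_div]
          rw [e1]
          linarith
      _ ≤ _ := Real.rpow_le_rpow (by positivity) h2 (by positivity)

/-- few sums and products of powers of two -/
lemma gp (n k : ℕ) (hn : 1 ≤ n) (hk : 1 ≤ k) (h : Real.exp n ≤ k) :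
    ∃ A : Finset ℤ, A.card = n ∧ big k A ≤ k ^ 2 := by
  have hinj : Function.Injective fun i : ℕ => ((2 : ℤ) ^ i) := by
    intro i j h
    have h' : (2 : ℤ) ^ i = 2 ^ j := h
    exact Nat.pow_right_injective (le_refl 2) (by exact_mod_cast h')
  have hn2 : 2 ^ n ≤ k := by
    have h1 : (2 : ℝ) ^ n ≤ Real.exp n := by
      have h2 : Real.exp n = Real.exp 1 ^ n := by
        rw [← Real.exp_nat_mul, mul_one]
      rw [h2]
      exact pow_le_pow_left₀ (by norm_num) (by have := Real.exp_one_gt_d9; linarith) _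
    exact_mod_cast h1.trans h
  have hnk : n ≤ k := (Nat.lt_two_pow_self).le.trans hn2
  refine ⟨(Finset.range n).image fun i => (2 : ℤ) ^ i, ?_, ?_⟩
  · rw [Finset.card_image_of_injective _ hinj, Finset.card_range]
  · unfold big
    refine max_le ?_ ?_
    · have h1 := card_sums_le (k := k) (A := (Finset.range n).image fun i => (2 : ℤ) ^ i) (N := 2 ^ n) hk (by
        intro a ha
        obtain ⟨i, hi, rfl⟩ := Finset.mem_image.1 ha
        rw [Finset.mem_range] at hi
        push_cast
        exact ⟨by positivity, pow_le_pow_right₀ (by norm_num) hi.le⟩)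
      refine h1.trans ?_
      rw [pow_two]
      exact Nat.mul_le_mul_left _ hn2
    · have h1 : prods k ((Finset.range n).image fun i => (2 : ℤ) ^ i) ⊆
          (Finset.range (k * n)).image fun i => (2 : ℤ) ^ i := by
        intro u hu
        obtain ⟨f, hf, rfl⟩ := Finset.mem_image.1 hu
        rw [Fintype.mem_piFinset] at hf
        have hT : ∀ i, ∃ j, j < n ∧ (2 : ℤ) ^ j = f i := by
          intro i
          obtain ⟨j, hj, h⟩ := Finset.mem_image.1 (hf i)
          exact ⟨j, Finset.mem_range.1 hj, h⟩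
        choose T hT1 hT2 using hT
        refine Finset.mem_image.2 ⟨∑ i, T i, ?_, ?_⟩
        · rw [Finset.mem_range]
          calc ∑ i, T i < ∑ _i : Fin k, n :=
                Finset.sum_lt_sum_of_nonempty ⟨⟨0, hk⟩, Finset.mem_univ _⟩ fun i _ => hT1 i
            _ = k * n := by simp
        · rw [← Finset.prod_pow_eq_pow_sum]
          exact Finset.prod_congr rfl fun i _ => hT2 i
      refine (Finset.card_le_card h1).trans (Finset.card_image_le.trans ?_)
      rw [Finset.card_range, pow_two]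
      exact Nat.mul_le_mul_left _ hnk

end Pool.Agent.X9.ES
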