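import Mathlib

set_option autoImplicit false

/-!
# The number of integers with many prime factors above `z`, and of ordered factorisations
-/

namespace Pool.Agent.X9.ES

open Finset

/-- the number of prime factors above `z`, with multiplicity -/
noncomputable def Om (z n : ℕ) : ℕ := n.factorization.sum fun p e => if z < p then e else 0

lemma Om_one (z : ℕ) : Om z 1 = 0 := by simp [Om]

lemma Om_mul {z m n : ℕ} (hm : m ≠ 0) (hn : n ≠ 0) : Om z (m * n) = Om z m + Om z n := by
  unfold Om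
  rw [Nat.factorization_mul hm hn, Finsupp.sum_add_index']
  · intro p; simp
  · intro p a b; split_ifs <;> simp

lemma Om_prime {z p : ℕ} (hp : p.Prime) : Om z p = if z < p then 1 else 0 := by
  unfold Om
  rw [hp.factorization, Finsupp.sum_single_index (by simp)]

lemma Om_prod {z k : ℕ} (f : Fin k → ℕ) (hf : ∀ i, f i ≠ 0) : Om z (∏ i, f i) = ∑ i, Om z (f i) := by
  have h : ∀ s : Finset (Fin k), Om z (∏ i ∈ s, f i) = ∑ i ∈ s, Om z (f i) := by
    intro s
    induction s using Finset.induction_on with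
    | empty => simp [Om_one]
    | insert a s ha ih =>
      rw [Finset.prod_insert ha, Finset.sum_insert ha, Om_mul (hf a) (Finset.prod_ne_zero_iff.2 fun i _ => hf i), ih]
  exact h _

/-- the weight -/
noncomputable def wt (z : ℕ) (s σ : ℝ) : ℕ →* ℝ where
  toFun n := if n = 0 then 0 else s ^ Om z n * (n : ℝ) ^ (-σ)
  map_one' := by simp [Om_one]
  map_mul' m n := by
    rcases eq_or_ne m 0 with rfl | hm
    · simp
    rcases eq_or_ne n 0 with rfl | hn
    · simp
    rw [if_neg (mul_ne_zero hm hn), if_neg hm, if_neg hn, Om_mul hm hn, pow_add, Nat.cast_mul,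
      Real.mul_rpow (by positivity) (by positivity)]
    ring

lemma wt_apply {z : ℕ} {s σ : ℝ} {n : ℕ} (hn : n ≠ 0) : wt z s σ n = s ^ Om z n * (n : ℝ) ^ (-σ) := if_neg hn

lemma wt_nonneg {z : ℕ} {s σ : ℝ} (hs : 0 ≤ s) (n : ℕ) : 0 ≤ wt z s σ n := by
  show 0 ≤ (if n = 0 then 0 else s ^ Om z n * (n : ℝ) ^ (-σ))
  split_ifs
  · exact le_rfl
  · positivity

lemma wt_prime {z : ℕ} {s σ : ℝ} (hs1 : 1 ≤ s) (hsz : 2 * s ≤ z) (hσ : 1 < σ) {p : ℕ} (hp : p.Prime) :
    wt z s σ p ≤ 1 / 2 ∧ wt z s σ p ≤ s * (p : ℝ) ^ (-σ) := by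
  rw [wt_apply hp.ne_zero, Om_prime hp]
  have hp0 : (2 : ℝ) ≤ p := by exact_mod_cast hp.two_le
  have hpp : (p : ℝ) ^ (-σ) ≤ (p : ℝ) ^ (-1 : ℝ) := Real.rpow_le_rpow_of_exponent_le (by linarith) (by linarith)
  rw [Real.rpow_neg_one] at hpp
  have hpos : 0 < (p : ℝ) ^ (-σ) := by positivity
  split_ifs with h
  · rw [pow_one]
    refine ⟨?_, le_rfl⟩
    have h1 : (z : ℝ) ≤ p := by exact_mod_cast h.le
    calc s * (p : ℝ) ^ (-σ) ≤ s * (p : ℝ)⁻¹ := mul_le_mul_of_nonneg_left hpp (by linarith)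
      _ ≤ 1 / 2 := by
        rw [← div_eq_mul_inv, div_le_div_iff₀ (by linarith) (by norm_num)]
        linarith
  · rw [pow_zero, one_mul]
    refine ⟨hpp.trans ?_, ?_⟩
    · rw [inv_le_comm₀ (by linarith) (by norm_num)]
      norm_num
      exact hp.two_le
    · nlinarith

lemma inv_le_exp {x : ℝ} (h0 : 0 ≤ x) (h1 : x ≤ 1 / 2) : (1 - x)⁻¹ ≤ Real.exp (2 * x) := by
  have h2 : (1 - x)⁻¹ ≤ 1 + 2 * x := by
    rw [inv_le_comm₀ (by linarith) (by linarith), inv_le_iff_one_le_mul₀ (by linarith)]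
    nlinarith
  have := Real.add_one_le_exp (2 * x)
  linarith

/-- the sum of `n ^ (-σ)` -/
noncomputable def Z (σ : ℝ) : ℝ := ∑' n : ℕ, (n : ℝ) ^ (-σ)

lemma rankin_sum {z : ℕ} {s σ : ℝ} (hs1 : 1 ≤ s) (hsz : 2 * s ≤ z) (hσ : 1 < σ) (X : ℕ) :
    ∑ n ∈ Finset.Icc 1 X, wt z s σ n ≤ Real.exp (2 * s * Z σ) := by
  classical
  have hf : ∀ {p : ℕ}, p.Prime → ‖wt z s σ p‖ < 1 := by
    intro p hp
    rw [Real.norm_of_nonneg (wt_nonneg (by linarith) p)]
    have := (wt_prime hs1 hsz hσ hp).1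
    linarith
  obtain ⟨-, h2⟩ := EulerProduct.summable_and_hasSum_smoothNumbers_prod_primesBelow_geometric hf (X + 1)
  have h3 := sum_le_hasSum ((Finset.Icc 1 X).subtype (· ∈ (X + 1).smoothNumbers))
    (fun m _ => wt_nonneg (by linarith) _) h2
  have h4 : ∑ m ∈ (Finset.Icc 1 X).subtype (· ∈ (X + 1).smoothNumbers), wt z s σ m =
      ∑ n ∈ Finset.Icc 1 X, wt z s σ n := by
    rw [Finset.sum_subtype_eq_sum_filter (f := fun n => wt z s σ n)]
    refine Finset.sum_congr ?_ fun _ _ => rfl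
    refine Finset.filter_true_of_mem fun n hn => ?_
    rw [Finset.mem_Icc] at hn
    rw [Nat.mem_smoothNumbers]
    refine ⟨by omega, fun p hp => ?_⟩
    have := Nat.le_of_mem_primeFactorsList hp
    omega
  rw [h4] at h3
  refine h3.trans ?_
  have hsum : Summable fun n : ℕ => (n : ℝ) ^ (-σ) := Real.summable_nat_rpow.2 (by linarith)
  calc ∏ p ∈ (X + 1).primesBelow, (1 - wt z s σ p)⁻¹
      ≤ ∏ p ∈ (X + 1).primesBelow, Real.exp (2 * (s * (p : ℝ) ^ (-σ))) := by
        refine Finset.prod_le_prod (fun p hp => ?_) (fun p hp => ?_)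
        · have := (wt_prime hs1 hsz hσ (Nat.prime_of_mem_primesBelow hp)).1
          rw [inv_nonneg]
          linarith
        · have h5 := wt_prime hs1 hsz hσ (Nat.prime_of_mem_primesBelow hp)
          refine (inv_le_exp (wt_nonneg (by linarith) p) h5.1).trans ?_
          rw [Real.exp_le_exp]
          linarith [h5.2]
    _ = Real.exp (2 * s * ∑ p ∈ (X + 1).primesBelow, (p : ℝ) ^ (-σ)) := by
        rw [← Real.exp_sum, Finset.mul_sum]
        congr 1
        exact Finset.sum_congr rfl fun p _ => by ring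
    _ ≤ _ := by
        rw [Real.exp_le_exp]
        refine mul_le_mul_of_nonneg_left ?_ (by linarith)
        exact hsum.sum_le_tsum _ (fun n _ => by positivity)

/-- few integers have many prime factors above `z` -/
theorem rankin {z : ℕ} {s σ : ℝ} (hs1 : 1 ≤ s) (hsz : 2 * s ≤ z) (hσ : 1 < σ) (X M : ℕ) (hX : 1 ≤ X) :
    (((Finset.Icc 1 X).filter fun n => M ≤ Om z n).card : ℝ) ≤
      (X : ℝ) ^ σ * Real.exp (2 * s * Z σ) / s ^ M := by
  have hX' : (1 : ℝ) ≤ X := by exact_mod_cast hX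
  have h1 : (((Finset.Icc 1 X).filter fun n => M ≤ Om z n).card : ℝ) * (s ^ M * (X : ℝ) ^ (-σ)) ≤
      ∑ n ∈ Finset.Icc 1 X, wt z s σ n := by
    rw [← nsmul_eq_mul, ← Finset.sum_const]
    refine le_trans (Finset.sum_le_sum (g := fun n => wt z s σ n) fun n hn => ?_)
      (Finset.sum_le_sum_of_subset_of_nonneg (Finset.filter_subset _ _) fun n _ _ => wt_nonneg (by linarith) n)
    obtain ⟨hn1, hn2⟩ := Finset.mem_filter.1 hn
    rw [Finset.mem_Icc] at hn1
    rw [wt_apply (by omega)]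
    have hn' : (1 : ℝ) ≤ n := by exact_mod_cast hn1.1
    have hnX : (n : ℝ) ≤ X := by exact_mod_cast hn1.2
    refine mul_le_mul (pow_le_pow_right₀ hs1 hn2) ?_ (by positivity) (by positivity)
    rw [Real.rpow_neg (by linarith), Real.rpow_neg (by linarith)]
    exact inv_anti₀ (by positivity) (Real.rpow_le_rpow (by linarith) hnX (by linarith))
  have h2 := h1.trans (rankin_sum hs1 hsz hσ X)
  rw [le_div_iff₀ (by positivity)]
  have h3 : (X : ℝ) ^ (-σ) * (X : ℝ) ^ σ = 1 := by
    rw [← Real.rpow_add (by linarith)]; simp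
  have h4 : 0 < (X : ℝ) ^ σ := by positivity
  calc (((Finset.Icc 1 X).filter fun n => M ≤ Om z n).card : ℝ) * s ^ M
      = (((Finset.Icc 1 X).filter fun n => M ≤ Om z n).card : ℝ) * (s ^ M * (X : ℝ) ^ (-σ)) * (X : ℝ) ^ σ := by
        rw [mul_assoc, mul_assoc, h3, mul_one]
    _ ≤ Real.exp (2 * s * Z σ) * (X : ℝ) ^ σ := mul_le_mul_of_nonneg_right h2 h4.le
    _ = _ := by ring

/-! ## ordered factorisations -/

lemma fma_div {k u p : ℕ} (hp : p.Prime) (hpu : p ∣ u) (hu : u ≠ 0) :
    (Nat.finMulAntidiag k u).card ≤ k * (Nat.finMulAntidiag k (u / p)).card := by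
  classical
  have key : ∀ f ∈ Nat.finMulAntidiag k u, ∃ i, p ∣ f i := by
    intro f hf
    rw [Nat.mem_finMulAntidiag] at hf
    rw [← hf.1] at hpu
    obtain ⟨i, -, hi⟩ := (hp.prime.dvd_finsetProd_iff _).1 hpu
    exact ⟨i, hi⟩
  have hprod : ∀ (f : Fin k → ℕ) (i : Fin k), p ∣ f i → (∏ j, f j) = p * ∏ j, (Function.update f i (f i / p)) j := by
    intro f i hi
    rw [Finset.prod_update_of_mem (Finset.mem_univ i), ← mul_assoc, Nat.mul_div_cancel' hi]
    rw [Finset.sdiff_singleton_eq_erase, Finset.mul_prod_erase _ _ (Finset.mem_univ i)]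
  have h1 : (Nat.finMulAntidiag k u) ⊆ ((Finset.univ : Finset (Fin k)) ×ˢ Nat.finMulAntidiag k (u / p)).image
      fun q => Function.update q.2 q.1 (p * q.2 q.1) := by
    intro f hf
    obtain ⟨i, hi⟩ := key f hf
    rw [Nat.mem_finMulAntidiag] at hf
    refine Finset.mem_image.2 ⟨(i, Function.update f i (f i / p)), ?_, ?_⟩
    · rw [Finset.mem_product, Nat.mem_finMulAntidiag]
      refine ⟨Finset.mem_univ _, ?_, ?_⟩
      · have h2 := hprod f i hi
        rw [hf.1] at h2
        show (∏ j, (Function.update f i (f i / p)) j) = u / p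
        rw [h2, Nat.mul_div_cancel_left _ hp.pos]
      · exact (Nat.div_pos (Nat.le_of_dvd (Nat.pos_of_ne_zero hu) hpu) hp.pos).ne'
    · show Function.update (Function.update f i (f i / p)) i (p * (Function.update f i (f i / p)) i) = f
      rw [Function.update_self, Function.update_idem, Nat.mul_div_cancel' hi, Function.update_eq_self]
  refine (Finset.card_le_card h1).trans (Finset.card_image_le.trans ?_)
  rw [Finset.card_product, Finset.card_univ, Fintype.card_fin]

lemma fma_smooth {k z u : ℕ} (hu : u ≠ 0) (h : Om z u = 0) :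
    (Nat.finMulAntidiag k u).card ≤ (Nat.log 2 u + 1) ^ (z * k) := by
  classical
  have h1 : (Nat.finMulAntidiag k u) ⊆ Fintype.piFinset fun _ : Fin k => u.divisors := by
    intro f hf
    rw [Nat.mem_finMulAntidiag] at hf
    rw [Fintype.mem_piFinset]
    intro i
    rw [Nat.mem_divisors]
    refine ⟨?_, hu⟩
    rw [← hf.1]
    exact Finset.dvd_prod_of_mem _ (Finset.mem_univ i)
  refine (Finset.card_le_card h1).trans ?_
  rw [Fintype.card_piFinset]
  simp only [Finset.prod_const, Finset.card_univ, Fintype.card_fin]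
  rw [pow_mul]
  refine Nat.pow_le_pow_left ?_ k
  rw [Nat.card_divisors hu]
  have h2 : ∀ p ∈ u.primeFactors, p ≤ z := by
    intro p hp
    by_contra hcon
    push Not at hcon
    unfold Om at h
    rw [Finsupp.sum, Finset.sum_eq_zero_iff] at h
    have h3 := h p (by rwa [Nat.support_factorization])
    rw [if_pos hcon] at h3
    have h4 := (Nat.prime_of_mem_primeFactors hp).factorization_pos_of_dvd hu (Nat.dvd_of_mem_primeFactors hp)
    omega
  have h3 : ∏ x ∈ u.primeFactors, (u.factorization x + 1) ≤ ∏ _x ∈ u.primeFactors, (Nat.log 2 u + 1) := by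
    refine Finset.prod_le_prod' fun p hp => ?_
    have hpp := Nat.prime_of_mem_primeFactors hp
    have h4 : 2 ^ u.factorization p ≤ u :=
      (Nat.pow_le_pow_left hpp.two_le _).trans (Nat.le_of_dvd (Nat.pos_of_ne_zero hu) (Nat.ordProj_dvd u p))
    have h5 := Nat.le_log_of_pow_le (by norm_num : 1 < 2) h4
    omega
  refine h3.trans ?_
  rw [Finset.prod_const]
  refine Nat.pow_le_pow_right (by omega) ?_
  have h4 : u.primeFactors ⊆ Finset.Icc 1 z := by
    intro p hp
    rw [Finset.mem_Icc]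
    exact ⟨(Nat.prime_of_mem_primeFactors hp).pos, h2 p hp⟩
  simpa using Finset.card_le_card h4

/-- the number of ordered factorisations -/
theorem fma_le {k z : ℕ} : ∀ (n u : ℕ), u ≠ 0 → Om z u = n →
    (Nat.finMulAntidiag k u).card ≤ k ^ n * (Nat.log 2 u + 1) ^ (z * k) := by
  intro n
  induction n with
  | zero =>
    intro u hu h
    rw [pow_zero, one_mul]
    exact fma_smooth hu h
  | succ n ih =>
    intro u hu h
    have h1 : ∃ p, p.Prime ∧ p ∣ u ∧ z < p := by
      by_contra hcon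
      push Not at hcon
      have h2 : Om z u = 0 := by
        unfold Om
        rw [Finsupp.sum, Finset.sum_eq_zero_iff]
        intro p hp
        rw [Nat.support_factorization] at hp
        have := hcon p (Nat.prime_of_mem_primeFactors hp) (Nat.dvd_of_mem_primeFactors hp)
        rw [if_neg (by omega)]
      omega
    obtain ⟨p, hp, hpu, hzp⟩ := h1
    obtain ⟨w, rfl⟩ := hpu
    have hw : w ≠ 0 := by rintro rfl; simp at hu
    have h2 : Om z w = n := by
      rw [Om_mul hp.ne_zero hw, Om_prime hp, if_pos hzp] at h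
      omega
    have h3 := fma_div (k := k) hp (Dvd.intro w rfl) hu
    rw [Nat.mul_div_cancel_left _ hp.pos] at h3
    refine h3.trans ?_
    have h4 := ih w hw h2
    have h5 : Nat.log 2 w ≤ Nat.log 2 (p * w) := Nat.log_mono_right (Nat.le_mul_of_pos_left _ hp.pos)
    calc k * (Nat.finMulAntidiag k w).card ≤ k * (k ^ n * (Nat.log 2 w + 1) ^ (z * k)) :=
          Nat.mul_le_mul_left _ h4
      _ ≤ k * (k ^ n * (Nat.log 2 (p * w) + 1) ^ (z * k)) :=
          Nat.mul_le_mul_left _ (Nat.mul_le_mul_left _ (Nat.pow_le_pow_left (by omega) _))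
      _ = _ := by ring

end Pool.Agent.X9.ES
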