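import Pool.Agent.X9.ES.Up

set_option autoImplicit false

/-!
# Products of `m` distinct primes out of `t`
-/

namespace Pool.Agent.X9.ES

open Finset

/-- the set of the products of `m` distinct primes of `P` -/
lemma slice (P : Finset ℕ) (hP : ∀ p ∈ P, p.Prime) (y : ℕ) (hy : ∀ p ∈ P, p ≤ y) (m : ℕ) :
    ∃ D : Finset ℤ, D.card = P.card.choose m ∧ (∀ a ∈ D, 0 < a ∧ a ≤ (y : ℤ) ^ m) ∧
      ∀ k, (prods k D).card ≤ (P.card + k * m - 1).choose (k * m) := by
  classical
  refine ⟨(P.powersetCard m).image fun T => ((∏ p ∈ T, p : ℕ) : ℤ), ?_, ?_, ?_⟩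
  · rw [Finset.card_image_of_injOn, Finset.card_powersetCard]
    intro T hT U hU h
    rw [Finset.mem_coe, Finset.mem_powersetCard] at hT hU
    have h1 : ∏ p ∈ T, p = ∏ p ∈ U, p := by
      have h' : ((∏ p ∈ T, p : ℕ) : ℤ) = ((∏ p ∈ U, p : ℕ) : ℤ) := h
      exact_mod_cast h'
    have hpf : ∀ V ⊆ P, (∏ p ∈ V, p).primeFactors = V := by
      intro V hV
      exact Nat.primeFactors_prod fun p hp => hP p (hV hp)
    rw [← hpf T hT.1, ← hpf U hU.1, h1]
  · intro a ha
    obtain ⟨T, hT, rfl⟩ := Finset.mem_image.1 ha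
    rw [Finset.mem_powersetCard] at hT
    constructor
    · exact_mod_cast Finset.prod_pos fun p hp => (hP p (hT.1 hp)).pos
    · have h1 : ∏ p ∈ T, p ≤ ∏ _p ∈ T, y := Finset.prod_le_prod' fun p hp => hy p (hT.1 hp)
      rw [Finset.prod_const, hT.2] at h1
      exact_mod_cast h1
  · intro k
    have h1 : prods k ((P.powersetCard m).image fun T => ((∏ p ∈ T, p : ℕ) : ℤ)) ⊆
        (Finset.univ : Finset (Sym P (k * m))).image fun x : Sym P (k * m) =>
          (((x.1.map fun p : P => (p : ℕ)).prod : ℕ) : ℤ) := by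
      intro u hu
      unfold prods at hu
      obtain ⟨f, hf, rfl⟩ := Finset.mem_image.1 hu
      rw [Fintype.mem_piFinset] at hf
      have hT : ∀ i, ∃ T : Finset P, T.card = m ∧ ((∏ p ∈ T, (p : ℕ) : ℕ) : ℤ) = f i := by
        intro i
        obtain ⟨T, hT, h⟩ := Finset.mem_image.1 (hf i)
        rw [Finset.mem_powersetCard] at hT
        refine ⟨T.subtype (· ∈ P), ?_, ?_⟩
        · rw [Finset.card_subtype, Finset.filter_true_of_mem fun p hp => hT.1 hp, hT.2]
        · rw [← h]
          congr 1
          rw [Finset.prod_subtype_eq_prod_filter (f := fun p : ℕ => p), Finset.filter_true_of_mem fun p hp => hT.1 hp]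
      choose T hTc hTf using hT
      refine Finset.mem_image.2 ⟨⟨∑ i, (T i).val, ?_⟩, Finset.mem_univ _, ?_⟩
      · rw [Multiset.card_sum]
        simp [hTc]
      · have h3 : (∏ i, f i) = ((∏ i, ∏ p ∈ T i, (p : ℕ) : ℕ) : ℤ) := by
          push_cast
          refine Finset.prod_congr rfl fun i _ => ?_
          rw [← hTf i]
          push_cast
          rfl
        rw [h3]
        congr 1
        show ((Multiset.map (fun p : P => (p : ℕ)) (∑ i, (T i).val)).prod) = _
        rw [← Multiset.coe_mapAddMonoidHom, map_sum, Multiset.prod_sum]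
        rfl
    refine (Finset.card_le_card h1).trans (Finset.card_image_le.trans ?_)
    rw [Finset.card_univ, Sym.card_sym_eq_choose, Fintype.card_coe]

lemma log_fact_le (m : ℕ) (hm : 1 ≤ m) :
    Real.log (m.factorial : ℝ) ≤ ((m : ℝ) + 1) * Real.log m + 1 - m := by
  induction m, hm using Nat.le_induction with
  | base => simp
  | succ m hm ih =>
    have hm' : (1 : ℝ) ≤ m := by exact_mod_cast hm
    rw [Nat.factorial_succ]
    push_cast
    rw [Real.log_mul (by positivity) (by positivity)]
    have h1 := Real.one_sub_inv_le_log_of_pos (show 0 < ((m : ℝ) + 1) / m by positivity)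
    rw [Real.log_div (by positivity) (by positivity), inv_div] at h1
    have h2 : ((m : ℝ) + 1) * (1 - m / (m + 1)) = 1 := by field_simp; ring
    have h3 : 1 ≤ ((m : ℝ) + 1) * (Real.log (m + 1) - Real.log m) :=
      h2.symm.le.trans (mul_le_mul_of_nonneg_left h1 (show (0 : ℝ) ≤ (m : ℝ) + 1 by linarith))
    nlinarith

lemma log_fact_ge (m : ℕ) (hm : 1 ≤ m) : (m : ℝ) * Real.log m - m ≤ Real.log (m.factorial : ℝ) := by
  have hm' : (1 : ℝ) ≤ m := by exact_mod_cast hm
  have h := Real.pow_div_factorial_le_exp (m : ℝ) (by linarith) m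
  rw [div_le_iff₀ (by positivity)] at h
  have h2 := Real.log_le_log (by positivity) h
  rw [Real.log_pow, Real.log_mul (Real.exp_ne_zero _) (by positivity), Real.log_exp] at h2
  linarith

/-- the numerical bound for the product set -/
lemma slice_bound {n t m k : ℕ} (hk : 1 ≤ k) (hm : 1 ≤ m) (hmt : 2 * m ≤ t) (hn : t.choose (m - 1) < n) :
    Real.log (((t + k * m - 1).choose (k * m) : ℕ) : ℝ) ≤
      k * Real.log n - k * m * Real.log k + k * Real.log m + k + k * Real.log t +
        2 * k * (k + 1) * m ^ 2 / t := by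
  have hk' : (1 : ℝ) ≤ k := by exact_mod_cast hk
  have hm' : (1 : ℝ) ≤ m := by exact_mod_cast hm
  have hmt' : 2 * (m : ℝ) ≤ t := by exact_mod_cast hmt
  have ht' : (2 : ℝ) ≤ t := by linarith
  have hkm : 1 ≤ k * m := Nat.mul_pos hk hm
  have hkm' : (1 : ℝ) ≤ (k : ℝ) * m := by exact_mod_cast hkm
  -- the upper bound
  have h1 : Real.log (((t + k * m - 1).choose (k * m) : ℕ) : ℝ) ≤
      k * m * Real.log (t + k * m) - (k * m * Real.log (k * m) - k * m) := by
    have h2 := Nat.choose_le_pow_div (α := ℝ) (k * m) (t + k * m - 1)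
    have h3 : (0 : ℝ) < ((t + k * m - 1).choose (k * m) : ℕ) := by
      exact_mod_cast Nat.choose_pos (by omega)
    have h4 : ((t + k * m - 1 : ℕ) : ℝ) ≤ t + k * m := by
      have : ((t + k * m - 1 : ℕ) : ℝ) ≤ ((t + k * m : ℕ) : ℝ) := by exact_mod_cast Nat.sub_le _ _
      push_cast at this
      exact this
    have h5 : (((t + k * m - 1).choose (k * m) : ℕ) : ℝ) ≤
        ((t : ℝ) + k * m) ^ (k * m) / ((k * m).factorial : ℝ) := by
      refine h2.trans ?_
      exact div_le_div_of_nonneg_right (pow_le_pow_left₀ (by positivity) h4 _) (by positivity)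
    have h6 := Real.log_le_log h3 h5
    rw [Real.log_div (by positivity) (by positivity), Real.log_pow] at h6
    have h7 := log_fact_ge (k * m) hkm
    push_cast at h6 h7
    linarith
  -- the lower bound for n
  have h2 : Real.log (t.choose m : ℝ) - Real.log t ≤ Real.log n := by
    have h3 : t.choose m ≤ t * t.choose (m - 1) := by
      have h4 := Nat.choose_succ_right_eq t (m - 1)
      rw [Nat.sub_add_cancel hm] at h4
      calc t.choose m ≤ t.choose m * m := Nat.le_mul_of_pos_right _ hm
        _ = t.choose (m - 1) * (t - (m - 1)) := h4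
        _ ≤ t.choose (m - 1) * t := Nat.mul_le_mul_left _ (Nat.sub_le _ _)
        _ = _ := mul_comm _ _
    have h4 : t.choose m ≤ t * n := h3.trans (Nat.mul_le_mul_left _ hn.le)
    have h5 : (0 : ℝ) < t.choose m := by exact_mod_cast Nat.choose_pos (by omega)
    have h6 : (t.choose m : ℝ) ≤ t * n := by exact_mod_cast h4
    have hn0 : (0 : ℝ) < n := by
      have : 0 < n := by omega
      exact_mod_cast this
    have h7 := Real.log_le_log h5 h6
    rw [Real.log_mul (by linarith) (by linarith)] at h7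
    linarith
  have h3 : (m : ℝ) * Real.log (t + 1 - m) - ((m + 1) * Real.log m + 1 - m) ≤ Real.log (t.choose m : ℝ) := by
    have h4 := Nat.pow_le_choose (α := ℝ) m t
    have h5 : ((t + 1 - m : ℕ) : ℝ) = (t : ℝ) + 1 - m := by
      rw [Nat.cast_sub (by omega)]; push_cast; ring
    rw [h5] at h4
    have h6 : 0 < (t : ℝ) + 1 - m := by linarith
    have h7 := Real.log_le_log (by positivity) h4
    rw [Real.log_div (by positivity) (by positivity), Real.log_pow] at h7
    have h8 := log_fact_le m hm
    linarith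
  -- the quotient
  have h4 : Real.log (t + k * m) - Real.log (t + 1 - m) ≤ 2 * (k + 1) * m / t := by
    have h6 : 0 < (t : ℝ) + 1 - m := by linarith
    rw [← Real.log_div (by positivity) h6.ne']
    have h7 := Real.log_le_sub_one_of_pos (show 0 < ((t : ℝ) + k * m) / (t + 1 - m) by positivity)
    refine h7.trans ?_
    have h8 : ((t : ℝ) + k * m) / (t + 1 - m) - 1 = (k * m + m - 1) / (t + 1 - m) := by
      field_simp
      ring
    rw [h8, div_le_div_iff₀ h6 (by linarith)]
    nlinarith
  have h5 : (k : ℝ) * m * (Real.log (t + k * m) - Real.log (t + 1 - m)) ≤ k * m * (2 * (k + 1) * m / t) :=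
    mul_le_mul_of_nonneg_left h4 (by positivity)
  have h6 : (k : ℝ) * m * (2 * (k + 1) * m / t) = 2 * k * (k + 1) * m ^ 2 / t := by ring
  have h7 : Real.log ((k : ℝ) * m) = Real.log k + Real.log m := Real.log_mul (by positivity) (by positivity)
  have h8 : (k : ℝ) * ((m : ℝ) * Real.log (t + 1 - m) - ((m + 1) * Real.log m + 1 - m) - Real.log t) ≤
      k * Real.log n := mul_le_mul_of_nonneg_left (by linarith) (by linarith)
  rw [h7] at h1
  rw [h6] at h5
  nlinarith

end Pool.Agent.X9.ES
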