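import Pool.Agent.X9.ES.Unif

set_option autoImplicit false

/-!
# The threshold `k = log log n / log log log n`
-/

namespace Pool.Agent.X9.ES

open Finset Filter

lemma two_log_ge {x : ℝ} (hx : 16 ≤ x) : 2.77 ≤ Real.log x := by
  have hlog2a := Real.log_two_gt_d9
  have h1 : Real.log 16 ≤ Real.log x := Real.log_le_log (by norm_num) hx
  have h2 : Real.log 16 = 4 * Real.log 2 := by
    rw [show (16 : ℝ) = 2 ^ 4 by norm_num, Real.log_pow]
    norm_num
  linarith

/-- for `k ≥ C log log n / log log log n` the exponent is at most `ε k` -/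
theorem threshold (ε : ℝ) (hε : 0 < ε) : ∃ C : ℝ, 0 < C ∧ ∃ n₀ : ℕ, ∀ n k : ℕ, n₀ ≤ n →
    C * (Real.log (Real.log n) / Real.log (Real.log (Real.log n))) ≤ k →
    ∃ A : Finset ℤ, (∀ a ∈ A, 0 < a) ∧ A.card = n ∧ (big k A : ℝ) ≤ (n : ℝ) ^ (ε * k) := by
  set C : ℝ := max (600 / ε) 2 with hC
  have hC2 : 2 ≤ C := le_max_right _ _
  have hCε : 600 / ε ≤ C := le_max_left _ _
  -- `800 (log k)^2 ≤ ε k` eventually
  have hev : ∀ᶠ k : ℕ in atTop, 800 * (Real.log k) ^ 2 ≤ ε * k := by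
    have h1 : (fun x : ℝ => Real.log x ^ 2) =o[atTop] fun x : ℝ => x :=
      Real.isLittleO_pow_log_id_atTop
    have h3 := tendsto_natCast_atTop_atTop.eventually (h1.bound (show 0 < ε / 800 by positivity))
    filter_upwards [h3, Filter.eventually_ge_atTop 1] with k hk hk1
    have hk1' : (1 : ℝ) ≤ k := by exact_mod_cast hk1
    rw [Real.norm_of_nonneg (by positivity), Real.norm_of_nonneg (by linarith)] at hk
    have e1 : ε / 800 * (k : ℝ) = ε * k / 800 := by ring
    rw [e1, le_div_iff₀ (by norm_num)] at hk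
    linarith
  obtain ⟨k₁, hk₁⟩ := Filter.eventually_atTop.1 hev
  -- `k₁ ≤ exp (sqrt (log log n))` eventually
  have hev2 : ∀ᶠ n : ℕ in atTop, (k₁ : ℝ) ≤ Real.exp (Real.sqrt (Real.log (Real.log n))) := by
    have h1 : Tendsto (fun n : ℕ => Real.exp (Real.sqrt (Real.log (Real.log n)))) atTop atTop :=
      Real.tendsto_exp_atTop.comp (Real.tendsto_sqrt_atTop.comp
        (Real.tendsto_log_atTop.comp (Real.tendsto_log_atTop.comp tendsto_natCast_atTop_atTop)))
    exact h1.eventually_ge_atTop _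
  have hev3 : ∀ᶠ n : ℕ in atTop, (Real.exp 1 : ℝ) ≤ Real.log (Real.log n) := by
    have h1 : Tendsto (fun n : ℕ => Real.log (Real.log n)) atTop atTop :=
      (Real.tendsto_log_atTop.comp (Real.tendsto_log_atTop.comp tendsto_natCast_atTop_atTop))
    exact h1.eventually_ge_atTop _
  obtain ⟨n₁, hn₁⟩ := Filter.eventually_atTop.1 (hev2.and hev3)
  refine ⟨C, by linarith, max n₁ 16, fun n k hn hkn => ?_⟩
  obtain ⟨hA, hB⟩ := hn₁ n ((le_max_left _ _).trans hn)
  have hn16 : 16 ≤ n := (le_max_right _ _).trans hn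
  have hn' : (16 : ℝ) ≤ n := by exact_mod_cast hn16
  have hn0 : (0 : ℝ) < n := by linarith
  have hn1 : (1 : ℝ) ≤ n := by linarith
  have hL := two_log_ge hn'
  set L := Real.log n with hLd
  set ℓ := Real.log L with hℓ
  have he1 := Real.exp_one_gt_d9
  have hℓ1 : 1 ≤ ℓ := by linarith
  have hlam1 : 1 ≤ Real.log ℓ := by
    rw [Real.le_log_iff_exp_le (by linarith)]
    exact hB
  set lam := Real.log ℓ with hlam
  have hlamℓ : lam ≤ ℓ := by
    have := Real.log_le_sub_one_of_pos (show 0 < ℓ by linarith)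
    linarith
  have hq1 : 1 ≤ ℓ / lam := by
    rw [le_div_iff₀ (by linarith)]
    linarith
  have hk' : (2 : ℝ) ≤ k := by
    refine le_trans ?_ hkn
    nlinarith
  have hk2 : 2 ≤ k := by exact_mod_cast hk'
  set K := Real.log k with hK
  have hK0 : 0 < K := Real.log_pos (by linarith)
  have hsq : Real.sqrt ℓ * Real.sqrt ℓ = ℓ := Real.mul_self_sqrt (by linarith)
  have hsq1 : 1 ≤ Real.sqrt ℓ := by
    rw [Real.one_le_sqrt]
    exact hℓ1
  rcases le_or_gt K (Real.sqrt ℓ) with hc | hc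
  · -- small `k`
    have hKℓ : K ≤ ℓ := by nlinarith
    have hkL : (k : ℝ) ≤ L := by
      rw [← Real.log_le_log_iff (by linarith) (by linarith)]
      exact hKℓ
    obtain ⟨A, hA1, hA2, hA3⟩ := unif hn16 hk2 hkL
    refine ⟨A, hA1, hA2, hA3.trans (Real.rpow_le_rpow_of_exponent_le hn1 ?_)⟩
    have h1 : Real.sqrt ℓ ≤ Real.exp 1 * ℓ / K := by
      rw [le_div_iff₀ hK0]
      calc Real.sqrt ℓ * K ≤ Real.sqrt ℓ * Real.sqrt ℓ := mul_le_mul_of_nonneg_left hc (by linarith)
        _ = ℓ := hsq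
        _ ≤ Real.exp 1 * ℓ := by nlinarith
    have h2 : lam / 2 ≤ Real.log (Real.exp 1 * ℓ / K) := by
      have h3 := Real.log_le_log (by linarith) h1
      rwa [Real.log_sqrt (by linarith)] at h3
    have h3 : ℓ / Real.log (Real.exp 1 * ℓ / K) ≤ ℓ / (lam / 2) :=
      div_le_div_of_nonneg_left (by linarith) (by linarith) h2
    have h4 : 300 * (ℓ / (lam / 2)) = 600 * (ℓ / lam) := by field_simp; ring
    have h5 : 600 / ε * (ℓ / lam) ≤ k := le_trans (mul_le_mul_of_nonneg_right hCε (by linarith)) hkn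
    have h6 : 600 * (ℓ / lam) ≤ ε * k := by
      have h7 := mul_le_mul_of_nonneg_left h5 hε.le
      have e1 : ε * (600 / ε * (ℓ / lam)) = 600 * (ℓ / lam) := by field_simp
      linarith
    calc 300 * (ℓ / Real.log (Real.exp 1 * ℓ / K)) ≤ 300 * (ℓ / (lam / 2)) :=
          mul_le_mul_of_nonneg_left h3 (by norm_num)
      _ = 600 * (ℓ / lam) := h4
      _ ≤ ε * k := h6
  · -- large `k`
    obtain ⟨A, hA1, hA2, hA3⟩ := upper' hn16 hk2
    rw [← big_cast] at hA3
    refine ⟨A, hA1, hA2, hA3.trans (Real.rpow_le_rpow_of_exponent_le hn1 ?_)⟩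
    have hk1 : k₁ ≤ k := by
      have h1 : Real.exp (Real.sqrt ℓ) ≤ k := by
        rw [← Real.le_log_iff_exp_le (by linarith)]
        exact hc.le
      have h2 : (k₁ : ℝ) ≤ k := hA.trans h1
      exact_mod_cast h2
    have h1 := hk₁ k hk1
    have hℓK : ℓ ≤ K ^ 2 := by
      rw [← hsq, sq]
      exact mul_le_mul hc.le hc.le (by linarith) hK0.le
    have hK1 : 1 ≤ K := hsq1.trans hc.le
    have hKK : K ≤ K ^ 2 := by nlinarith
    have h6 : (0.69 : ℝ) ≤ Real.log (2 + min K n / ℓ) := by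
      have h7 : 0 ≤ min K n / ℓ := div_nonneg (le_min (by linarith) (by linarith)) (by linarith)
      have := Real.log_le_log (by norm_num) (show (2 : ℝ) ≤ 2 + min K n / ℓ by linarith)
      have := Real.log_two_gt_d9
      linarith
    have h7 : max K ℓ ≤ K ^ 2 := max_le hKK hℓK
    have h8 : max K ℓ / Real.log (2 + min K n / ℓ) ≤ 2 * K ^ 2 := by
      rw [div_le_iff₀ (by linarith)]
      have h9 : (0 : ℝ) ≤ K ^ 2 := by positivity
      nlinarith
    linarith

/-- the constants of the conjecture -/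
theorem constants2 (δ : ℝ) (hδ : 0 < δ) : ∃ η : ℝ, 0 < η ∧ ∃ k₀ : ℕ, ∀ k : ℕ, k₀ ≤ k →
    ∀ c : ℝ, (∀ A : Finset ℤ, A.Nonempty → (∀ a ∈ A, 0 < a) →
      c * (A.card : ℝ) ^ (δ * k) ≤ big k A) →
      c ≤ Real.exp (-Real.exp (η * (k * Real.log k))) := by
  obtain ⟨C, hC, n₀, h⟩ := threshold (δ / 2) (by positivity)
  set η : ℝ := 1 / (4 * C) with hη
  have hη0 : 0 < η := by positivity
  have htk : Tendsto (fun k : ℕ => (k : ℝ)) atTop atTop := tendsto_natCast_atTop_atTop
  have htlk : Tendsto (fun k : ℕ => Real.log k) atTop atTop := Real.tendsto_log_atTop.comp htk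
  have hev1 : ∀ᶠ k : ℕ in atTop, 4 / η ≤ (k : ℝ) := htk.eventually_ge_atTop _
  have hev2 : ∀ᶠ k : ℕ in atTop, 2 / δ ≤ (k : ℝ) := htk.eventually_ge_atTop _
  have hev3 : ∀ᶠ k : ℕ in atTop, (n₀ : ℝ) ≤ (k : ℝ) := htk.eventually_ge_atTop _
  have hev4 : ∀ᶠ k : ℕ in atTop, (1 : ℝ) ≤ Real.log k := htlk.eventually_ge_atTop _
  have hev5 : ∀ᶠ k : ℕ in atTop, 2 * (-Real.log η) ≤ Real.log k := htlk.eventually_ge_atTop _
  obtain ⟨k₁, hk₁⟩ := Filter.eventually_atTop.1 (hev1.and (hev2.and (hev3.and (hev4.and hev5))))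
  refine ⟨η, hη0, max k₁ 2, fun k hk c hcA => ?_⟩
  obtain ⟨q1, q2, q3, q4, q5⟩ := hk₁ k ((le_max_left _ _).trans hk)
  have hk2 : 2 ≤ k := (le_max_right _ _).trans hk
  have hk' : (2 : ℝ) ≤ k := by exact_mod_cast hk2
  set K := Real.log k with hK
  have hηk : 4 ≤ η * k := by rw [div_le_iff₀ hη0] at q1; linarith
  have hδk : 2 ≤ δ * k := by rw [div_le_iff₀ hδ] at q2; linarith
  set u := η * (k * K) with hu
  have hu' : u = η * k * K := by rw [hu]; ring
  have hu4 : 4 ≤ u := by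
    rw [hu']
    nlinarith
  set E := Real.exp u with hE
  have hEu : u + 1 ≤ E := Real.add_one_le_exp u
  have hE5 : 5 ≤ E := by linarith
  set n := ⌈Real.exp E⌉₊ with hn
  have hn1 : Real.exp E ≤ n := Nat.le_ceil _
  have hn2 : (n : ℝ) < Real.exp E + 1 := Nat.ceil_lt_add_one (Real.exp_pos _).le
  have hexp16 : (16 : ℝ) ≤ Real.exp E := by
    have h1 : Real.exp 4 ≤ Real.exp E := Real.exp_le_exp.2 (by linarith)
    have h2 : Real.exp 4 = Real.exp 1 ^ 4 := by
      rw [← Real.exp_nat_mul]; norm_num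
    have h3 : (2 : ℝ) ^ 4 ≤ Real.exp 1 ^ 4 :=
      pow_le_pow_left₀ (by norm_num) (by have := Real.exp_one_gt_d9; linarith) _
    rw [h2] at h1
    linarith
  have hn16' : (16 : ℝ) ≤ n := hexp16.trans hn1
  have hn0 : (0 : ℝ) < n := by linarith
  have hlE : E ≤ Real.log n := by
    rw [Real.le_log_iff_exp_le hn0]
    exact hn1
  have hlE2 : Real.log n ≤ 2 * E := by
    rw [Real.log_le_iff_le_exp hn0]
    have h1 : Real.exp (2 * E) = Real.exp E * Real.exp E := by rw [← Real.exp_add]; ring_nf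
    rw [h1]
    nlinarith
  set ℓ := Real.log (Real.log n) with hℓ
  have hll : ℓ ≤ 2 * u := by
    have h1 : ℓ ≤ Real.log (2 * E) := Real.log_le_log (by linarith) hlE2
    rw [Real.log_mul (by norm_num) (by linarith), hE, Real.log_exp] at h1
    have := Real.log_two_lt_d9
    linarith
  have hll1 : u ≤ ℓ := by
    rw [hℓ, Real.le_log_iff_exp_le (by linarith)]
    exact hlE
  -- the condition `C log log n / log log log n ≤ k`
  have hlll : K / 2 ≤ Real.log ℓ := by
    have h1 : Real.log u ≤ Real.log ℓ := Real.log_le_log (by linarith) hll1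
    have h2 : Real.log η + K + Real.log K = Real.log u := by
      rw [hu', Real.log_mul (by positivity) (by linarith), Real.log_mul (by positivity) (by linarith)]
    have h3 : 0 ≤ Real.log K := Real.log_nonneg q4
    linarith
  have hcond : C * (ℓ / Real.log ℓ) ≤ k := by
    have h1 : ℓ / Real.log ℓ ≤ 2 * u / (K / 2) :=
      div_le_div₀ (by linarith) hll (by linarith) hlll
    have h2 : 2 * u / (K / 2) = 4 * (η * k) := by
      rw [hu']
      field_simp
      ring
    have h3 : C * (4 * (η * k)) = k := by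
      rw [hη]
      field_simp
    calc C * (ℓ / Real.log ℓ) ≤ C * (2 * u / (K / 2)) := mul_le_mul_of_nonneg_left h1 hC.le
      _ = k := by rw [h2, h3]
  have hn₀ : n₀ ≤ n := by
    have hku : (k : ℝ) ≤ n := by
      -- k ≤ 
      have h1 : ℓ ≤ Real.log n := by
        have := Real.log_le_sub_one_of_pos (show 0 < Real.log n by linarith)
        linarith
      have h2 : Real.log (Real.log n) ≤ Real.log n := h1
      have h3 : K ≤ 2 * Real.log ℓ := by linarith
      have h4 : 2 * Real.log ℓ ≤ ℓ := by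
        have h5 := Real.log_le_sub_one_of_pos (show 0 < ℓ / 2 by linarith)
        rw [Real.log_div (by linarith) (by norm_num)] at h5
        have := Real.log_two_lt_d9
        linarith
      have h6 : K ≤ Real.log n := by linarith
      rwa [hK, Real.log_le_log_iff (by linarith) hn0] at h6
    have : (n₀ : ℝ) ≤ n := q3.trans hku
    exact_mod_cast this
  obtain ⟨A, hA1, hA2, hA3⟩ := h n k hn₀ hcond
  have hn16 : 16 ≤ n := by exact_mod_cast hn16'
  have hAne : A.Nonempty := Finset.card_pos.1 (by omega)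
  have h4 := hcA A hAne hA1
  rw [hA2] at h4
  have h6 : c * (n : ℝ) ^ (δ * k) ≤ (n : ℝ) ^ (δ / 2 * k) := h4.trans hA3
  have h7 : (n : ℝ) ^ (δ * k) = (n : ℝ) ^ (δ / 2 * k) * (n : ℝ) ^ (δ / 2 * k) := by
    rw [← Real.rpow_add hn0]; ring_nf
  have h8 : 0 < (n : ℝ) ^ (δ / 2 * k) := by positivity
  have h9 : c * (n : ℝ) ^ (δ / 2 * k) ≤ 1 := by
    rw [h7, ← mul_assoc] at h6
    exact le_of_mul_le_mul_right (by linarith) h8
  have h10 : Real.exp E ≤ (n : ℝ) ^ (δ / 2 * k) := by
    calc Real.exp E ≤ n := hn1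
      _ = (n : ℝ) ^ (1 : ℝ) := (Real.rpow_one _).symm
      _ ≤ _ := Real.rpow_le_rpow_of_exponent_le (by linarith) (by linarith)
  rcases le_or_gt c 0 with hc | hc
  · exact hc.trans (Real.exp_pos _).le
  · rw [Real.exp_neg, ← one_div, le_div_iff₀ (Real.exp_pos _)]
    exact (mul_le_mul_of_nonneg_left h10 hc.le).trans h9

end Pool.Agent.X9.ES
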