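import Pool.Agent.X9.ES.Slice
import Pool.Agent.X9.ES.Final

set_option autoImplicit false

/-!
# Few sums and products when `k` is small compared with `log n`
-/

namespace Pool.Agent.X9.ES

open Finset Filter

lemma choose_symm_bound (t a : ℕ) (ht : 1 ≤ t) :
    Real.log (((t + a - 1).choose a : ℕ) : ℝ) ≤ t * (1 + Real.log (((t : ℝ) + a) / t)) := by
  have ht' : (1 : ℝ) ≤ t := by exact_mod_cast ht
  have ha' : (0 : ℝ) ≤ a := Nat.cast_nonneg a
  have h1 : (t + a - 1).choose a ≤ (t + a).choose t := by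
    calc (t + a - 1).choose a ≤ (t + a).choose a := Nat.choose_le_choose _ (by omega)
      _ = (t + a).choose t := by
          rw [← Nat.choose_symm_of_eq_add (show t + a = a + t by omega)]
  have h2 := Nat.choose_le_pow_div (α := ℝ) t (t + a)
  have h3 : (((t + a - 1).choose a : ℕ) : ℝ) ≤ ((t : ℝ) + a) ^ t / (t.factorial : ℝ) := by
    refine le_trans ?_ (by simpa using h2)
    exact_mod_cast h1
  have h4 : (0 : ℝ) < (((t + a - 1).choose a : ℕ) : ℝ) := by
    exact_mod_cast Nat.choose_pos (by omega)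
  have h5 := Real.log_le_log h4 h3
  rw [Real.log_div (by positivity) (by positivity), Real.log_pow] at h5
  have h6 := log_fact_ge t ht
  rw [Real.log_div (by positivity) (by positivity)]
  nlinarith

lemma pow_le_choose_mul (ρ m : ℕ) (hρ : 1 ≤ ρ) : ρ ^ m ≤ (ρ * m).choose m := by
  have h1 : (ρ * m).descFactorial m = m.factorial * (ρ * m).choose m :=
    Nat.descFactorial_eq_factorial_mul_choose _ _
  have h2 : ρ ^ m * m.factorial ≤ (ρ * m).descFactorial m := by
    rw [Nat.descFactorial_eq_prod_range, ← Nat.descFactorial_self m, Nat.descFactorial_eq_prod_range]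
    have h3 : ρ ^ m = ∏ _i ∈ Finset.range m, ρ := by simp
    rw [h3, ← Finset.prod_mul_distrib]
    refine Finset.prod_le_prod' fun i hi => ?_
    rw [Nat.mul_sub]
    have : i ≤ ρ * i := Nat.le_mul_of_pos_left i hρ
    omega
  rw [h1, mul_comm] at h2
  exact Nat.le_of_mul_le_mul_left h2 (Nat.factorial_pos m)

/-- the construction for `k ≤ log n` -/
theorem unif {n k : ℕ} (hn : 16 ≤ n) (hk : 2 ≤ k) (hkn : (k : ℝ) ≤ Real.log n) :
    ∃ A : Finset ℤ, (∀ a ∈ A, 0 < a) ∧ A.card = n ∧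
      (big k A : ℝ) ≤ (n : ℝ) ^ (300 * (Real.log (Real.log n) /
        Real.log (Real.exp 1 * Real.log (Real.log n) / Real.log k))) := by
  have hn' : (16 : ℝ) ≤ n := by exact_mod_cast hn
  have hn0 : (0 : ℝ) < n := by linarith
  have hk' : (2 : ℝ) ≤ k := by exact_mod_cast hk
  set L := Real.log n with hL
  set K := Real.log k with hK
  have hlog2a := Real.log_two_gt_d9
  have hlog2b := Real.log_two_lt_d9
  have hl2 : 2.77 ≤ L := by
    have h1 : Real.log 16 ≤ L := Real.log_le_log (by norm_num) hn'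
    have h2 : Real.log 16 = 4 * Real.log 2 := by
      rw [show (16 : ℝ) = 2 ^ 4 by norm_num, Real.log_pow]
      norm_num
    linarith
  have hL0 : 0 < L := by linarith
  have hK0 : 0.69 ≤ K := by
    have := Real.log_le_log (by norm_num) hk'
    linarith
  set ℓ := Real.log L with hℓ
  have hℓ1 : 1 ≤ ℓ := by
    rw [hℓ, Real.le_log_iff_exp_le (by linarith)]
    have := Real.exp_one_lt_d9
    linarith
  have hKℓ : K ≤ ℓ := Real.log_le_log (by linarith) hkn
  have he1 := Real.exp_one_gt_d9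
  have he2 := Real.exp_one_lt_d9
  set r := Real.exp 1 * ℓ / K with hr
  have hre : Real.exp 1 ≤ r := by
    rw [hr, le_div_iff₀ (by linarith)]
    exact mul_le_mul_of_nonneg_left hKℓ (by linarith)
  have hrK : r * K = Real.exp 1 * ℓ := div_mul_cancel₀ _ (by linarith)
  have hr4 : r ≤ 4 * ℓ := by
    rw [hr, div_le_iff₀ (by linarith)]
    nlinarith
  set Λ := Real.log r with hΛ
  have hΛ1 : 1 ≤ Λ := by
    rw [hΛ, Real.le_log_iff_exp_le (by linarith)]
    exact hre
  -- the number rho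
  set ρ := ⌈r⌉₊ with hρ
  have hρ1 : r ≤ ρ := Nat.le_ceil _
  have hρ2 : (ρ : ℝ) ≤ r + 1 := (Nat.ceil_lt_add_one (by linarith)).le
  have hρ3 : 3 ≤ ρ := by
    have : (2 : ℝ) < ρ := by linarith
    have : 2 < ρ := by exact_mod_cast this
    omega
  have hρr : (ρ : ℝ) ≤ 2 * r := by linarith
  have hΛρ : Λ ≤ Real.log ρ := Real.log_le_log (by linarith) hρ1
  -- the number m
  set m := ⌈L / Λ⌉₊ with hm
  have hm1 : L / Λ ≤ m := Nat.le_ceil _
  have hm2 : (m : ℝ) ≤ L / Λ + 1 := (Nat.ceil_lt_add_one (by positivity)).le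
  have hΛℓ : Λ ≤ 2 * ℓ := by
    have h1 : r ≤ (2 * L) ^ 2 := by
      have h2 : ℓ ≤ L := by
        have := Real.log_le_sub_one_of_pos hL0
        linarith
      nlinarith
    have h2 := Real.log_le_sub_one_of_pos (show 0 < r / 4 by linarith)
    rw [Real.log_div (by linarith) (by norm_num)] at h2
    have h3 : Real.log 4 ≤ 1.4 := by
      have : Real.log 4 = 2 * Real.log 2 := by
        rw [show (4 : ℝ) = 2 ^ 2 by norm_num, Real.log_pow]
        norm_num
      linarith
    linarith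
  have hΛL : Λ ≤ 2 * L := by
    have : ℓ ≤ L := by
      have := Real.log_le_sub_one_of_pos hL0
      linarith
    linarith
  have hq0 : 0 < L / Λ := by positivity
  have hm3 : (m : ℝ) ≤ 3 * (L / Λ) := by
    have h1 : 1 ≤ 2 * (L / Λ) := by
      rw [mul_div_assoc', le_div_iff₀ (by linarith)]
      linarith
    linarith
  have hmpos : 1 ≤ m := by
    have : (0 : ℝ) < m := by linarith
    exact_mod_cast this
  have hm' : (1 : ℝ) ≤ m := by exact_mod_cast hmpos
  -- t
  set t := ρ * m with ht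
  have ht1 : 1 ≤ t := Nat.mul_pos (by omega) hmpos
  have ht' : (t : ℝ) = ρ * m := by rw [ht]; push_cast; ring
  have hchoose : n ≤ t.choose m := by
    have h1 : ρ ^ m ≤ t.choose m := pow_le_choose_mul ρ m (by omega)
    have h2 : (n : ℝ) ≤ (ρ : ℝ) ^ m := by
      have h3 : (n : ℝ) = Real.exp L := (Real.exp_log hn0).symm
      have h4 : (ρ : ℝ) ^ m = Real.exp (m * Real.log ρ) := by
        rw [← Real.rpow_natCast, Real.rpow_def_of_pos (by linarith), mul_comm]
      rw [h3, h4, Real.exp_le_exp]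
      have h5 : L / Λ * Λ ≤ m * Real.log ρ := mul_le_mul hm1 hΛρ (by linarith) (by linarith)
      rwa [div_mul_cancel₀ _ (by linarith)] at h5
    have h3 : (n : ℝ) ≤ (t.choose m : ℕ) := h2.trans (by exact_mod_cast h1)
    exact_mod_cast h3
  -- bounds
  have hrm : (t : ℝ) ≤ 6 * (r * (L / Λ)) := by
    rw [ht']
    calc (ρ : ℝ) * m ≤ (2 * r) * (3 * (L / Λ)) := mul_le_mul hρr hm3 (by linarith) (by linarith)
      _ = _ := by ring
  have hLΛ : L / Λ ≤ L := div_le_self hL0.le hΛ1
  have htL : (t : ℝ) ≤ 24 * (ℓ * L) := by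
    have h1 : r * (L / Λ) ≤ 4 * ℓ * L := mul_le_mul hr4 hLΛ hq0.le (by linarith)
    linarith
  obtain ⟨P, hP, hPc⟩ := primes_exist t ht1
  set y := ⌈8 * (t : ℝ) * Real.log (t + 2)⌉₊ with hy
  obtain ⟨D, hD1, hD2, hD3⟩ := slice P (fun p hp => (hP p hp).1) y (fun p hp => (hP p hp).2) m
  rw [hPc] at hD1 hD3
  obtain ⟨A, hAD, hAc⟩ := Finset.exists_subset_card_eq (show n ≤ D.card by rw [hD1]; exact hchoose)
  have hℓL : ℓ ≤ L := by
    have := Real.log_le_sub_one_of_pos hL0
    linarith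
  have hlogy : Real.log y ≤ 14 * ℓ := by
    have ht0 : (1 : ℝ) ≤ t := by exact_mod_cast ht1
    have hlog0 : 0 < Real.log ((t : ℝ) + 2) := Real.log_pos (by linarith)
    have g1 : (y : ℝ) ≤ 8 * (t : ℝ) * Real.log (t + 2) + 1 := (Nat.ceil_lt_add_one (by positivity)).le
    have g2 : Real.log ((t : ℝ) + 2) ≤ t + 1 := by
      have := Real.log_le_sub_one_of_pos (show (0 : ℝ) < (t : ℝ) + 2 by linarith)
      linarith
    have g3 : 8 * (t : ℝ) * Real.log (t + 2) ≤ 8 * (t : ℝ) * (t + 1) :=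
      mul_le_mul_of_nonneg_left g2 (by linarith)
    have g4 : (y : ℝ) ≤ 17 * (t : ℝ) ^ 2 := by nlinarith
    have g5 : (y : ℝ) ≤ 17 * (24 * (ℓ * L)) ^ 2 :=
      g4.trans (mul_le_mul_of_nonneg_left (pow_le_pow_left₀ (by linarith) htL 2) (by norm_num))
    have g6 : (y : ℝ) ≤ 10000 * L ^ 4 := by
      refine g5.trans ?_
      have h1 : ℓ * L ≤ L * L := mul_le_mul_of_nonneg_right hℓL hL0.le
      have h2 : (24 * (ℓ * L)) ^ 2 ≤ (24 * (L * L)) ^ 2 :=
        pow_le_pow_left₀ (by positivity) (by linarith) 2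
      calc 17 * (24 * (ℓ * L)) ^ 2 ≤ 17 * (24 * (L * L)) ^ 2 := by linarith
        _ = 9792 * L ^ 4 := by ring
        _ ≤ 10000 * L ^ 4 := by
          have : 0 ≤ L ^ 4 := by positivity
          linarith
    have hy0 : (0 : ℝ) < y := by
      have : 0 < 8 * (t : ℝ) * Real.log (t + 2) := by positivity
      have h1 : 8 * (t : ℝ) * Real.log (t + 2) ≤ y := Nat.le_ceil _
      linarith
    have g7 := Real.log_le_log hy0 g6
    rw [Real.log_mul (by norm_num) (by positivity), Real.log_pow] at g7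
    have g8 : Real.log 10000 ≤ 14 * Real.log 2 := by
      have : Real.log 10000 ≤ Real.log ((2 : ℝ) ^ 14) := Real.log_le_log (by norm_num) (by norm_num)
      rw [Real.log_pow] at this
      exact_mod_cast this
    push_cast at g7
    linarith
  have hℓq : 0 < ℓ * (L / Λ) := by positivity
  have hrpow : (n : ℝ) ^ (300 * (ℓ / Λ)) = Real.exp (300 * (ℓ * (L / Λ))) := by
    rw [Real.rpow_def_of_pos hn0]
    congr 1
    rw [← hL]
    ring
  refine ⟨A, fun a ha => (hD2 a (hAD ha)).1, hAc, ?_⟩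
  rw [hrpow, big_cast]
  have hqhalf : 1 / 2 ≤ L / Λ := by
    rw [le_div_iff₀ (by linarith)]
    linarith
  refine max_le ?_ ?_
  · have h1 : (sums k A).card ≤ k * y ^ m := card_sums_le (by omega) (fun a ha => by
      have := hD2 a (hAD ha)
      push_cast
      exact this)
    have h2 : ((sums k A).card : ℝ) ≤ k * (y : ℝ) ^ m := by exact_mod_cast h1
    refine h2.trans ?_
    have ht0 : (1 : ℝ) ≤ t := by exact_mod_cast ht1
    have hlog0 : 0 < Real.log ((t : ℝ) + 2) := Real.log_pos (by linarith)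
    have hy0 : (0 : ℝ) < y := by
      have : 0 < 8 * (t : ℝ) * Real.log (t + 2) := by positivity
      have h1 : 8 * (t : ℝ) * Real.log (t + 2) ≤ y := Nat.le_ceil _
      linarith
    have h3 : (k : ℝ) = Real.exp K := (Real.exp_log (by linarith)).symm
    have h4 : (y : ℝ) ^ m = Real.exp (m * Real.log y) := by
      rw [← Real.rpow_natCast, Real.rpow_def_of_pos hy0, mul_comm]
    rw [h4, h3, ← Real.exp_add, Real.exp_le_exp]
    have h5 : (m : ℝ) * Real.log y ≤ 3 * (L / Λ) * (14 * ℓ) := by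
      calc (m : ℝ) * Real.log y ≤ m * (14 * ℓ) := mul_le_mul_of_nonneg_left hlogy (by linarith)
        _ ≤ _ := mul_le_mul_of_nonneg_right hm3 (by linarith)
    have h6 : ℓ * (1 / 2) ≤ ℓ * (L / Λ) := mul_le_mul_of_nonneg_left hqhalf (by linarith)
    linarith
  · have g1 : (prods k A).card ≤ (t + k * m - 1).choose (k * m) :=
      (Finset.card_le_card (prods_mono hAD)).trans (hD3 k)
    have g2 : ((prods k A).card : ℝ) ≤ (((t + k * m - 1).choose (k * m) : ℕ) : ℝ) := by exact_mod_cast g1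
    refine g2.trans ?_
    have g3 := choose_symm_bound t (k * m) ht1
    have g4 : (0 : ℝ) < (((t + k * m - 1).choose (k * m) : ℕ) : ℝ) := by
      exact_mod_cast Nat.choose_pos (by omega)
    rw [← Real.log_le_iff_le_exp g4]
    refine g3.trans ?_
    have g5 : ((t : ℝ) + (k * m : ℕ)) / t ≤ k := by
      rw [ht']
      push_cast
      have hρ' : (3 : ℝ) ≤ ρ := by exact_mod_cast hρ3
      rw [div_le_iff₀ (by positivity)]
      have h1 : (ρ : ℝ) + k ≤ k * ρ := by nlinarith
      calc (ρ : ℝ) * m + k * m = (ρ + k) * m := by ring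
        _ ≤ k * ρ * m := mul_le_mul_of_nonneg_right h1 (by linarith)
        _ = _ := by ring
    have ht0 : (1 : ℝ) ≤ t := by exact_mod_cast ht1
    have g6 : Real.log (((t : ℝ) + (k * m : ℕ)) / t) ≤ K := by
      refine Real.log_le_log ?_ g5
      have : (0 : ℝ) ≤ (k * m : ℕ) := Nat.cast_nonneg _
      positivity
    have g7 : 1 + K ≤ 2.5 * K := by linarith
    have g8 : (t : ℝ) * (1 + Real.log (((t : ℝ) + (k * m : ℕ)) / t)) ≤ t * (2.5 * K) :=
      mul_le_mul_of_nonneg_left (by linarith) (by linarith)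
    have g9 : (t : ℝ) * K ≤ 6 * (Real.exp 1 * (ℓ * (L / Λ))) := by
      calc (t : ℝ) * K ≤ 6 * (r * (L / Λ)) * K := mul_le_mul_of_nonneg_right hrm (by linarith)
        _ = 6 * (r * K * (L / Λ)) := by ring
        _ = _ := by rw [hrK]; ring
    have g10 : Real.exp 1 * (ℓ * (L / Λ)) ≤ 3 * (ℓ * (L / Λ)) :=
      mul_le_mul_of_nonneg_right (by linarith) hℓq.le
    linarith

end Pool.Agent.X9.ES
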